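import Pool.Agent.Y857.VP.Fin

/-! The mean square of the window polynomial is of the expected order of magnitude (extracted from
`Pool.Agent.Y857.VP.window_VG`). -/

set_option autoImplicit false

namespace Pool.Agent.D0H44.GM

open Complex Filter Topology MeasureTheory Set
open Pool.Agent.Y857.VP
open Pool.Agent.H24R2.DZ (mT MM bb mo ph yy)

theorem core (a η : ℝ) (ha : 1 + 2 * η ≤ a) (hη0 : 0 < η) (hη1 : η ≤ 1) :
    ∃ k₀ : ℕ, ∀ k : ℕ, k₀ ≤ k → ∃ c T₀ : ℝ, 0 < c ∧ ∀ T : ℝ, T₀ ≤ T →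
      c * T * Real.log T ^ 2 ≤ ∫ t in (T / 4)..(4 * T), Bf T a (a + 1 + 5 * η) η k t ^ 2 := by
  obtain ⟨c₀, hc₀, hrefl⟩ := Pool.Agent.H448R2.GC.zeta_refl
  obtain ⟨θ, hθ0, hθ1, hθ2⟩ : ∃ θ : ℝ, 0 < θ ∧ θ ≤ 1 / 200 ∧ θ ≤ η / 2 :=
    ⟨min (1 / 200) (η / 2), lt_min (by norm_num) (by linarith), min_le_left _ _, min_le_right _ _⟩
  obtain ⟨A, TU, hA1, hU⟩ := upper_U θ hθ0 hθ1 (c₀ / 16) (by positivity)
  obtain ⟨Cm, Tm, hCm, hTm, hms⟩ := ms_left θ hθ0 hθ1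
  obtain ⟨k1, hk1⟩ := l1b A a η hA1 (by linarith) hη0 hη1
  obtain ⟨k2, hk2⟩ := lb A a η (by linarith) (by linarith) hη0 hη1
  refine ⟨max k1 k2, fun k hk => ?_⟩
  have hkk1 : k1 ≤ k := (le_max_left _ _).trans hk
  have hkk2 : k2 ≤ k := (le_max_right _ _).trans hk
  obtain ⟨C1, T1, hC1, hL1⟩ := hk1 k hkk1
  obtain ⟨T2, hLB⟩ := hk2 k hkk2
  clear hk1 hk2
  -- constants
  obtain ⟨CA, hCA⟩ : ∃ CA : ℝ, CA = Cm * ((1 + 2 * A) ^ 20 * Real.exp (4 * A)) := ⟨_, rfl⟩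
  have hA0 : 0 < A := by linarith
  have hCA0 : 0 < CA := by rw [hCA]; positivity
  obtain ⟨E, hE⟩ : ∃ E : ℝ, E = Real.exp A := ⟨_, rfl⟩
  have hE0 : 0 < E := by rw [hE]; exact Real.exp_pos _
  obtain ⟨g, hg0, hgc⟩ : ∃ g : ℝ, 0 < g ∧ C1 * g * (CA + 1) = c₀ * E / 16 := by
    refine ⟨c₀ * E / (16 * C1 * (CA + 1)), by positivity, ?_⟩
    field_simp
  -- `T` large
  obtain ⟨T4, hT4⟩ := ev_log (max (max (8 * A + 8) (80 * 16 / (c₀ * E)))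
    (max (Real.log 64 / η) (C1 / g)))
  refine ⟨g ^ 2, max (max TU Tm) (max (max T1 T2) (max T4 64)),
    by positivity, fun T hT => ?_⟩
  simp only [max_le_iff] at hT
  obtain ⟨⟨hTU, hTm'⟩, ⟨hTT1, hTT2⟩, hTT4, hT64⟩ := hT
  have hLL := hT4 T hTT4
  simp only [max_le_iff] at hLL
  obtain ⟨⟨hLA, hLc⟩, hLη, hLC⟩ := hLL
  have hTpos : 0 < T := by linarith
  replace hL1 := hL1 T hTT1
  replace hLB := hLB T hTT2
  replace hU := hU T hTU
  replace hms := fun κ β => hms T κ β hTm'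
  clear hT4
  obtain ⟨L, hL⟩ : ∃ L : ℝ, L = Real.log T := ⟨_, rfl⟩
  rw [← hL] at hLA hLc hLη hLC
  have hL0 : 0 < L := by linarith
  rw [div_le_iff₀ hη0] at hLη
  rw [div_le_iff₀ hg0] at hLC
  rw [div_le_iff₀ (by positivity)] at hLc
  by_contra hcon
  push Not at hcon
  -- notation
  obtain ⟨κ, hκ⟩ : ∃ κ : ℝ, κ = A / L := ⟨_, rfl⟩
  have hκ0 : 0 < κ := by rw [hκ]; positivity
  have hκ8 : κ ≤ 1 / 8 := by
    rw [hκ, div_le_iff₀ hL0]; linarith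
  have hκL : κ * L = A := by rw [hκ]; field_simp
  have hbn : ∀ h, ‖bs θ T κ h‖ ≤ 1 := bs_norm θ T κ hκ0.le
  have hb1 : bs θ T κ 1 = 1 := bs_one θ T κ
  have hTθ : 1 ≤ T ^ θ := Real.one_le_rpow (by linarith) hθ0.le
  have hN1 : 1 ≤ yy θ T := by
    unfold Pool.Agent.H24R2.DZ.yy
    rw [Nat.one_le_ceil_iff]
    linarith
  have hNlog : Real.log (yy θ T) ≤ η * L := nat_log_bound θ η T L hTpos hTθ hL hL0 hθ2 hLη
  -- mean squares
  have hZ2 := Z2_bound θ T A L κ Cm hθ0 hθ1 hCm hms hL hA0 hTpos hκ0.le hκ8 hκL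
  rw [← hCA] at hZ2
  rw [← hL] at hcon
  -- the `L^1` bound
  have hl1 := hL1 (yy θ T) (bs θ T κ) hbn (by rw [← hL]; exact hNlog) (g * L) (by positivity)
  rw [← hL, ← hκ] at hl1
  have hl1' : ∫ t in (T / 2)..(3 * T), Ef T a η k (yy θ T) (bs θ T κ) (1 / 2 - κ) t ≤
      (c₀ * E / 16) * L * T + C1 / (g * L) + 5 * T := by
    refine hl1.trans ?_
    have e1 : C1 * (g * L * (∫ t in (T / 4)..(4 * T), Zf (yy θ T) (bs θ T κ) t ^ 2) +
        1 / (g * L) * ∫ t in (T / 4)..(4 * T), Bf T a (a + 1 + 5 * η) η k t ^ 2) ≤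
        C1 * (g * L * (CA * T) + 1 / (g * L) * (g ^ 2 * T * L ^ 2)) := by
      apply mul_le_mul_of_nonneg_left _ hC1.le
      apply add_le_add
      · exact mul_le_mul_of_nonneg_left hZ2 (by positivity)
      · exact mul_le_mul_of_nonneg_left hcon.le (by positivity)
    have e2 : C1 * (g * L * (CA * T) + 1 / (g * L) * (g ^ 2 * T * L ^ 2)) =
        (C1 * g * (CA + 1)) * L * T := by
      field_simp
    rw [e2, hgc] at e1
    have e3 : 0 ≤ C1 / (g * L) := by positivity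
    linarith
  -- the lower bound
  have hlow := hLB (yy θ T) (bs θ T κ) hbn hb1 hN1 (by rw [← hL]; exact hNlog)
  rw [← hL, ← hκ] at hlow
  have hcmpI := cmp_int c₀ θ T κ a η E L k hc₀ hE0 hL hL0 hrefl hT64 hκ0.le hκ8
    (by rw [hκL, hE])
  rw [← hL, ← hκ] at hU
  have hUb' : ∫ t in (T / 2)..(3 * T), Uf θ T κ L t ≤ c₀ / 16 * E * T := by
    rw [hE]
    exact hU
  exact final_contra c₀ E L T g C1 _ _ _ hc₀ hE0 hL0 hTpos hg0 (by linarith)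
    (by linarith) (by linarith) hlow hcmpI hUb' hl1'

end Pool.Agent.D0H44.GM
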