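import Pool.Agent.D0H44.GM.St

/-! Transfer from the mean square of a smoothed Dirichlet polynomial with coefficients `Λ(n) - 1` to the
variance in intervals of one fixed length `H`. -/

set_option autoImplicit false

namespace Pool.Agent.D0H44.GM

open Complex MeasureTheory Filter Topology
open scoped FourierTransform
open Pool.Agent.H448R2.GC (cu)
open Pool.Agent.H448R2.GC.PL (planch_h)
open Pool.Agent.Y857.VP (lm AA)
open Pool.Agent.Y857.VP.VA (be be')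

/-- the shifted Dirichlet polynomial with a weight -/
noncomputable def AM (N : ℕ) (ω : ℝ → ℝ) (s : ℂ) (v : ℝ) : ℂ :=
  ∑ n ∈ Finset.Icc 1 N, ((lm n * ω (Real.log (n + v)) : ℝ) : ℂ) * cexp (-(s * (Real.log (n + v) : ℝ)))

/-- the transform of the local sums -/
noncomputable def GA (N : ℕ) (ω : ℝ → ℝ) (H : ℝ) (s : ℂ) (v₀ : ℝ) : ℂ :=
  ∑ n ∈ Finset.Icc 1 N, ((lm n : ℝ) : ℂ) *
    ∫ v in (0 : ℝ)..H, ((ω (Real.log (n + (v₀ + v))) : ℝ) : ℂ) *
      cexp (-(s * (Real.log (n + (v₀ + v)) : ℝ)))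

theorem ph_deriv (ω ω' : ℝ → ℝ) (hω : ∀ r, HasDerivAt ω (ω' r) r) (s : ℂ) (z : ℝ) (hz : 0 < z) :
    HasDerivAt (fun z : ℝ => ((ω (Real.log z) : ℝ) : ℂ) * cexp (-(s * (Real.log z : ℝ))))
      (((ω' (Real.log z) : ℝ) : ℂ) * cexp (-((s + 1) * (Real.log z : ℝ))) -
        s * (((ω (Real.log z) : ℝ) : ℂ) * cexp (-((s + 1) * (Real.log z : ℝ))))) z := by
  have h1 : HasDerivAt (fun z : ℝ => ((ω (Real.log z) : ℝ) : ℂ)) ((ω' (Real.log z) * z⁻¹ : ℝ) : ℂ) z :=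
    ((hω (Real.log z)).comp z (Real.hasDerivAt_log hz.ne')).ofReal_comp
  have h2 : HasDerivAt (fun z : ℝ => ((Real.log z : ℝ) : ℂ)) ((z⁻¹ : ℝ) : ℂ) z :=
    (Real.hasDerivAt_log hz.ne').ofReal_comp
  have h3 : HasDerivAt (fun z : ℝ => cexp (-(s * ((Real.log z : ℝ) : ℂ))))
      (cexp (-(s * ((Real.log z : ℝ) : ℂ))) * (-(s * ((z⁻¹ : ℝ) : ℂ)))) z :=
    ((h2.const_mul s).neg).cexp
  have h4 := h1.mul h3
  refine h4.congr_deriv ?_
  have e1 : ((z⁻¹ : ℝ) : ℂ) = cexp (-((Real.log z : ℝ) : ℂ)) := by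
    rw [← Complex.ofReal_neg, ← Complex.ofReal_exp, Real.exp_neg, Real.exp_log hz]
  have e2 : cexp (-((s + 1) * ((Real.log z : ℝ) : ℂ))) =
      cexp (-(s * ((Real.log z : ℝ) : ℂ))) * cexp (-((Real.log z : ℝ) : ℂ)) := by
    rw [← Complex.exp_add]
    congr 1
    ring
  rw [e2, Complex.ofReal_mul, e1]
  ring

theorem ph_cont (ω : ℝ → ℝ) (hω : Continuous ω) (s : ℂ) (y : ℝ) (hy : 0 < y) (H : ℝ) (hH : 0 ≤ H) :
    ContinuousOn (fun v : ℝ => ((ω (Real.log (y + v)) : ℝ) : ℂ) * cexp (-(s * (Real.log (y + v) : ℝ))))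
      (Set.uIcc 0 H) := by
  have h1 : ContinuousOn (fun v : ℝ => Real.log (y + v)) (Set.uIcc 0 H) := by
    apply ContinuousOn.log (by fun_prop)
    intro v hv
    rw [Set.uIcc_of_le hH] at hv
    have := hv.1
    intro h
    linarith
  apply ContinuousOn.mul
  · exact Complex.continuous_ofReal.comp_continuousOn (hω.comp_continuousOn h1)
  · apply Complex.continuous_exp.comp_continuousOn
    apply ContinuousOn.neg
    exact continuousOn_const.mul (Complex.continuous_ofReal.comp_continuousOn h1)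

theorem parts2 (ω ω' : ℝ → ℝ) (hω : ∀ r, HasDerivAt ω (ω' r) r) (hω' : Continuous ω') (H y : ℝ)
    (hy : 0 < y) (hH : 0 ≤ H) (s : ℂ) :
    ∫ v in (0 : ℝ)..H, ((ω (Real.log (y + v)) : ℝ) : ℂ) * cexp (-(s * (Real.log (y + v) : ℝ))) =
      (H : ℂ) * (((ω (Real.log y) : ℝ) : ℂ) * cexp (-(s * (Real.log y : ℝ)))) +
      ∫ v in (0 : ℝ)..H, ((H : ℂ) - (v : ℂ)) *
        (((ω' (Real.log (y + v)) : ℝ) : ℂ) * cexp (-((s + 1) * (Real.log (y + v) : ℝ))) -
        s * (((ω (Real.log (y + v)) : ℝ) : ℂ) * cexp (-((s + 1) * (Real.log (y + v) : ℝ))))) := by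
  have hωc : Continuous ω := continuous_iff_continuousAt.2 fun r => (hω r).continuousAt
  have h1 : ∀ v ∈ Set.uIcc 0 H, HasDerivAt (fun v : ℝ => ((ω (Real.log (y + v)) : ℝ) : ℂ) *
      cexp (-(s * (Real.log (y + v) : ℝ))))
      (((ω' (Real.log (y + v)) : ℝ) : ℂ) * cexp (-((s + 1) * (Real.log (y + v) : ℝ))) -
        s * (((ω (Real.log (y + v)) : ℝ) : ℂ) * cexp (-((s + 1) * (Real.log (y + v) : ℝ))))) v := by
    intro v hv
    rw [Set.uIcc_of_le hH] at hv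
    exact (ph_deriv ω ω' hω s (y + v) (by linarith [hv.1])).comp_const_add y v
  have h2 : ∀ v ∈ Set.uIcc 0 H, HasDerivAt (fun v : ℝ => (v : ℂ) - (H : ℂ)) 1 v := by
    intro v _
    exact (Complex.ofRealCLM.hasDerivAt (x := v)).sub_const _ |>.congr_deriv (by simp)
  have c1 := ph_cont ω' hω' (s + 1) y hy H hH
  have c2 := ph_cont ω hωc (s + 1) y hy H hH
  have h3 := intervalIntegral.integral_mul_deriv_eq_deriv_mul h1 h2
    ((c1.sub (continuousOn_const.mul c2)).intervalIntegrable) (by simp)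
  simp only [mul_one] at h3
  rw [h3, sub_self, mul_zero, zero_sub, add_zero, Complex.ofReal_zero, zero_sub, mul_neg, neg_neg,
    sub_eq_add_neg, ← intervalIntegral.integral_neg, mul_comm]
  congr 1
  apply intervalIntegral.integral_congr
  intro v _
  simp only
  ring

theorem AM_term_cont (ω : ℝ → ℝ) (hω : Continuous ω) (n : ℕ) (hn : 1 ≤ n) :
    ContinuousOn (fun z : ℂ × ℝ => ((lm n * ω (Real.log (n + z.2)) : ℝ) : ℂ) *
      cexp (-(z.1 * (Real.log (n + z.2) : ℝ)))) {z | 0 ≤ z.2} := by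
  have hn1 : (1 : ℝ) ≤ n := by exact_mod_cast hn
  have h1 : ContinuousOn (fun z : ℂ × ℝ => Real.log (n + z.2)) {z | 0 ≤ z.2} := by
    apply ContinuousOn.log (by fun_prop)
    intro z hz
    have : 0 ≤ z.2 := hz
    intro h
    linarith
  apply ContinuousOn.mul
  · apply Complex.continuous_ofReal.comp_continuousOn
    exact continuousOn_const.mul (hω.comp_continuousOn h1)
  · apply Complex.continuous_exp.comp_continuousOn
    apply ContinuousOn.neg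
    exact continuousOn_fst.mul (Complex.continuous_ofReal.comp_continuousOn h1)

theorem AM_cont (N : ℕ) (ω : ℝ → ℝ) (hω : Continuous ω) :
    ContinuousOn (fun z : ℂ × ℝ => AM N ω z.1 z.2) {z | 0 ≤ z.2} := by
  unfold AM
  apply continuousOn_finsetSum
  intro n hn
  exact AM_term_cont ω hω n (Finset.mem_Icc.1 hn).1

theorem key_id2 (N : ℕ) (ω ω' : ℝ → ℝ) (hω : ∀ r, HasDerivAt ω (ω' r) r) (hω' : Continuous ω')
    (H : ℝ) (hH : 0 ≤ H) (s : ℂ) (v₀ : ℝ) (hv₀ : 0 ≤ v₀) :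
    (H : ℂ) * AM N ω s v₀ = GA N ω H s v₀ -
      ∫ v in (0 : ℝ)..H, ((H : ℂ) - (v : ℂ)) *
        (AM N ω' (s + 1) (v₀ + v) - s * AM N ω (s + 1) (v₀ + v)) := by
  have hωc : Continuous ω := continuous_iff_continuousAt.2 fun r => (hω r).continuousAt
  have h1 : ∀ n ∈ Finset.Icc 1 N, (H : ℂ) * (((lm n * ω (Real.log (n + v₀)) : ℝ) : ℂ) *
      cexp (-(s * (Real.log (n + v₀) : ℝ)))) =
      ((lm n : ℝ) : ℂ) * (∫ v in (0 : ℝ)..H, ((ω (Real.log (n + (v₀ + v))) : ℝ) : ℂ) *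
        cexp (-(s * (Real.log (n + (v₀ + v)) : ℝ)))) -
      ∫ v in (0 : ℝ)..H, ((H : ℂ) - (v : ℂ)) *
        (((lm n * ω' (Real.log (n + (v₀ + v))) : ℝ) : ℂ) *
          cexp (-((s + 1) * (Real.log (n + (v₀ + v)) : ℝ))) -
        s * (((lm n * ω (Real.log (n + (v₀ + v))) : ℝ) : ℂ) *
          cexp (-((s + 1) * (Real.log (n + (v₀ + v)) : ℝ))))) := by
    intro n hn
    have hn1 : (1 : ℝ) ≤ n := by exact_mod_cast (Finset.mem_Icc.1 hn).1
    have h2 := parts2 ω ω' hω hω' H (n + v₀) (by linarith) hH s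
    simp only [add_assoc] at h2
    rw [h2]
    have h3 : ∫ v in (0 : ℝ)..H, ((H : ℂ) - (v : ℂ)) *
        (((lm n * ω' (Real.log (n + (v₀ + v))) : ℝ) : ℂ) *
          cexp (-((s + 1) * (Real.log (n + (v₀ + v)) : ℝ))) -
        s * (((lm n * ω (Real.log (n + (v₀ + v))) : ℝ) : ℂ) *
          cexp (-((s + 1) * (Real.log (n + (v₀ + v)) : ℝ))))) =
        ((lm n : ℝ) : ℂ) * ∫ v in (0 : ℝ)..H, ((H : ℂ) - (v : ℂ)) *
        (((ω' (Real.log (n + (v₀ + v))) : ℝ) : ℂ) *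
          cexp (-((s + 1) * (Real.log (n + (v₀ + v)) : ℝ))) -
        s * (((ω (Real.log (n + (v₀ + v))) : ℝ) : ℂ) *
          cexp (-((s + 1) * (Real.log (n + (v₀ + v)) : ℝ))))) := by
      rw [← intervalIntegral.integral_const_mul]
      apply intervalIntegral.integral_congr
      intro v _
      simp only
      push_cast
      ring
    rw [h3]
    push_cast
    ring
  have h5 : AM N ω s v₀ = ∑ n ∈ Finset.Icc 1 N, ((lm n * ω (Real.log (n + v₀)) : ℝ) : ℂ) *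
      cexp (-(s * (Real.log (n + v₀) : ℝ))) := rfl
  rw [h5, Finset.mul_sum, Finset.sum_congr rfl h1, Finset.sum_sub_distrib]
  unfold GA
  congr 1
  rw [← intervalIntegral.integral_finsetSum]
  · apply intervalIntegral.integral_congr
    intro v _
    simp only
    unfold AM
    rw [Finset.mul_sum, ← Finset.sum_sub_distrib, Finset.mul_sum]
  · intro n hn
    apply ContinuousOn.intervalIntegrable
    have c1 := AM_term_cont ω' hω' n (Finset.mem_Icc.1 hn).1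
    have c2 := AM_term_cont ω hωc n (Finset.mem_Icc.1 hn).1
    have hm : Set.MapsTo (fun v : ℝ => ((s + 1 : ℂ), v₀ + v)) (Set.uIcc 0 H) {z : ℂ × ℝ | 0 ≤ z.2} := by
      intro v hv
      rw [Set.uIcc_of_le hH] at hv
      have := hv.1
      show 0 ≤ v₀ + v
      linarith
    have hc : ContinuousOn (fun v : ℝ => ((s + 1 : ℂ), v₀ + v)) (Set.uIcc 0 H) := by fun_prop
    have c1' := c1.comp hc hm
    have c2' := c2.comp hc hm
    have c3 : ContinuousOn (fun v : ℝ => (H : ℂ) - (v : ℂ)) (Set.uIcc 0 H) := by fun_prop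
    exact c3.mul (c1'.sub (continuousOn_const.mul c2'))

/-- the mean square on the line `Re s = σ` -/
noncomputable def MA (N : ℕ) (ω : ℝ → ℝ) (σ T v : ℝ) : ℝ :=
  ∫ t in (-(5 * T))..(5 * T), ‖AM N ω ((σ : ℂ) + (t : ℂ) * I) v‖ ^ 2

theorem pt_bound2 (N : ℕ) (ω ω' : ℝ → ℝ) (hω : ∀ r, HasDerivAt ω (ω' r) r) (hω' : Continuous ω')
    (H : ℝ) (hH : 0 < H) (s : ℂ) (v₀ : ℝ) (hv₀ : 0 ≤ v₀) (S : ℝ) (hs : ‖s‖ ≤ S) :
    ‖AM N ω s v₀‖ ^ 2 ≤ 3 / H ^ 2 * ‖GA N ω H s v₀‖ ^ 2 +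
      3 * H * (∫ v in (0 : ℝ)..H, ‖AM N ω' (s + 1) (v₀ + v)‖ ^ 2) +
      3 * H * S ^ 2 * ∫ v in (0 : ℝ)..H, ‖AM N ω (s + 1) (v₀ + v)‖ ^ 2 := by
  have hωc : Continuous ω := continuous_iff_continuousAt.2 fun r => (hω r).continuousAt
  have hS : 0 ≤ S := (norm_nonneg _).trans hs
  have hid := key_id2 N ω ω' hω hω' H hH.le s v₀ hv₀
  have hm : Set.MapsTo (fun v : ℝ => ((s + 1 : ℂ), v₀ + v)) (Set.uIcc 0 H) {z : ℂ × ℝ | 0 ≤ z.2} := by
    intro v hv
    rw [Set.uIcc_of_le hH.le] at hv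
    have := hv.1
    show 0 ≤ v₀ + v
    linarith
  have hc : ContinuousOn (fun v : ℝ => ((s + 1 : ℂ), v₀ + v)) (Set.uIcc 0 H) := by fun_prop
  have c1 : ContinuousOn (fun v : ℝ => ‖AM N ω' (s + 1) (v₀ + v)‖) (Set.uIcc 0 H) :=
    ((AM_cont N ω' hω').comp hc hm).norm
  have c2 : ContinuousOn (fun v : ℝ => ‖AM N ω (s + 1) (v₀ + v)‖) (Set.uIcc 0 H) :=
    ((AM_cont N ω hωc).comp hc hm).norm
  have cs : ∀ f : ℝ → ℝ, ContinuousOn f (Set.uIcc 0 H) →
      (∫ v in (0 : ℝ)..H, f v) ^ 2 ≤ H * ∫ v in (0 : ℝ)..H, f v ^ 2 := by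
    intro f hf
    obtain ⟨A, hA⟩ : ∃ A, A = ∫ v in (0 : ℝ)..H, f v := ⟨_, rfl⟩
    have h0 : 0 ≤ ∫ u in (0 : ℝ)..H, (f u - A / H) ^ 2 :=
      intervalIntegral.integral_nonneg hH.le (fun u _ => sq_nonneg _)
    have h1 : ∫ u in (0 : ℝ)..H, (f u - A / H) ^ 2 =
        (∫ u in (0 : ℝ)..H, f u ^ 2) - 2 * (A / H) * A + (A / H) ^ 2 * H := by
      have e : ∀ u, (f u - A / H) ^ 2 = f u ^ 2 - (2 * (A / H)) * f u + (A / H) ^ 2 := fun u => by ring
      have i1 : IntervalIntegrable (fun u => f u ^ 2) volume 0 H := (hf.pow 2).intervalIntegrable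
      have i2 : IntervalIntegrable (fun u => (2 * (A / H)) * f u) volume 0 H :=
        (continuousOn_const.mul hf).intervalIntegrable
      have i3 : IntervalIntegrable (fun u => f u ^ 2 - (2 * (A / H)) * f u) volume 0 H := i1.sub i2
      simp only [e]
      rw [intervalIntegral.integral_add i3 (by simp),
        intervalIntegral.integral_sub i1 i2,
        intervalIntegral.integral_const_mul, intervalIntegral.integral_const, ← hA]
      simp only [smul_eq_mul]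
      ring
    rw [h1] at h0
    rw [← hA]
    have h2 : (∫ u in (0 : ℝ)..H, f u ^ 2) - 2 * (A / H) * A + (A / H) ^ 2 * H =
        (∫ u in (0 : ℝ)..H, f u ^ 2) - A ^ 2 / H := by
      field_simp
      ring
    rw [h2] at h0
    have h3 : A ^ 2 / H ≤ ∫ u in (0 : ℝ)..H, f u ^ 2 := by linarith
    rw [div_le_iff₀ hH] at h3
    linarith
  have h1 : ‖∫ v in (0 : ℝ)..H, ((H : ℂ) - (v : ℂ)) *
      (AM N ω' (s + 1) (v₀ + v) - s * AM N ω (s + 1) (v₀ + v))‖ ≤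
      H * (∫ v in (0 : ℝ)..H, ‖AM N ω' (s + 1) (v₀ + v)‖) +
      H * (S * ∫ v in (0 : ℝ)..H, ‖AM N ω (s + 1) (v₀ + v)‖) := by
    have i1 : IntervalIntegrable (fun v => H * ‖AM N ω' (s + 1) (v₀ + v)‖) volume 0 H :=
      (continuousOn_const.mul c1).intervalIntegrable
    have i2 : IntervalIntegrable (fun v => H * (S * ‖AM N ω (s + 1) (v₀ + v)‖)) volume 0 H :=
      (continuousOn_const.mul (continuousOn_const.mul c2)).intervalIntegrable
    rw [← intervalIntegral.integral_const_mul, ← intervalIntegral.integral_const_mul,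
      ← intervalIntegral.integral_const_mul,
      ← intervalIntegral.integral_add i1 i2]
    apply intervalIntegral.norm_integral_le_of_norm_le hH.le
    · apply Filter.Eventually.of_forall
      intro v hv
      rw [norm_mul]
      have e1 : ‖(H : ℂ) - (v : ℂ)‖ ≤ H := by
        rw [← Complex.ofReal_sub, Complex.norm_real, Real.norm_eq_abs, abs_le]
        constructor <;> linarith [hv.1, hv.2]
      have e2 : ‖AM N ω' (s + 1) (v₀ + v) - s * AM N ω (s + 1) (v₀ + v)‖ ≤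
          ‖AM N ω' (s + 1) (v₀ + v)‖ + S * ‖AM N ω (s + 1) (v₀ + v)‖ := by
        refine (norm_sub_le _ _).trans ?_
        rw [norm_mul]
        gcongr
      calc _ ≤ H * (‖AM N ω' (s + 1) (v₀ + v)‖ + S * ‖AM N ω (s + 1) (v₀ + v)‖) :=
            mul_le_mul e1 e2 (norm_nonneg _) hH.le
        _ = _ := by ring
    · exact i1.add i2
  have q1 := cs _ c1
  have q2 := cs _ c2
  obtain ⟨J1, hJ1⟩ : ∃ J, J = ∫ v in (0 : ℝ)..H, ‖AM N ω' (s + 1) (v₀ + v)‖ := ⟨_, rfl⟩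
  obtain ⟨J2, hJ2⟩ : ∃ J, J = ∫ v in (0 : ℝ)..H, ‖AM N ω (s + 1) (v₀ + v)‖ := ⟨_, rfl⟩
  have hJ10 : 0 ≤ J1 := by
    rw [hJ1]
    exact intervalIntegral.integral_nonneg hH.le (fun u _ => norm_nonneg _)
  have hJ20 : 0 ≤ J2 := by
    rw [hJ2]
    exact intervalIntegral.integral_nonneg hH.le (fun u _ => norm_nonneg _)
  rw [← hJ1, ← hJ2] at h1
  rw [← hJ1] at q1
  rw [← hJ2] at q2
  have h2 : H * ‖AM N ω s v₀‖ ≤ ‖GA N ω H s v₀‖ + (H * J1 + H * (S * J2)) := by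
    calc H * ‖AM N ω s v₀‖ = ‖(H : ℂ) * AM N ω s v₀‖ := by
          rw [norm_mul, Complex.norm_real, Real.norm_of_nonneg hH.le]
      _ ≤ _ := by
          rw [hid]
          exact (norm_sub_le _ _).trans (add_le_add le_rfl h1)
  generalize (∫ v in (0 : ℝ)..H, ‖AM N ω' (s + 1) (v₀ + v)‖ ^ 2) = I1 at q1 ⊢
  generalize (∫ v in (0 : ℝ)..H, ‖AM N ω (s + 1) (v₀ + v)‖ ^ 2) = I2 at q2 ⊢
  have ha : 0 ≤ ‖AM N ω s v₀‖ := norm_nonneg _
  generalize ‖AM N ω s v₀‖ = a at h2 ha ⊢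
  have hg0 : 0 ≤ ‖GA N ω H s v₀‖ := norm_nonneg _
  generalize ‖GA N ω H s v₀‖ = g at h2 hg0 ⊢
  have h3 : a ≤ g / H + J1 + S * J2 := by
    have : H * a ≤ H * (g / H + J1 + S * J2) := by
      refine h2.trans (le_of_eq ?_)
      field_simp
      ring
    exact le_of_mul_le_mul_left this hH
  have h4 : a ^ 2 ≤ (g / H + J1 + S * J2) ^ 2 := pow_le_pow_left₀ ha h3 2
  have h5 : (g / H + J1 + S * J2) ^ 2 ≤ 3 * (g / H) ^ 2 + 3 * J1 ^ 2 + 3 * (S * J2) ^ 2 := by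
    nlinarith [sq_nonneg (g / H - J1), sq_nonneg (g / H - S * J2), sq_nonneg (J1 - S * J2)]
  have h6 : 3 * (g / H) ^ 2 = 3 / H ^ 2 * g ^ 2 := by
    field_simp
  have h7 : 3 * (S * J2) ^ 2 ≤ 3 * H * S ^ 2 * I2 := by
    calc 3 * (S * J2) ^ 2 = 3 * S ^ 2 * J2 ^ 2 := by ring
      _ ≤ 3 * S ^ 2 * (H * I2) := mul_le_mul_of_nonneg_left q2 (by positivity)
      _ = _ := by ring
  linarith

end Pool.Agent.D0H44.GM
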