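import Pool.Agent.D0H44.GM.Wm

/-! The window theorem for the integral of `(ψ((1+δ)x) - ψ(x) - δx)² / x²`. -/

set_option autoImplicit false

namespace Pool.Agent.D0H44.GM

open MeasureTheory Filter Topology
open Pool.Agent.Y857.VP

/-- the error term -/
noncomputable def Dd (δ x : ℝ) : ℝ := Chebyshev.psi ((1 + δ) * x) - Chebyshev.psi x - δ * x

/-- the integral -/
noncomputable def J (δ A B : ℝ) : ℝ := ∫ x in A..B, Dd δ x ^ 2 / x ^ 2

theorem Dd_meas (δ : ℝ) : Measurable (Dd δ) := by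
  have h := Chebyshev.psi_mono.measurable
  unfold Dd
  exact ((h.comp (measurable_id.const_mul (1 + δ))).sub h).sub (measurable_id.const_mul δ)

theorem J_ii (δ A B : ℝ) (hδ : 0 ≤ δ) (hA : 0 < A) (hB : 0 < B) :
    IntervalIntegrable (fun x => Dd δ x ^ 2 / x ^ 2) volume A B := by
  rw [intervalIntegrable_iff]
  obtain ⟨M, hM⟩ : ∃ M, M = max A B := ⟨_, rfl⟩
  obtain ⟨m, hm⟩ : ∃ m, m = min A B := ⟨_, rfl⟩
  have hm0 : 0 < m := by rw [hm]; exact lt_min hA hB
  refine Measure.integrableOn_of_bounded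
    (M := (Chebyshev.psi ((1 + δ) * M) + Chebyshev.psi M + δ * M) ^ 2 / m ^ 2) (by simp)
    (((Dd_meas δ).pow_const 2).div (measurable_id.pow_const 2)).aestronglyMeasurable ?_
  filter_upwards [ae_restrict_mem measurableSet_uIoc] with x hx
  rw [Set.uIoc, Set.mem_Ioc, ← hM, ← hm] at hx
  have hx0 : 0 < x := hm0.trans hx.1
  rw [Real.norm_eq_abs, abs_div, abs_of_nonneg (sq_nonneg (Dd δ x)), abs_of_pos (by positivity)]
  have h1 : |Dd δ x| ≤ Chebyshev.psi ((1 + δ) * M) + Chebyshev.psi M + δ * M := by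
    have h2 : Chebyshev.psi ((1 + δ) * x) ≤ Chebyshev.psi ((1 + δ) * M) :=
      Chebyshev.psi_mono (mul_le_mul_of_nonneg_left hx.2 (by linarith))
    have h3 : Chebyshev.psi x ≤ Chebyshev.psi M := Chebyshev.psi_mono hx.2
    have h4 : δ * x ≤ δ * M := mul_le_mul_of_nonneg_left hx.2 hδ
    have h5 := Chebyshev.psi_nonneg ((1 + δ) * x)
    have h6 := Chebyshev.psi_nonneg x
    have h7 : 0 ≤ δ * x := by positivity
    unfold Dd
    rw [abs_le]
    constructor <;> linarith
  apply div_le_div₀ (by positivity) _ (by positivity) (pow_le_pow_left₀ hm0.le hx.1.le 2)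
  rw [← sq_abs]
  exact pow_le_pow_left₀ (abs_nonneg _) h1 2

theorem J_mono (δ A B A' B' : ℝ) (hδ : 0 ≤ δ) (hA' : 0 < A') (h1 : A' ≤ A) (h2 : A ≤ B) (h3 : B ≤ B') :
    J δ A B ≤ J δ A' B' := by
  unfold J
  apply intervalIntegral.integral_mono_interval h1 h2 h3
  · exact Eventually.of_forall fun x => by positivity
  · exact J_ii δ A' B' hδ hA' (by linarith)

theorem pt_AA (δ u : ℝ) (hδ : 0 < δ) :
    (AA (Real.exp (u + Real.log (1 + δ))) - AA (Real.exp u)) ^ 2 ≤
      (1 / 32) * (Dd δ (Real.exp u) ^ 2 + 1) := by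
  have h1 : Real.exp (u + Real.log (1 + δ)) = (1 + δ) * Real.exp u := by
    rw [Real.exp_add, Real.exp_log (by linarith)]
    ring
  rw [h1, AA_eq, AA_eq]
  have hx : 0 < Real.exp u := Real.exp_pos u
  generalize Real.exp u = x at hx
  unfold Dd
  have f1 : (⌊(1 + δ) * x⌋₊ : ℝ) ≤ (1 + δ) * x := Nat.floor_le (by positivity)
  have f2 : (1 + δ) * x < ⌊(1 + δ) * x⌋₊ + 1 := Nat.lt_floor_add_one _
  have f3 : (⌊x⌋₊ : ℝ) ≤ x := Nat.floor_le hx.le
  have f4 : x < ⌊x⌋₊ + 1 := Nat.lt_floor_add_one _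
  generalize (⌊(1 + δ) * x⌋₊ : ℝ) = m1 at *
  generalize (⌊x⌋₊ : ℝ) = m2 at *
  generalize Chebyshev.psi ((1 + δ) * x) = p1 at *
  generalize Chebyshev.psi x = p2 at *
  obtain ⟨D, hD⟩ : ∃ D, D = p1 - p2 - δ * x := ⟨_, rfl⟩
  obtain ⟨e, he⟩ : ∃ e, e = δ * x - (m1 - m2) := ⟨_, rfl⟩
  have he1 : |e| ≤ 1 := by
    rw [he, abs_le]
    constructor <;> linarith
  have he2 : e ^ 2 ≤ 1 := by
    rw [← sq_abs]
    exact pow_le_one₀ (abs_nonneg _) he1
  rw [← hD]
  have h2 : (p1 - m1) / 8 - (p2 - m2) / 8 = (D + e) / 8 := by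
    rw [hD, he]
    ring
  rw [h2]
  nlinarith [sq_nonneg (D - e)]

theorem J_subst (δ P Q : ℝ) (hPQ : P ≤ Q) :
    J δ (Real.exp P) (Real.exp Q) = ∫ u in P..Q, Dd δ (Real.exp u) ^ 2 * Real.exp (-u) := by
  unfold J
  have h1 : Real.exp P ≤ Real.exp Q := Real.exp_le_exp.2 hPQ
  rw [intervalIntegral.integral_of_le h1, intervalIntegral.integral_of_le hPQ]
  have h2 : Set.Ioc (Real.exp P) (Real.exp Q) = Real.exp '' (Set.Ioc P Q) := by
    ext y
    simp only [Set.mem_Ioc, Set.mem_image]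
    constructor
    · rintro ⟨h3, h4⟩
      have hy : 0 < y := (Real.exp_pos P).trans h3
      refine ⟨Real.log y, ⟨?_, ?_⟩, Real.exp_log hy⟩
      · rwa [Real.lt_log_iff_exp_lt hy]
      · rwa [Real.log_le_iff_le_exp hy]
    · rintro ⟨u, ⟨h3, h4⟩, rfl⟩
      exact ⟨Real.exp_lt_exp.2 h3, Real.exp_le_exp.2 h4⟩
  rw [h2, integral_image_eq_integral_abs_deriv_smul measurableSet_Ioc
    (fun x _ => (Real.hasDerivAt_exp x).hasDerivWithinAt) Real.exp_injective.injOn]
  apply integral_congr_ae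
  refine Eventually.of_forall fun u => ?_
  simp only [abs_of_pos (Real.exp_pos u), smul_eq_mul]
  rw [Real.exp_neg]
  have := (Real.exp_pos u).ne'
  field_simp

theorem LM_le (δ P Q : ℝ) (hδ : 0 < δ) (hPQ : P ≤ Q) :
    LM P Q (Real.log (1 + δ)) ≤ (1 / 32) * (J δ (Real.exp P) (Real.exp Q) + Real.exp (-P)) := by
  rw [J_subst δ P Q hPQ]
  unfold LM
  have i1 : IntervalIntegrable (fun u => Dd δ (Real.exp u) ^ 2 * Real.exp (-u)) volume P Q := by
    rw [intervalIntegrable_iff]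
    obtain ⟨M, hM⟩ : ∃ M, M = Real.exp (max P Q) := ⟨_, rfl⟩
    have hM0 : 0 < M := by rw [hM]; exact Real.exp_pos _
    refine Measure.integrableOn_of_bounded
      (M := (Chebyshev.psi ((1 + δ) * M) + Chebyshev.psi M + δ * M) ^ 2 * Real.exp (-(min P Q))) (by simp)
      ((((Dd_meas δ).comp Real.measurable_exp).pow_const 2).mul (by fun_prop)).aestronglyMeasurable ?_
    filter_upwards [ae_restrict_mem measurableSet_uIoc] with u hu
    rw [Set.uIoc, Set.mem_Ioc] at hu
    have hx0 : 0 < Real.exp u := Real.exp_pos u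
    have hxM : Real.exp u ≤ M := by rw [hM]; exact Real.exp_le_exp.2 hu.2
    rw [Real.norm_eq_abs, abs_mul, abs_of_nonneg (sq_nonneg _), abs_of_pos (Real.exp_pos (-u))]
    have h1 : |Dd δ (Real.exp u)| ≤ Chebyshev.psi ((1 + δ) * M) + Chebyshev.psi M + δ * M := by
      have h2 : Chebyshev.psi ((1 + δ) * Real.exp u) ≤ Chebyshev.psi ((1 + δ) * M) :=
        Chebyshev.psi_mono (mul_le_mul_of_nonneg_left hxM (by linarith))
      have h3 : Chebyshev.psi (Real.exp u) ≤ Chebyshev.psi M := Chebyshev.psi_mono hxM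
      have h4 : δ * Real.exp u ≤ δ * M := mul_le_mul_of_nonneg_left hxM hδ.le
      have h5 := Chebyshev.psi_nonneg ((1 + δ) * Real.exp u)
      have h6 := Chebyshev.psi_nonneg (Real.exp u)
      have h7 : 0 ≤ δ * Real.exp u := by positivity
      unfold Dd
      rw [abs_le]
      constructor <;> linarith
    apply mul_le_mul _ (Real.exp_le_exp.2 (by linarith [hu.1])) (Real.exp_pos _).le (by positivity)
    rw [← sq_abs]
    exact pow_le_pow_left₀ (abs_nonneg _) h1 2
  have i2 : IntervalIntegrable (fun u => Real.exp (-u)) volume P Q :=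
    Continuous.intervalIntegrable (by fun_prop) _ _
  have h3 : ∫ u in P..Q, Real.exp (-u) ≤ Real.exp (-P) := by
    have : ∫ u in P..Q, Real.exp (-u) = Real.exp (-P) - Real.exp (-Q) := by
      rw [intervalIntegral.integral_comp_neg (fun u => Real.exp u), integral_exp]
    rw [this]
    linarith [Real.exp_pos (-Q)]
  calc ∫ u in P..Q, (AA (Real.exp (u + Real.log (1 + δ))) - AA (Real.exp u)) ^ 2 * Real.exp (-u)
      ≤ ∫ u in P..Q, ((1 / 32) * (Dd δ (Real.exp u) ^ 2 * Real.exp (-u) + Real.exp (-u))) := by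
        apply intervalIntegral.integral_mono_on hPQ (LM_ii _ P Q) ((i1.add i2).const_mul _)
        intro u _
        have := pt_AA δ u hδ
        have h4 := mul_le_mul_of_nonneg_right this (Real.exp_pos (-u)).le
        refine h4.trans (le_of_eq ?_)
        ring
    _ = (1 / 32) * ((∫ u in P..Q, Dd δ (Real.exp u) ^ 2 * Real.exp (-u)) + ∫ u in P..Q, Real.exp (-u)) := by
        rw [intervalIntegral.integral_const_mul, intervalIntegral.integral_add i1 i2]
    _ ≤ _ := by
        apply mul_le_mul_of_nonneg_left _ (by norm_num)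
        linarith

/-- the window theorem, multiplicative form, for every `δ` -/
theorem window_mult (a b : ℝ) (ha : 1 < a) (hab : a + 1 < b) :
    ∃ c T₀ : ℝ, 0 < c ∧ ∀ δ : ℝ, 0 < δ → T₀ ≤ 1 / δ →
      c * δ * Real.log (1 / δ) ^ 2 ≤ J δ ((1 / δ) ^ a) ((1 / δ) ^ b) := by
  obtain ⟨η, hη0, hη1, hηa, hηb⟩ : ∃ η : ℝ, 0 < η ∧ η ≤ 1 ∧ 1 + 2 * η ≤ a ∧ a + 1 + 8 * η ≤ b := by
    refine ⟨min 1 (min ((a - 1) / 2) ((b - a - 1) / 8)), ?_, min_le_left _ _, ?_, ?_⟩
    · apply lt_min one_pos (lt_min _ _) <;> linarith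
    · have : min 1 (min ((a - 1) / 2) ((b - a - 1) / 8)) ≤ (a - 1) / 2 :=
        (min_le_right _ _).trans (min_le_left _ _)
      linarith
    · have : min 1 (min ((a - 1) / 2) ((b - a - 1) / 8)) ≤ (b - a - 1) / 8 :=
        (min_le_right _ _).trans (min_le_right _ _)
      linarith
  obtain ⟨c, T₁, hc, hw⟩ := win_LM (a + η) η (by linarith) hη0 hη1
  obtain ⟨T₂, hT₂⟩ := ev_log (max (2 * Real.log 8) (max ((a + η) * Real.log 8 / η) (max 1 (1 / (4 * c)))))
  refine ⟨8 * c, max (8 * T₁) (max (8 * T₂) (max 8 T₂)), by positivity, fun δ hδ hδT => ?_⟩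
  simp only [max_le_iff] at hδT
  obtain ⟨hT1', hT2', h8', hTT2⟩ := hδT
  obtain ⟨l, hl⟩ : ∃ l, l = Real.log (1 + δ) := ⟨_, rfl⟩
  have hδ8 : δ ≤ 1 / 8 := by
    rw [le_div_iff₀ hδ] at h8'
    rw [le_div_iff₀ (by norm_num)]
    linarith
  have hl1 : l ≤ δ := by
    rw [hl]
    have := Real.log_le_sub_one_of_pos (by linarith : (0 : ℝ) < 1 + δ)
    linarith
  have hl2 : δ / 2 ≤ l := by
    rw [hl, Real.le_log_iff_exp_le (by linarith)]
    have h1 := Real.exp_bound_div_one_sub_of_interval (x := δ / 2) (by linarith) (by linarith)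
    refine h1.trans ?_
    rw [div_le_iff₀ (by linarith)]
    nlinarith
  have hl0 : 0 < l := by linarith
  obtain ⟨T, hT⟩ : ∃ T, T = 1 / (8 * l) := ⟨_, rfl⟩
  obtain ⟨T', hT'⟩ : ∃ T', T' = 1 / δ := ⟨_, rfl⟩
  rw [← hT'] at hT1' hT2' h8' hTT2 ⊢
  have hT'0 : 0 < T' := by linarith
  have hT0 : 0 < T := by rw [hT]; positivity
  have hTl : T' / 8 ≤ T := by
    rw [hT', hT, div_div, one_div_le_one_div (by positivity) (by positivity)]
    linarith
  have hTu : T ≤ T' / 4 := by
    rw [hT', hT, div_div, one_div_le_one_div (by positivity) (by positivity)]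
    linarith
  have hl8 : 1 / (8 * T) = l := by
    rw [hT]
    field_simp
  have hwT := hw T (by linarith)
  rw [hl8, hl] at hwT
  have hlogs := hT₂ T (by linarith)
  have hlogs' := hT₂ T' hTT2
  simp only [max_le_iff] at hlogs hlogs'
  obtain ⟨h2l, h3l, h1l, hcl⟩ := hlogs
  obtain ⟨h2l', h3l', h1l', hcl'⟩ := hlogs'
  have hlT : 0 < Real.log T := by linarith
  have hlT' : 0 < Real.log T' := by linarith
  have hPQ : (a + η) * Real.log T ≤ (a + η + 1 + 7 * η) * Real.log T := by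
    apply mul_le_mul_of_nonneg_right _ hlT.le
    linarith
  have hLM := LM_le δ _ _ hδ hPQ
  have hT1 : 1 ≤ T := by linarith
  have e1 : Real.exp ((a + η) * Real.log T) = T ^ (a + η) := by
    rw [Real.rpow_def_of_pos hT0, mul_comm]
  have e2 : Real.exp ((a + η + 1 + 7 * η) * Real.log T) = T ^ (a + η + 1 + 7 * η) := by
    rw [Real.rpow_def_of_pos hT0, mul_comm]
  have e3 : Real.exp (-((a + η) * Real.log T)) ≤ 1 / T := by
    rw [Real.exp_neg, e1, ← one_div]
    apply one_div_le_one_div_of_le hT0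
    calc T = T ^ (1 : ℝ) := (Real.rpow_one T).symm
      _ ≤ T ^ (a + η) := Real.rpow_le_rpow_of_exponent_le hT1 (by linarith)
  rw [e1, e2] at hLM
  have hJ : J δ (T ^ (a + η)) (T ^ (a + η + 1 + 7 * η)) ≤ J δ (T' ^ a) (T' ^ b) := by
    apply J_mono δ _ _ _ _ hδ.le (Real.rpow_pos_of_pos hT'0 _)
    · calc T' ^ a ≤ (T' / 8) ^ (a + η) := by
            rw [Real.div_rpow hT'0.le (by norm_num), le_div_iff₀ (by positivity),
              Real.rpow_add hT'0]
            apply mul_le_mul_of_nonneg_left _ (by positivity)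
            rw [Real.rpow_def_of_pos (by norm_num), Real.rpow_def_of_pos hT'0]
            apply Real.exp_le_exp.2
            rw [div_le_iff₀ hη0] at h3l'
            linarith
        _ ≤ T ^ (a + η) := Real.rpow_le_rpow (by positivity) hTl (by linarith)
    · apply Real.rpow_le_rpow_of_exponent_le hT1
      linarith
    · calc T ^ (a + η + 1 + 7 * η) ≤ T' ^ (a + η + 1 + 7 * η) :=
            Real.rpow_le_rpow hT0.le (by linarith) (by linarith)
        _ ≤ T' ^ b := Real.rpow_le_rpow_of_exponent_le (by linarith) (by linarith)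
  have h5 : 32 * (c * Real.log T ^ 2 / T) ≤ J δ (T' ^ a) (T' ^ b) + 1 / T := by linarith
  have h6 : 1 / T ≤ 4 * (c * Real.log T ^ 2 / T) := by
    rw [mul_div_assoc', div_le_div_iff_of_pos_right hT0]
    have h7 : 1 ≤ 4 * c * Real.log T := by
      rw [div_le_iff₀ (by positivity)] at hcl
      linarith
    nlinarith
  have h7 : 28 * (c * Real.log T ^ 2 / T) ≤ J δ (T' ^ a) (T' ^ b) := by linarith
  refine le_trans ?_ h7
  have h8 : 4 * δ ≤ 1 / T := by
    rw [hT]
    rw [one_div_one_div]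
    linarith
  have h9 : Real.log T' ≤ 2 * Real.log T := by
    have h10 : Real.log (T' / 8) ≤ Real.log T := Real.log_le_log (by positivity) hTl
    rw [Real.log_div hT'0.ne' (by norm_num)] at h10
    linarith
  have h10 : Real.log T' ^ 2 ≤ 4 * Real.log T ^ 2 := by nlinarith
  calc 8 * c * δ * Real.log T' ^ 2 ≤ 8 * c * δ * (4 * Real.log T ^ 2) :=
        mul_le_mul_of_nonneg_left h10 (by positivity)
    _ = 8 * (c * Real.log T ^ 2 * (4 * δ)) := by ring
    _ ≤ 8 * (c * Real.log T ^ 2 * (1 / T)) := by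
        apply mul_le_mul_of_nonneg_left _ (by norm_num)
        exact mul_le_mul_of_nonneg_left h8 (by positivity)
    _ = 8 * (c * Real.log T ^ 2 / T) := by ring
    _ ≤ 28 * (c * Real.log T ^ 2 / T) := by
        apply mul_le_mul_of_nonneg_right (by norm_num) (by positivity)

end Pool.Agent.D0H44.GM
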