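import Pool.Agent.D0H44.GM.Pa

/-! The induction over the smoothness of the weight, additive version. -/

set_option autoImplicit false

namespace Pool.Agent.D0H44.GM

open Complex MeasureTheory Filter Topology
open Pool.Agent.H448R2.GC (cu)
open Pool.Agent.Y857.VP (lm AA)
open Pool.Agent.Y857.VP.VA (be be')

theorem AMc (N : ℕ) (ω : ℝ → ℝ) (hω : Continuous ω) (σ v₀ : ℝ) (hv₀ : 0 ≤ v₀) :
    Continuous (fun z : ℝ × ℝ => AM N ω ((σ : ℂ) + (z.1 : ℂ) * I) (v₀ + |z.2|)) := by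
  have h := AM_cont N ω hω
  have h2 : Continuous (fun z : ℝ × ℝ => ((σ : ℂ) + (z.1 : ℂ) * I, v₀ + |z.2|)) := by fun_prop
  exact h.comp_continuous h2 (fun z => by
    show 0 ≤ v₀ + |z.2|
    positivity)

theorem AMc1 (N : ℕ) (ω : ℝ → ℝ) (hω : Continuous ω) (σ v₀ : ℝ) (hv₀ : 0 ≤ v₀) :
    Continuous (fun t : ℝ => AM N ω ((σ : ℂ) + (t : ℂ) * I) v₀) := by
  have h := (AMc N ω hω σ v₀ hv₀).comp (continuous_id.prodMk (continuous_const (y := (0 : ℝ))))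
  simpa [Function.comp_def] using h

theorem inner_eq (N : ℕ) (ω : ℝ → ℝ) (σ v₀ H : ℝ) (hH : 0 ≤ H) (t : ℝ) :
    ∫ v in (0 : ℝ)..H, ‖AM N ω ((σ : ℂ) + (t : ℂ) * I) (v₀ + v)‖ ^ 2 =
      ∫ v in (0 : ℝ)..H, ‖AM N ω ((σ : ℂ) + (t : ℂ) * I) (v₀ + |v|)‖ ^ 2 := by
  apply intervalIntegral.integral_congr
  intro v hv
  rw [Set.uIcc_of_le hH] at hv
  simp only [abs_of_nonneg hv.1]

theorem inner_cont (N : ℕ) (ω : ℝ → ℝ) (hω : Continuous ω) (σ v₀ H : ℝ) (hv₀ : 0 ≤ v₀) (hH : 0 ≤ H) :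
    Continuous (fun t : ℝ => ∫ v in (0 : ℝ)..H, ‖AM N ω ((σ : ℂ) + (t : ℂ) * I) (v₀ + v)‖ ^ 2) := by
  simp only [inner_eq N ω σ v₀ H hH]
  apply intervalIntegral.continuous_parametric_intervalIntegral_of_continuous'
  exact (AMc N ω hω σ v₀ hv₀).norm.pow 2

theorem GA_cont (N : ℕ) (ω ω' : ℝ → ℝ) (hω : ∀ r, HasDerivAt ω (ω' r) r) (hω' : Continuous ω')
    (σ v₀ H : ℝ) (hv₀ : 0 ≤ v₀) (hH : 0 ≤ H) :
    Continuous (fun t : ℝ => GA N ω H ((σ : ℂ) + (t : ℂ) * I) v₀) := by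
  have hωc : Continuous ω := continuous_iff_continuousAt.2 fun r => (hω r).continuousAt
  have e : ∀ t : ℝ, GA N ω H ((σ : ℂ) + (t : ℂ) * I) v₀ = (H : ℂ) * AM N ω ((σ : ℂ) + (t : ℂ) * I) v₀ +
      ∫ v in (0 : ℝ)..H, ((H : ℂ) - (v : ℂ)) *
        (AM N ω' (((σ + 1 : ℝ) : ℂ) + (t : ℂ) * I) (v₀ + |v|) -
          ((σ : ℂ) + (t : ℂ) * I) * AM N ω (((σ + 1 : ℝ) : ℂ) + (t : ℂ) * I) (v₀ + |v|)) := by
    intro t
    rw [key_id2 N ω ω' hω hω' H hH ((σ : ℂ) + (t : ℂ) * I) v₀ hv₀]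
    have e2 : ∫ v in (0 : ℝ)..H, ((H : ℂ) - (v : ℂ)) *
        (AM N ω' (((σ + 1 : ℝ) : ℂ) + (t : ℂ) * I) (v₀ + |v|) -
          ((σ : ℂ) + (t : ℂ) * I) * AM N ω (((σ + 1 : ℝ) : ℂ) + (t : ℂ) * I) (v₀ + |v|)) =
        ∫ v in (0 : ℝ)..H, ((H : ℂ) - (v : ℂ)) *
        (AM N ω' ((σ : ℂ) + (t : ℂ) * I + 1) (v₀ + v) -
          ((σ : ℂ) + (t : ℂ) * I) * AM N ω ((σ : ℂ) + (t : ℂ) * I + 1) (v₀ + v)) := by
      apply intervalIntegral.integral_congr
      intro v hv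
      rw [Set.uIcc_of_le hH] at hv
      have e3 : ((σ + 1 : ℝ) : ℂ) + (t : ℂ) * I = (σ : ℂ) + (t : ℂ) * I + 1 := by
        push_cast
        ring
      simp only [abs_of_nonneg hv.1, e3]
    rw [e2]
    ring
  simp only [e]
  apply Continuous.add
  · exact continuous_const.mul (AMc1 N ω hωc σ v₀ hv₀)
  · apply intervalIntegral.continuous_parametric_intervalIntegral_of_continuous'
    apply Continuous.mul (by fun_prop)
    apply Continuous.sub
    · exact AMc N ω' hω' (σ + 1) v₀ hv₀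
    · apply Continuous.mul (by fun_prop)
      exact AMc N ω hωc (σ + 1) v₀ hv₀

theorem fub_aux0 (N : ℕ) (ω : ℝ → ℝ) (hω : Continuous ω) (σ v₀ : ℝ) (hv₀ : 0 ≤ v₀) :
    Continuous (fun z : ℝ × ℝ => ‖AM N ω ((σ : ℂ) + (z.2 : ℂ) * I) (v₀ + |z.1|)‖ ^ 2) := by
  have h := AM_cont N ω hω
  have h2 : Continuous (fun z : ℝ × ℝ => ((σ : ℂ) + (z.2 : ℂ) * I, v₀ + |z.1|)) := by fun_prop
  exact (h.comp_continuous h2 (fun z => by
    show 0 ≤ v₀ + |z.1|
    positivity)).norm.pow 2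

theorem fub_aux (N : ℕ) (ω : ℝ → ℝ) (hω : Continuous ω) (σ v₀ T : ℝ) (hv₀ : 0 ≤ v₀) :
    Continuous (fun v : ℝ => ∫ t in (-(5 * T))..(5 * T),
      ‖AM N ω ((σ : ℂ) + (t : ℂ) * I) (v₀ + |v|)‖ ^ 2) := by
  have h8 := fub_aux0 N ω hω σ v₀ hv₀
  exact intervalIntegral.continuous_parametric_intervalIntegral_of_continuous' h8 _ _

theorem fub (N : ℕ) (ω : ℝ → ℝ) (hω : Continuous ω) (σ v₀ H T B : ℝ) (hv₀ : 0 ≤ v₀) (hH : 0 ≤ H)
    (hT : 0 ≤ T) (hB : ∀ v, 0 ≤ v → v ≤ H → MA N ω σ T (v₀ + v) ≤ B) :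
    ∫ t in (-(5 * T))..(5 * T), ∫ v in (0 : ℝ)..H, ‖AM N ω ((σ : ℂ) + (t : ℂ) * I) (v₀ + v)‖ ^ 2 ≤
      H * B := by
  have hab : -(5 * T) ≤ 5 * T := by linarith
  simp only [inner_eq N ω σ v₀ H hH]
  have hcc : Continuous (Function.uncurry (fun t v : ℝ =>
      ‖AM N ω ((σ : ℂ) + (t : ℂ) * I) (v₀ + |v|)‖ ^ 2)) := (AMc N ω hω σ v₀ hv₀).norm.pow 2
  have h5 : ∫ t in (-(5 * T))..(5 * T), ∫ v in (0 : ℝ)..H,
      ‖AM N ω ((σ : ℂ) + (t : ℂ) * I) (v₀ + |v|)‖ ^ 2 =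
      ∫ v in (0 : ℝ)..H, ∫ t in (-(5 * T))..(5 * T),
      ‖AM N ω ((σ : ℂ) + (t : ℂ) * I) (v₀ + |v|)‖ ^ 2 := by
    simp only [intervalIntegral.integral_of_le hab, intervalIntegral.integral_of_le hH]
    apply integral_integral_swap
    rw [Measure.prod_restrict, ← IntegrableOn]
    exact (hcc.continuousOn.integrableOn_compact
      (isCompact_Icc.prod isCompact_Icc)).mono_set
        (Set.prod_mono Set.Ioc_subset_Icc_self Set.Ioc_subset_Icc_self)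
  rw [h5]
  have h6 : ∫ v in (0 : ℝ)..H, ∫ t in (-(5 * T))..(5 * T),
      ‖AM N ω ((σ : ℂ) + (t : ℂ) * I) (v₀ + |v|)‖ ^ 2 ≤ ∫ v in (0 : ℝ)..H, B := by
    apply intervalIntegral.integral_mono_on hH
    · apply Continuous.intervalIntegrable
      exact fub_aux N ω hω σ v₀ T hv₀
    · simp
    · intro v hv
      have := hB v hv.1 hv.2
      unfold MA at this
      rw [abs_of_nonneg hv.1]
      exact this
  rw [intervalIntegral.integral_const, smul_eq_mul, sub_zero] at h6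
  exact h6

theorem ma_step (N : ℕ) (ω ω' : ℝ → ℝ) (hω : ∀ r, HasDerivAt ω (ω' r) r) (hω' : Continuous ω')
    (H T P Q : ℝ) (hH : 0 < H) (hT : 0 ≤ T) (h1 : ∀ u, |ω u| ≤ 1)
    (hPQ : P ≤ Q) (hz : ∀ u, u < P ∨ Q < u → ω u = 0) (hN : Real.exp Q < N + 1) (j : ℕ)
    (hj : 1 / 2 + (j : ℝ) ≤ 5 * T) (v₀ : ℝ) (hv₀ : 0 ≤ v₀) (hv : 2 * v₀ ≤ Real.exp P) (B B' : ℝ)
    (hB : ∀ v, 0 ≤ v → v ≤ H → MA N ω (1 / 2 + (j + 1 : ℕ)) T (v₀ + v) ≤ B)
    (hB' : ∀ v, 0 ≤ v → v ≤ H → MA N ω' (1 / 2 + (j + 1 : ℕ)) T (v₀ + v) ≤ B') :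
    MA N ω (1 / 2 + j) T v₀ ≤ 6 * Real.pi / H ^ 2 * (Real.exp (-(2 * j * P)) *
      DV (Real.exp P / 2) (Real.exp Q) H) + 3 * H ^ 2 * (B' + 100 * T ^ 2 * B) := by
  have hωc : Continuous ω := continuous_iff_continuousAt.2 fun r => (hω r).continuousAt
  have hab : -(5 * T) ≤ 5 * T := by linarith
  have hcI := inner_cont N ω hωc (1 / 2 + (j + 1 : ℕ)) v₀ H hv₀ hH.le
  have hcI' := inner_cont N ω' hω' (1 / 2 + (j + 1 : ℕ)) v₀ H hv₀ hH.le
  have hG := (GA_cont N ω ω' hω hω' (1 / 2 + j) v₀ H hv₀ hH.le).norm.pow 2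
  have hA := (AMc1 N ω hωc (1 / 2 + j) v₀ hv₀).norm.pow 2
  have e : ∀ t : ℝ, (((1 / 2 + j : ℝ) : ℂ) + (t : ℂ) * I) + 1 =
      ((1 / 2 + (j + 1 : ℕ) : ℝ) : ℂ) + (t : ℂ) * I := by
    intro t
    push_cast
    ring
  have i1 : IntervalIntegrable (fun t : ℝ => 3 / H ^ 2 *
      ‖GA N ω H (((1 / 2 + j : ℝ) : ℂ) + (t : ℂ) * I) v₀‖ ^ 2) volume (-(5 * T)) (5 * T) :=
    (hG.const_mul _).intervalIntegrable _ _
  have i2 : IntervalIntegrable (fun t : ℝ => 3 * H * (∫ v in (0 : ℝ)..H,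
      ‖AM N ω' (((1 / 2 + (j + 1 : ℕ) : ℝ) : ℂ) + (t : ℂ) * I) (v₀ + v)‖ ^ 2)) volume
        (-(5 * T)) (5 * T) :=
    (hcI'.const_mul _).intervalIntegrable _ _
  have i3 : IntervalIntegrable (fun t : ℝ => 3 * H * (10 * T) ^ 2 * (∫ v in (0 : ℝ)..H,
      ‖AM N ω (((1 / 2 + (j + 1 : ℕ) : ℝ) : ℂ) + (t : ℂ) * I) (v₀ + v)‖ ^ 2)) volume
        (-(5 * T)) (5 * T) :=
    (hcI.const_mul _).intervalIntegrable _ _
  have h2 : MA N ω (1 / 2 + j) T v₀ ≤ ∫ t in (-(5 * T))..(5 * T),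
      (3 / H ^ 2 * ‖GA N ω H (((1 / 2 + j : ℝ) : ℂ) + (t : ℂ) * I) v₀‖ ^ 2 +
      3 * H * (∫ v in (0 : ℝ)..H,
        ‖AM N ω' (((1 / 2 + (j + 1 : ℕ) : ℝ) : ℂ) + (t : ℂ) * I) (v₀ + v)‖ ^ 2) +
      3 * H * (10 * T) ^ 2 * ∫ v in (0 : ℝ)..H,
        ‖AM N ω (((1 / 2 + (j + 1 : ℕ) : ℝ) : ℂ) + (t : ℂ) * I) (v₀ + v)‖ ^ 2) := by
    unfold MA
    apply intervalIntegral.integral_mono_on hab
    · exact hA.intervalIntegrable _ _
    · exact (i1.add i2).add i3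
    · intro t ht
      have hs : ‖(((1 / 2 + j : ℝ) : ℂ) + (t : ℂ) * I)‖ ≤ 10 * T := by
        refine (norm_add_le _ _).trans ?_
        rw [Complex.norm_real, norm_mul, Complex.norm_I, mul_one, Complex.norm_real,
          Real.norm_of_nonneg (by positivity), Real.norm_eq_abs]
        have : |t| ≤ 5 * T := abs_le.2 ⟨ht.1, ht.2⟩
        linarith
      have h3 := pt_bound2 N ω ω' hω hω' H hH (((1 / 2 + j : ℝ) : ℂ) + (t : ℂ) * I) v₀ hv₀ (10 * T) hs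
      rw [e t] at h3
      exact h3
  rw [intervalIntegral.integral_add (i1.add i2) i3, intervalIntegral.integral_add i1 i2,
    intervalIntegral.integral_const_mul, intervalIntegral.integral_const_mul,
    intervalIntegral.integral_const_mul] at h2
  have h3 := GA_int N ω j H T v₀ P Q hωc h1 hPQ hz hH.le hv₀ hv hN hT
  have h4 := fub N ω' hω' (1 / 2 + (j + 1 : ℕ)) v₀ H T B' hv₀ hH.le hT hB'
  have h5 := fub N ω hωc (1 / 2 + (j + 1 : ℕ)) v₀ H T B hv₀ hH.le hT hB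
  calc MA N ω (1 / 2 + j) T v₀ ≤ _ := h2
    _ ≤ 3 / H ^ 2 * (2 * Real.pi * (Real.exp (-(2 * j * P)) * DV (Real.exp P / 2) (Real.exp Q) H)) +
        3 * H * (H * B') + 3 * H * (10 * T) ^ 2 * (H * B) := by
        apply add_le_add (add_le_add _ _)
        · exact mul_le_mul_of_nonneg_left h5 (by positivity)
        · exact mul_le_mul_of_nonneg_left h3 (by positivity)
        · exact mul_le_mul_of_nonneg_left h4 (by positivity)
    _ = _ := by ring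

/-- trivial bound -/
theorem ma_triv (N : ℕ) (ω : ℝ → ℝ) (hω : Continuous ω) (T : ℝ) (hT : 0 ≤ T) (h1 : ∀ u, |ω u| ≤ 1)
    (P : ℝ) (hP : 0 ≤ P) (hz : ∀ u, u < P → ω u = 0) (j : ℕ) (v₀ : ℝ) (hv₀ : 0 ≤ v₀) :
    MA N ω (1 / 2 + j) T v₀ ≤ Real.exp (-(2 * j * P)) * (10 * T * (N : ℝ) ^ 4) := by
  unfold MA
  have hab : -(5 * T) ≤ 5 * T := by linarith
  have h2 : ∀ t : ℝ, ‖AM N ω (((1 / 2 + j : ℝ) : ℂ) + (t : ℂ) * I) v₀‖ ≤
      Real.exp (-(j * P)) * (N : ℝ) ^ 2 := by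
    intro t
    unfold AM
    refine (norm_sum_le _ _).trans ?_
    have h3 : ∀ n ∈ Finset.Icc 1 N, ‖((lm n * ω (Real.log (n + v₀)) : ℝ) : ℂ) *
        cexp (-((((1 / 2 + j : ℝ) : ℂ) + (t : ℂ) * I) * (Real.log (n + v₀) : ℝ)))‖ ≤
        Real.exp (-(j * P)) * N := by
      intro n hn
      rw [Finset.mem_Icc] at hn
      have hn1 : (1 : ℝ) ≤ n := by exact_mod_cast hn.1
      by_cases hu : Real.log (n + v₀) < P
      · rw [hz _ hu]
        simp
        positivity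
      push Not at hu
      rw [norm_mul, Complex.norm_real, norm_mul, Real.norm_eq_abs, Real.norm_eq_abs]
      have h4 : ‖cexp (-((((1 / 2 + j : ℝ) : ℂ) + (t : ℂ) * I) * (Real.log (n + v₀) : ℝ)))‖ ≤
          Real.exp (-(j * P)) := by
        rw [Complex.norm_exp]
        apply Real.exp_le_exp.2
        have e : (-((((1 / 2 + j : ℝ) : ℂ) + (t : ℂ) * I) * (Real.log (n + v₀) : ℝ))).re =
            -((1 / 2 + j) * Real.log (n + v₀)) := by
          simp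
        rw [e]
        have h0 : 0 ≤ Real.log (n + v₀) := hP.trans hu
        have h5 : (j : ℝ) * P ≤ j * Real.log (n + v₀) := mul_le_mul_of_nonneg_left hu (by positivity)
        linarith
      have h5 : |lm n| ≤ N := by
        unfold Pool.Agent.Y857.VP.lm
        rw [if_neg (by omega), abs_div, abs_of_pos (by norm_num : (0 : ℝ) < 8)]
        have h6 : ArithmeticFunction.vonMangoldt n ≤ n := by
          refine ArithmeticFunction.vonMangoldt_le_log.trans ?_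
          have := Real.log_le_sub_one_of_pos (by linarith : (0 : ℝ) < n)
          linarith
        have h7 : 0 ≤ ArithmeticFunction.vonMangoldt n := ArithmeticFunction.vonMangoldt_nonneg
        have h8 : (n : ℝ) ≤ N := by exact_mod_cast hn.2
        have h9 : |ArithmeticFunction.vonMangoldt n - 1| ≤ n := by
          rw [abs_le]
          constructor <;> linarith
        linarith
      calc |lm n| * |ω (Real.log (n + v₀))| * _ ≤ N * 1 * Real.exp (-(j * P)) := by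
            apply mul_le_mul (mul_le_mul h5 (h1 _) (abs_nonneg _) (by positivity)) h4
              (norm_nonneg _) (by positivity)
        _ = _ := by ring
    refine (Finset.sum_le_sum h3).trans (le_of_eq ?_)
    rw [Finset.sum_const, Nat.card_Icc]
    simp only [add_tsub_cancel_right, nsmul_eq_mul]
    ring
  have h3 : ∫ t in (-(5 * T))..(5 * T), ‖AM N ω (((1 / 2 + j : ℝ) : ℂ) + (t : ℂ) * I) v₀‖ ^ 2 ≤
      ∫ t in (-(5 * T))..(5 * T), (Real.exp (-(j * P)) * (N : ℝ) ^ 2) ^ 2 := by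
    apply intervalIntegral.integral_mono_on hab
    · exact ((AMc1 N ω hω (1 / 2 + j) v₀ hv₀).norm.pow 2).intervalIntegrable _ _
    · simp
    · intro t _
      exact pow_le_pow_left₀ (norm_nonneg _) (h2 t) 2
  rw [intervalIntegral.integral_const, smul_eq_mul] at h3
  refine h3.trans (le_of_eq ?_)
  have e : Real.exp (-(2 * j * P)) = Real.exp (-(j * P)) ^ 2 := by
    rw [← Real.exp_nat_mul]
    congr 1
    push_cast
    ring
  rw [e]
  ring

theorem AM_comb (N : ℕ) (ω₁ ω₂ : ℝ → ℝ) (c : ℝ) (s : ℂ) (v : ℝ) :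
    AM N (fun r => (ω₁ r - ω₂ r) / c) s v = (AM N ω₁ s v - AM N ω₂ s v) / (c : ℂ) := by
  unfold AM
  rw [← Finset.sum_sub_distrib, Finset.sum_div]
  apply Finset.sum_congr rfl
  intro n _
  push_cast
  ring

theorem ma_comb (N : ℕ) (ω₁ ω₂ : ℝ → ℝ) (hω₁ : Continuous ω₁) (hω₂ : Continuous ω₂)
    (c T B σ v : ℝ) (hv : 0 ≤ v) (hc : 1 ≤ c) (hT : 0 ≤ T)
    (h1 : MA N ω₁ σ T v ≤ B) (h2 : MA N ω₂ σ T v ≤ B) :
    MA N (fun r => (ω₁ r - ω₂ r) / c) σ T v ≤ 4 * B := by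
  have hab : -(5 * T) ≤ 5 * T := by linarith
  have c1 := (AMc1 N ω₁ hω₁ σ v hv).norm.pow 2
  have c2 := (AMc1 N ω₂ hω₂ σ v hv).norm.pow 2
  have i1 : IntervalIntegrable (fun t : ℝ => 2 * ‖AM N ω₁ ((σ : ℂ) + (t : ℂ) * I) v‖ ^ 2) volume
      (-(5 * T)) (5 * T) := (c1.const_mul _).intervalIntegrable _ _
  have i2 : IntervalIntegrable (fun t : ℝ => 2 * ‖AM N ω₂ ((σ : ℂ) + (t : ℂ) * I) v‖ ^ 2) volume
      (-(5 * T)) (5 * T) := (c2.const_mul _).intervalIntegrable _ _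
  have h3 : MA N (fun r => (ω₁ r - ω₂ r) / c) σ T v ≤ ∫ t in (-(5 * T))..(5 * T),
      (2 * ‖AM N ω₁ ((σ : ℂ) + (t : ℂ) * I) v‖ ^ 2 +
        2 * ‖AM N ω₂ ((σ : ℂ) + (t : ℂ) * I) v‖ ^ 2) := by
    unfold MA
    apply intervalIntegral.integral_mono_on hab
    · refine ((AMc1 N (fun r => (ω₁ r - ω₂ r) / c) (by fun_prop) σ v hv).norm.pow 2).intervalIntegrable _ _
    · exact i1.add i2
    · intro t _
      rw [AM_comb, norm_div, Complex.norm_real, Real.norm_eq_abs, abs_of_pos (by linarith)]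
      have h4 : ‖AM N ω₁ ((σ : ℂ) + (t : ℂ) * I) v - AM N ω₂ ((σ : ℂ) + (t : ℂ) * I) v‖ / c ≤
          ‖AM N ω₁ ((σ : ℂ) + (t : ℂ) * I) v‖ + ‖AM N ω₂ ((σ : ℂ) + (t : ℂ) * I) v‖ := by
        rw [div_le_iff₀ (by linarith)]
        refine (norm_sub_le _ _).trans ?_
        exact le_mul_of_one_le_right (by positivity) hc
      have h5 := pow_le_pow_left₀ (div_nonneg (norm_nonneg _) (by linarith)) h4 2
      refine h5.trans ?_
      nlinarith [sq_nonneg (‖AM N ω₁ ((σ : ℂ) + (t : ℂ) * I) v‖ -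
        ‖AM N ω₂ ((σ : ℂ) + (t : ℂ) * I) v‖)]
  refine h3.trans ?_
  rw [intervalIntegral.integral_add i1 i2,
    intervalIntegral.integral_const_mul, intervalIntegral.integral_const_mul]
  unfold MA at h1 h2
  linarith

/-- the induction -/
theorem ma_ind (N : ℕ) (c H T P Q : ℝ) (hc : 1 ≤ c) (hT : 1 ≤ T) (hH : 0 < H) (hP0 : 0 ≤ P)
    (hPQ : P ≤ Q) (hN : Real.exp Q < N + 1) (ρ : ℝ) (hρ : ρ ≤ 1 / 2)
    (hρ' : 3 * H ^ 2 * Real.exp (-(2 * P)) * (4 + 100 * T ^ 2) ≤ ρ) (m : ℕ) :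
    ∀ (K : ℕ) (p q : ℝ) (j : ℕ) (v₀ : ℝ), m + 1 ≤ K → P ≤ p → p ≤ q → q + K * c ≤ Q →
      1 / 2 + ((j + m : ℕ) : ℝ) ≤ 5 * T → 0 ≤ v₀ → 2 * (v₀ + m * H) ≤ Real.exp P →
      MA N (be K c p q) (1 / 2 + j) T v₀ ≤ Real.exp (-(2 * j * P)) *
        (2 * (6 * Real.pi / H ^ 2 * DV (Real.exp P / 2) (Real.exp Q) H) +
        ρ ^ m * (10 * T * (N : ℝ) ^ 4)) := by
  have hc0 : 0 < c := by linarith
  have hDV : 0 ≤ DV (Real.exp P / 2) (Real.exp Q) H := by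
    apply DV_nonneg
    have := Real.exp_le_exp.2 hPQ
    have := Real.exp_pos P
    linarith
  have hpi := Real.pi_pos
  obtain ⟨a, ha⟩ : ∃ a, a = 6 * Real.pi / H ^ 2 * DV (Real.exp P / 2) (Real.exp Q) H := ⟨_, rfl⟩
  have ha0 : 0 ≤ a := by rw [ha]; positivity
  have hρ0 : 0 ≤ ρ := le_trans (by positivity) hρ'
  rw [← ha]
  induction m with
  | zero =>
    intro K p q j v₀ hK hP hpq hQ _ hv₀ _
    rw [pow_zero, one_mul]
    obtain ⟨K', rfl⟩ : ∃ K', K = K' + 1 := ⟨K - 1, by omega⟩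
    have := ma_triv N (be (K' + 1) c p q) (be_cont K' p q hc0) T (by linarith)
      (fun u => Pool.Agent.Y857.VP.VA.be_abs hc0) P hP0
      (fun u hu => Pool.Agent.Y857.VP.VA.be_zero_left hc0 hpq (by linarith)) j v₀ hv₀
    refine this.trans ?_
    apply mul_le_mul_of_nonneg_left _ (Real.exp_pos _).le
    linarith
  | succ m ih =>
    intro K p q j v₀ hK hP hpq hQ hj hv₀ hv
    obtain ⟨K', rfl⟩ : ∃ K', K = K' + 2 := ⟨K - 2, by omega⟩
    obtain ⟨X, hX⟩ : ∃ X, X = 2 * a + ρ ^ m * (10 * T * (N : ℝ) ^ 4) := ⟨_, rfl⟩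
    have hX0 : 0 ≤ X := by rw [hX]; positivity
    rw [← hX] at ih
    push_cast at hQ hj hv
    have hmH : 0 ≤ (m : ℝ) * H := by positivity
    have hstep := ma_step N (be (K' + 2) c p q) (be' K' c p q)
      (fun r => Pool.Agent.Y857.VP.VA.be_deriv K' p q r hc0)
      (Pool.Agent.Y857.VP.VA.be'_cont K' p q hc0) H T P Q hH (by linarith)
      (fun u => Pool.Agent.Y857.VP.VA.be_abs hc0) hPQ (by
        intro u hu
        rcases hu with hu | hu
        · exact Pool.Agent.Y857.VP.VA.be_zero_left hc0 hpq (by linarith)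
        · apply Pool.Agent.Y857.VP.VA.be_zero_right hc0 hpq
          push_cast
          linarith) hN j (by
            have : (0 : ℝ) ≤ m := Nat.cast_nonneg m
            linarith) v₀ hv₀ (by nlinarith)
        (Real.exp (-(2 * (j + 1 : ℕ) * P)) * X) (4 * (Real.exp (-(2 * (j + 1 : ℕ) * P)) * X)) (by
        intro v hv0 hvl
        apply ih (K' + 2) p q (j + 1) (v₀ + v) (by omega) hP hpq (by push_cast; linarith)
          (by push_cast; linarith) (by linarith)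
        linarith) (by
        intro v hv0 hvl
        have e : be' K' c p q = fun r =>
            (be (K' + 1) c p q r - be (K' + 1) c (p + c) (q + c) r) / c := by
          funext r
          unfold Pool.Agent.Y857.VP.VA.be' Pool.Agent.Y857.VP.VA.be
          have e3 : r - q - c = r - (q + c) := by ring
          have e4 : r - p - c = r - (p + c) := by ring
          rw [e3, e4]
          ring
        rw [e]
        apply ma_comb N _ _ (be_cont K' _ _ hc0) (be_cont K' _ _ hc0) c T _ _ _ (by linarith) hc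
          (by linarith)
        · apply ih (K' + 1) p q (j + 1) (v₀ + v) (by omega) hP hpq
            (by push_cast; linarith) (by push_cast; linarith) (by linarith)
          linarith
        · apply ih (K' + 1) (p + c) (q + c) (j + 1) (v₀ + v) (by omega) (by linarith) (by linarith)
            (by push_cast; linarith) (by push_cast; linarith) (by linarith)
          linarith)
    refine hstep.trans ?_
    have e1 : Real.exp (-(2 * (j + 1 : ℕ) * P)) = Real.exp (-(2 * j * P)) * Real.exp (-(2 * P)) := by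
      rw [← Real.exp_add]
      congr 1
      push_cast
      ring
    rw [e1]
    have e2 : 6 * Real.pi / H ^ 2 * (Real.exp (-(2 * j * P)) * DV (Real.exp P / 2) (Real.exp Q) H) +
        3 * H ^ 2 * (4 * (Real.exp (-(2 * j * P)) * Real.exp (-(2 * P)) * X) +
          100 * T ^ 2 * (Real.exp (-(2 * j * P)) * Real.exp (-(2 * P)) * X)) =
        Real.exp (-(2 * j * P)) * (a + (3 * H ^ 2 * Real.exp (-(2 * P)) * (4 + 100 * T ^ 2)) * X) := by
      rw [ha]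
      ring
    rw [e2]
    apply mul_le_mul_of_nonneg_left _ (Real.exp_pos _).le
    have h1 : (3 * H ^ 2 * Real.exp (-(2 * P)) * (4 + 100 * T ^ 2)) * X ≤ ρ * X :=
      mul_le_mul_of_nonneg_right hρ' hX0
    have h2 : ρ * X = 2 * ρ * a + ρ ^ (m + 1) * (10 * T * (N : ℝ) ^ 4) := by
      rw [hX]
      ring
    have h3 : 2 * ρ * a ≤ 1 * a := mul_le_mul_of_nonneg_right (by linarith) ha0
    linarith

end Pool.Agent.D0H44.GM
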