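import Pool.Agent.D0H44.GM.Wm
import Pool.Agent.D0H44.GM.Ia

/-! The dispersion of primes in intervals of a fixed length `H`, over a window. -/

set_option autoImplicit false

namespace Pool.Agent.D0H44.GM

open Complex MeasureTheory Filter Topology
open Pool.Agent.H448R2.GC (cu cs)
open Pool.Agent.Y857.VP

theorem AM_zero (N : ℕ) (ω : ℝ → ℝ) (s : ℂ) : AM N ω s 0 = AN N ω s := by
  unfold AM AN
  apply Finset.sum_congr rfl
  intro n hn
  have hn0 : (n : ℂ) ≠ 0 := by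
    have : 1 ≤ n := (Finset.mem_Icc.1 hn).1
    exact_mod_cast (by omega : n ≠ 0)
  rw [add_zero, Complex.cpow_def_of_ne_zero hn0, ← Complex.natCast_log]
  congr 2
  ring

/-- the size of the error term in `ma_ind` -/
theorem small_err2 (B η : ℝ) (hB : 0 ≤ B) (m : ℕ) (hm : 4 * B + 10 ≤ η * m) : ∃ T₀ : ℝ, ∀ T : ℝ,
    T₀ ≤ T →
    ∀ N : ℕ, (N : ℝ) ≤ Real.exp 1 * T ^ B → (T ^ (-η)) ^ m * (10 * T * (N : ℝ) ^ 4) ≤ 1 := by
  refine ⟨10 * Real.exp 4, fun T hT N hN => ?_⟩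
  have he : 1 ≤ Real.exp 4 := Real.one_le_exp (by norm_num)
  have hT10 : 10 ≤ T := by linarith
  have hT0 : 0 < T := by linarith
  have h3 : (N : ℝ) ^ 4 ≤ Real.exp 4 * T ^ (4 * B) := by
    calc (N : ℝ) ^ 4 ≤ (Real.exp 1 * T ^ B) ^ 4 := pow_le_pow_left₀ (by positivity) hN 4
      _ = Real.exp 4 * T ^ (4 * B) := by
        rw [mul_pow, ← Real.exp_nat_mul, ← Real.rpow_natCast (T ^ B) 4, ← Real.rpow_mul hT0.le]
        norm_num
        ring_nf
  have h4 : (T ^ (-η)) ^ m ≤ T ^ (-(4 * B + 10)) := by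
    rw [← Real.rpow_natCast, ← Real.rpow_mul hT0.le]
    exact Real.rpow_le_rpow_of_exponent_le (by linarith) (by linarith)
  calc (T ^ (-η)) ^ m * (10 * T * (N : ℝ) ^ 4)
      ≤ T ^ (-(4 * B + 10)) * (10 * T * (Real.exp 4 * T ^ (4 * B))) := by
        apply mul_le_mul h4 _ (by positivity) (by positivity)
        exact mul_le_mul_of_nonneg_left h3 (by positivity)
    _ = (10 * Real.exp 4) * (T * (T ^ (-(4 * B + 10)) * T ^ (4 * B))) := by ring
    _ = (10 * Real.exp 4) * (T * T ^ (-(10 : ℝ))) := by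
        rw [← Real.rpow_add hT0]
        congr 3
        ring
    _ = (10 * Real.exp 4) * T ^ (-(9 : ℝ)) := by
        nth_rewrite 1 [← Real.rpow_one T]
        rw [← Real.rpow_add hT0]
        norm_num
    _ ≤ (10 * Real.exp 4) * T ^ (-(1 : ℝ)) := by
        apply mul_le_mul_of_nonneg_left _ (by positivity)
        exact Real.rpow_le_rpow_of_exponent_le (by linarith) (by norm_num)
    _ ≤ T * T ^ (-(1 : ℝ)) := mul_le_mul_of_nonneg_right hT (by positivity)
    _ = 1 := by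
        rw [Real.rpow_neg_one]
        field_simp

theorem disp (a η : ℝ) (ha : 1 + 2 * η ≤ a) (hη0 : 0 < η) (hη1 : η ≤ 1) :
    ∃ c T₀ : ℝ, 0 < c ∧ ∀ T : ℝ, T₀ ≤ T → ∀ H : ℝ, 0 < H → H ≤ T ^ (a - 1 - η) →
      c * H ^ 2 * T * Real.log T ^ 2 ≤ DV (T ^ a / 2) (T ^ (a + 1 + 7 * η)) H := by
  obtain ⟨b, hb⟩ : ∃ b, b = a + 1 + 5 * η := ⟨_, rfl⟩
  obtain ⟨k0, hk0⟩ := core a η ha hη0 hη1
  obtain ⟨k1, hk1⟩ := Pool.Agent.H448R2.GC.cs_zeta η b 1 hη0 (by linarith)
  obtain ⟨k2, hk2⟩ := exists_nat_ge ((4 * (b + 2 * η) + 10) / η)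
  obtain ⟨k, hkk0, hkk1, hkk2⟩ : ∃ k : ℕ, k0 ≤ k ∧ k1 ≤ k ∧ k2 + 2 ≤ k :=
    ⟨max k0 (max k1 (k2 + 2)), le_max_left _ _, (le_max_left _ _).trans (le_max_right _ _),
      (le_max_right _ _).trans (le_max_right _ _)⟩
  obtain ⟨c, T₁, hc, hcore⟩ := hk0 k hkk0
  obtain ⟨T₂, hT₂⟩ := hk1 k hkk1
  have hm : 4 * (b + 2 * η) + 10 ≤ η * ((k - 1 : ℕ) : ℝ) := by
    rw [div_le_iff₀ hη0] at hk2
    have : (k2 : ℝ) ≤ ((k - 1 : ℕ) : ℝ) := by exact_mod_cast (by omega : k2 ≤ k - 1)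
    nlinarith
  obtain ⟨T₃, hT₃⟩ := small_err2 (b + 2 * η) η (by linarith) (k - 1) hm
  obtain ⟨T₄, hT₄⟩ := ev_log (max (max 1 (k / η)) (max (200 / c) (Real.log 312 / η)))
  have hpi := Real.pi_pos
  refine ⟨c / (3072 * Real.pi), max (max T₁ T₂) (max T₃ (max T₄ (40 + 2 * k))), by positivity,
    fun T hT H hH0 hH => ?_⟩
  simp only [max_le_iff] at hT
  obtain ⟨⟨hTT1, hTT2⟩, hTT3, hTT4, hT40⟩ := hT
  have hLL := hT₄ T hTT4
  simp only [max_le_iff] at hLL
  obtain ⟨⟨hL1, hLk⟩, hLc, hL312⟩ := hLL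
  have hk0 : (0 : ℝ) < k := by exact_mod_cast (by omega : 0 < k)
  have hT0 : 0 < T := by linarith
  have hT1 : 1 ≤ T := by linarith
  have hcore := hcore T hTT1
  have hcsz := hT₂ T hTT2
  have herr := hT₃ T hTT3
  obtain ⟨L, hL⟩ : ∃ L : ℝ, L = Real.log T := ⟨_, rfl⟩
  rw [← hL] at hL1 hLk hLc hL312 hcore hcsz ⊢
  have hL0 : 0 < L := by linarith
  rw [div_le_iff₀ hη0] at hLk hL312
  rw [div_le_iff₀ hc] at hLc
  have hTη : 312 ≤ T ^ η := by
    rw [Real.rpow_def_of_pos hT0, ← hL, ← Real.log_le_iff_le_exp (by norm_num)]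
    exact hL312
  obtain ⟨cc, hcc⟩ : ∃ cc : ℝ, cc = η * L / k := ⟨_, rfl⟩
  have hcc1 : 1 ≤ cc := by
    rw [hcc, le_div_iff₀ hk0]
    linarith
  have hkcc : (k : ℝ) * cc = η * L := by
    rw [hcc]
    field_simp
  have hpq : a * L ≤ b * L := by
    apply mul_le_mul_of_nonneg_right _ hL0.le
    linarith
  obtain ⟨Q, hQ⟩ : ∃ Q : ℝ, Q = (a + 1 + 7 * η) * L := ⟨_, rfl⟩
  have hQ1 : b * L + k * cc ≤ Q := by
    rw [hkcc, hQ, hb]
    nlinarith
  obtain ⟨N, hN⟩ : ∃ N : ℕ, N = ⌊Real.exp (Q + 1)⌋₊ := ⟨_, rfl⟩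
  have hNl : Real.exp Q < N + 1 := by
    refine lt_of_le_of_lt (Real.exp_le_exp.2 (by linarith : Q ≤ Q + 1)) ?_
    rw [hN]
    exact Nat.lt_floor_add_one _
  have hNf : ⌊Real.exp (b * L + k * cc)⌋₊ ≤ N := by
    rw [hN]
    exact Nat.floor_le_floor (Real.exp_le_exp.2 (by linarith))
  have hPQ : a * L ≤ Q := by linarith [mul_pos hk0 (by linarith : (0 : ℝ) < cc)]
  have hP0 : 0 ≤ a * L := by
    apply mul_nonneg _ hL0.le
    linarith
  have eP : Real.exp (a * L) = T ^ a := by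
    rw [Real.rpow_def_of_pos hT0, hL, mul_comm]
  have eQ : Real.exp Q = T ^ (a + 1 + 7 * η) := by
    rw [hQ, Real.rpow_def_of_pos hT0, hL, mul_comm]
  -- the contraction factor
  have hρ2 : T ^ (-η) ≤ 1 / 312 := by
    rw [Real.rpow_neg hT0.le, ← one_div]
    exact one_div_le_one_div_of_le (by norm_num) hTη
  have hρ : T ^ (-η) ≤ 1 / 2 := hρ2.trans (by norm_num)
  have hρ' : 3 * H ^ 2 * Real.exp (-(2 * (a * L))) * (4 + 100 * T ^ 2) ≤ T ^ (-η) := by
    have h1 : H ^ 2 ≤ (T ^ (a - 1 - η)) ^ 2 := pow_le_pow_left₀ hH0.le hH 2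
    have h2 : 4 + 100 * T ^ 2 ≤ 104 * T ^ 2 := by nlinarith
    have e1 : Real.exp (-(2 * (a * L))) = T ^ (-(2 * a)) := by
      rw [Real.rpow_def_of_pos hT0, ← hL]
      congr 1
      ring
    rw [e1]
    calc 3 * H ^ 2 * T ^ (-(2 * a)) * (4 + 100 * T ^ 2) ≤
        3 * (T ^ (a - 1 - η)) ^ 2 * T ^ (-(2 * a)) * (104 * T ^ 2) := by
          apply mul_le_mul _ h2 (by positivity) (by positivity)
          apply mul_le_mul_of_nonneg_right _ (by positivity)
          exact mul_le_mul_of_nonneg_left h1 (by norm_num)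
      _ = 312 * ((T ^ (a - 1 - η)) ^ 2 * T ^ (-(2 * a)) * T ^ 2) := by ring
      _ = 312 * (T ^ (-η) * T ^ (-η)) := by
          congr 1
          rw [← Real.rpow_natCast (T ^ (a - 1 - η)) 2, ← Real.rpow_mul hT0.le,
            ← Real.rpow_natCast T 2, ← Real.rpow_add hT0, ← Real.rpow_add hT0, ← Real.rpow_add hT0]
          congr 1
          push_cast
          ring
      _ ≤ 312 * (1 / 312 * T ^ (-η)) := by
          apply mul_le_mul_of_nonneg_left _ (by norm_num)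
          exact mul_le_mul_of_nonneg_right hρ2 (by positivity)
      _ = T ^ (-η) := by ring
  have hmk : ((k - 1 : ℕ) : ℝ) ≤ k := by exact_mod_cast (by omega : k - 1 ≤ k)
  have hmH : 2 * (0 + ((k - 1 : ℕ) : ℝ) * H) ≤ Real.exp (a * L) := by
    rw [eP]
    calc 2 * (0 + ((k - 1 : ℕ) : ℝ) * H) ≤ 2 * (0 + k * T ^ (a - 1 - η)) := by
          apply mul_le_mul_of_nonneg_left _ (by norm_num)
          have := mul_le_mul hmk hH hH0.le hk0.le
          linarith
      _ = (2 * k) * T ^ (a - 1 - η) := by ring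
      _ ≤ T * T ^ (a - 1 - η) := mul_le_mul_of_nonneg_right (by linarith) (by positivity)
      _ = T ^ (a - η) := by
          nth_rewrite 1 [← Real.rpow_one T]
          rw [← Real.rpow_add hT0]
          congr 1
          ring
      _ ≤ T ^ a := Real.rpow_le_rpow_of_exponent_le hT1 (by linarith)
  have hind := ma_ind N cc H T (a * L) Q hcc1 hT1 hH0 hP0 hPQ hNl (T ^ (-η)) hρ hρ' (k - 1) k
    (a * L) (b * L) 0 0 (by omega) le_rfl hpq hQ1 (by
      rw [zero_add]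
      linarith) le_rfl hmH
  have hNT : (N : ℝ) ≤ Real.exp 1 * T ^ (b + 2 * η) := by
    rw [hN]
    refine (Nat.floor_le (Real.exp_pos _).le).trans (le_of_eq ?_)
    rw [Real.rpow_def_of_pos hT0, ← Real.exp_add, ← hL, hQ, hb]
    congr 1
    ring
  rw [eP, eQ] at hind
  obtain ⟨D, hD⟩ : ∃ D, D = DV (T ^ a / 2) (T ^ (a + 1 + 7 * η)) H := ⟨_, rfl⟩
  rw [← hD] at hind ⊢
  have e0 : Real.exp (-(2 * ((0 : ℕ) : ℝ) * (a * L))) = 1 := by simp
  rw [e0, one_mul] at hind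
  have hMA : MA N (VA.be k cc (a * L) (b * L)) (1 / 2 + ((0 : ℕ) : ℝ)) T 0 ≤
      12 * Real.pi / H ^ 2 * D + 1 := by
    refine hind.trans ?_
    have := herr N hNT
    have e1 : 2 * (6 * Real.pi / H ^ 2 * D) = 12 * Real.pi / H ^ 2 * D := by ring
    linarith
  -- comparison with the window polynomial
  have hpt : ∀ t ∈ Set.Icc (T / 4) (4 * T), Bf T a (a + 1 + 5 * η) η k t ^ 2 ≤
      128 * ‖AN N (VA.be k cc (a * L) (b * L)) ((1 / 2 : ℝ) + (t : ℂ) * I)‖ ^ 2 + 8 / T ^ 2 := by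
    intro t ht
    have h1 := hcsz (b * L) (by nlinarith) le_rfl (((1 / 2 : ℝ) : ℂ) + (t : ℂ) * I) (by simp; norm_num)
      (by simp; norm_num) (by simp; linarith [ht.1]) (by simp; linarith [ht.2])
    have h2 := hcsz (a * L) (by nlinarith) (by nlinarith) (((1 / 2 : ℝ) : ℂ) + (t : ℂ) * I)
      (by simp; norm_num) (by simp; norm_num) (by simp; linarith [ht.1]) (by simp; linarith [ht.2])
    rw [← hcc] at h1 h2
    have h3 := pt_PP T cc k (a * L) (b * L) hT0 (by linarith) hpq N hNf t h1 h2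
    unfold Bf
    rw [← hL, ← hcc, ← hb]
    exact h3
  have hle : T / 4 ≤ 4 * T := by linarith
  have hAc := (AN_cont1 N (VA.be k cc (a * L) (b * L))).norm.pow 2
  have hint : ∫ t in (T / 4)..(4 * T), Bf T a (a + 1 + 5 * η) η k t ^ 2 ≤
      128 * MA N (VA.be k cc (a * L) (b * L)) (1 / 2 + ((0 : ℕ) : ℝ)) T 0 + 1 := by
    have i1 : IntervalIntegrable (fun t : ℝ =>
        128 * ‖AN N (VA.be k cc (a * L) (b * L)) ((1 / 2 : ℝ) + (t : ℂ) * I)‖ ^ 2) volume (T / 4) (4 * T) :=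
      (hAc.const_mul _).intervalIntegrable _ _
    have i0 : ∀ u v : ℝ, IntervalIntegrable (fun t : ℝ =>
        ‖AN N (VA.be k cc (a * L) (b * L)) ((1 / 2 : ℝ) + (t : ℂ) * I)‖ ^ 2) volume u v :=
      fun u v => hAc.intervalIntegrable _ _
    calc _ ≤ ∫ t in (T / 4)..(4 * T),
          (128 * ‖AN N (VA.be k cc (a * L) (b * L)) ((1 / 2 : ℝ) + (t : ℂ) * I)‖ ^ 2 + 8 / T ^ 2) := by
          apply intervalIntegral.integral_mono_on hle
            (((Bf_cont T a _ η k).pow 2).intervalIntegrable _ _) (i1.add (by simp)) hpt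
      _ = 128 * (∫ t in (T / 4)..(4 * T),
          ‖AN N (VA.be k cc (a * L) (b * L)) ((1 / 2 : ℝ) + (t : ℂ) * I)‖ ^ 2) +
          (4 * T - T / 4) * (8 / T ^ 2) := by
          rw [intervalIntegral.integral_add i1 (by simp),
            intervalIntegral.integral_const_mul, intervalIntegral.integral_const, smul_eq_mul]
      _ ≤ _ := by
          have h1 : ∫ t in (T / 4)..(4 * T),
              ‖AN N (VA.be k cc (a * L) (b * L)) ((1 / 2 : ℝ) + (t : ℂ) * I)‖ ^ 2 ≤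
              MA N (VA.be k cc (a * L) (b * L)) (1 / 2 + ((0 : ℕ) : ℝ)) T 0 := by
            unfold MA
            simp only [AM_zero, Nat.cast_zero, add_zero]
            apply intervalIntegral.integral_mono_interval (by linarith) hle (by linarith)
              (Filter.Eventually.of_forall fun t => by positivity) (i0 _ _)
          have h2 : (4 * T - T / 4) * (8 / T ^ 2) ≤ 1 := by
            have : (4 * T - T / 4) * (8 / T ^ 2) = 30 / T := by
              field_simp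
              ring
            rw [this, div_le_one hT0]
            linarith
          linarith
  have hfin : c * T * L ^ 2 ≤ 128 * (12 * Real.pi / H ^ 2 * D + 1) + 1 :=
    hcore.trans (hint.trans (by linarith))
  have h129 : 129 ≤ c * T * L ^ 2 / 2 := by
    have h8 : 40 ≤ T * L := by nlinarith
    have h9 : 200 * 40 ≤ (L * c) * (T * L) := mul_le_mul hLc h8 (by norm_num) (by positivity)
    have e : (L * c) * (T * L) = c * T * L ^ 2 := by ring
    rw [e] at h9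
    linarith
  have h5 : c * T * L ^ 2 ≤ 3072 * Real.pi / H ^ 2 * D := by
    have e : 3072 * Real.pi / H ^ 2 * D = 2 * (128 * (12 * Real.pi / H ^ 2 * D)) := by ring
    rw [e]
    linarith
  have hH2 : 0 < H ^ 2 := by positivity
  have h6 : c * T * L ^ 2 * H ^ 2 ≤ 3072 * Real.pi * D := by
    calc c * T * L ^ 2 * H ^ 2 ≤ 3072 * Real.pi / H ^ 2 * D * H ^ 2 :=
          mul_le_mul_of_nonneg_right h5 hH2.le
      _ = 3072 * Real.pi * D := by
          field_simp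
  have h7 : c / (3072 * Real.pi) * H ^ 2 * T * L ^ 2 = (c * T * L ^ 2 * H ^ 2) / (3072 * Real.pi) := by
    field_simp
  rw [h7, div_le_iff₀ (by positivity)]
  linarith

/-- the dispersion bound with uniformity over a grid of exponents -/
theorem disp_grid (η : ℝ) (hη0 : 0 < η) (hη1 : η ≤ 1) (I : ℕ) :
    ∃ c T₀ : ℝ, 0 < c ∧ ∀ i : ℕ, i ≤ I → 1 + 2 * η ≤ i * η → ∀ T : ℝ, T₀ ≤ T → ∀ H : ℝ, 0 < H →
      H ≤ T ^ ((i : ℝ) * η - 1 - η) →
      c * H ^ 2 * T * Real.log T ^ 2 ≤ DV (T ^ ((i : ℝ) * η) / 2) (T ^ ((i : ℝ) * η + 1 + 7 * η)) H := by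
  induction I with
  | zero =>
    refine ⟨1, 1, one_pos, fun i hi hi2 => ?_⟩
    have : i = 0 := by omega
    subst this
    simp at hi2
    linarith
  | succ n ih =>
    obtain ⟨c₁, T₁, hc₁, h₁⟩ := ih
    by_cases hn : 1 + 2 * η ≤ ((n + 1 : ℕ) : ℝ) * η
    · obtain ⟨c₂, T₂, hc₂, h₂⟩ := disp (((n + 1 : ℕ) : ℝ) * η) η hn hη0 hη1
      refine ⟨min c₁ c₂, max (max T₁ T₂) 1, lt_min hc₁ hc₂, fun i hi hi2 T hT H hH0 hH => ?_⟩
      simp only [max_le_iff] at hT
      obtain ⟨⟨hT1, hT2⟩, hT3⟩ := hT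
      have hT0 : 0 < T := by linarith
      rcases Nat.lt_or_ge i (n + 1) with h | h
      · refine le_trans ?_ (h₁ i (by omega) hi2 T hT1 H hH0 hH)
        have : min c₁ c₂ ≤ c₁ := min_le_left _ _
        have h0 : 0 ≤ H ^ 2 * T * Real.log T ^ 2 := by positivity
        calc min c₁ c₂ * H ^ 2 * T * Real.log T ^ 2 = min c₁ c₂ * (H ^ 2 * T * Real.log T ^ 2) := by ring
          _ ≤ c₁ * (H ^ 2 * T * Real.log T ^ 2) := mul_le_mul_of_nonneg_right this h0
          _ = _ := by ring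
      · have : i = n + 1 := by omega
        subst this
        refine le_trans ?_ (h₂ T hT2 H hH0 hH)
        have : min c₁ c₂ ≤ c₂ := min_le_right _ _
        have h0 : 0 ≤ H ^ 2 * T * Real.log T ^ 2 := by positivity
        calc min c₁ c₂ * H ^ 2 * T * Real.log T ^ 2 = min c₁ c₂ * (H ^ 2 * T * Real.log T ^ 2) := by ring
          _ ≤ c₂ * (H ^ 2 * T * Real.log T ^ 2) := mul_le_mul_of_nonneg_right this h0
          _ = _ := by ring
    · refine ⟨c₁, T₁, hc₁, fun i hi hi2 => ?_⟩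
      rcases Nat.lt_or_ge i (n + 1) with h | h
      · exact h₁ i (by omega) hi2
      · have : i = n + 1 := by omega
        subst this
        exact absurd hi2 hn

end Pool.Agent.D0H44.GM
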