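import Pool.Agent.D0H44.GM.Tr

/-! Plancherel for the local sums. -/

set_option autoImplicit false

namespace Pool.Agent.D0H44.GM

open Complex MeasureTheory Filter Topology
open scoped FourierTransform
open Pool.Agent.H448R2.GC (cu)
open Pool.Agent.H448R2.GC.PL (KK KK_lower planch_h gb gb_bound gb_meas gb_memLp gb_integrable hf
  hf_norm hf_memLp hf_integrable)
open Pool.Agent.Y857.VP (lm AA)

/-- the weighted local sum -/
noncomputable def gf (N : ℕ) (ω : ℝ → ℝ) (l : ℝ) : ℝ → ℂ :=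
  fun u => ((ω u : ℝ) : ℂ) * hf N lm (1 / 2) l u

theorem gf_memLp (N : ℕ) (ω : ℝ → ℝ) (l : ℝ) (hω : Continuous ω) (h1 : ∀ u, |ω u| ≤ 1) (p : ENNReal) :
    MemLp (gf N ω l) p volume := by
  have h2 := hf_memLp N lm (1 / 2) l p
  refine MemLp.mono h2 ?_ ?_
  · exact (Complex.continuous_ofReal.comp hω).aestronglyMeasurable.mul h2.1
  · refine Eventually.of_forall fun u => ?_
    unfold gf
    rw [norm_mul, Complex.norm_real, Real.norm_eq_abs]
    exact mul_le_of_le_one_left (norm_nonneg _) (h1 u)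

theorem gf_fourier_one (ω : ℝ → ℝ) (l r ξ : ℝ) (hl : 0 ≤ l) :
    (∫ v : ℝ, cexp (((-2 * Real.pi * inner ℝ v ξ : ℝ) : ℂ) * I) •
      (((ω v : ℝ) : ℂ) * gb (1 / 2) l r v)) =
      cexp (-((((1 / 2 : ℝ) : ℂ) + ((2 * Real.pi * ξ : ℝ) : ℂ) * I) * r)) *
        ∫ v in (0 : ℝ)..l, ((ω (r - v) : ℝ) : ℂ) *
          cexp ((((1 / 2 : ℝ) : ℂ) + ((2 * Real.pi * ξ : ℝ) : ℂ) * I) * v) := by
  set s : ℂ := ((1 / 2 : ℝ) : ℂ) + ((2 * Real.pi * ξ : ℝ) : ℂ) * I with hs
  have e1 : (∫ v : ℝ, cexp (((-2 * Real.pi * inner ℝ v ξ : ℝ) : ℂ) * I) •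
      (((ω v : ℝ) : ℂ) * gb (1 / 2) l r v)) =
      ∫ v : ℝ, Set.indicator (Set.Ico (r - l) r) (fun v : ℝ => ((ω v : ℝ) : ℂ) * cexp (-(s * v))) v := by
    apply integral_congr_ae
    refine Eventually.of_forall fun v => ?_
    simp only
    unfold gb
    by_cases h : v ∈ Set.Ico (r - l) r
    · rw [Set.indicator_of_mem h, Set.indicator_of_mem h, smul_eq_mul, Complex.ofReal_exp,
        mul_left_comm, ← Complex.exp_add]
      congr 2
      rw [hs]
      simp only [RCLike.inner_apply, conj_trivial]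
      push_cast
      ring
    · rw [Set.indicator_of_notMem h, Set.indicator_of_notMem h, mul_zero, smul_zero]
  rw [e1, integral_indicator measurableSet_Ico]
  rw [integral_Ico_eq_integral_Ioc, ← intervalIntegral.integral_of_le (by linarith)]
  have e2 : ∫ v in (0 : ℝ)..l, ((ω (r - v) : ℝ) : ℂ) * cexp (s * v) =
      ∫ v in (r - l)..r, ((ω v : ℝ) : ℂ) * cexp (s * ((r - v : ℝ) : ℂ)) := by
    have h := intervalIntegral.integral_comp_sub_left (a := 0) (b := l)
      (fun x : ℝ => ((ω x : ℝ) : ℂ) * cexp (s * ((r - x : ℝ) : ℂ))) r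
    simp only [sub_zero, sub_sub_cancel] at h
    exact h
  rw [e2, ← intervalIntegral.integral_const_mul]
  apply intervalIntegral.integral_congr
  intro v _
  simp only
  rw [mul_left_comm, ← Complex.exp_add]
  congr 2
  push_cast
  ring

theorem gf_fourier (N : ℕ) (ω : ℝ → ℝ) (l : ℝ) (hω : Continuous ω) (h1 : ∀ u, |ω u| ≤ 1) (ξ : ℝ)
    (hl : 0 ≤ l) :
    𝓕 (gf N ω l) ξ = GN N ω l (((1 / 2 : ℝ) : ℂ) + ((2 * Real.pi * ξ : ℝ) : ℂ) * I) := by
  rw [Real.fourier_eq']
  unfold GN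
  have e1 : ∀ v : ℝ, cexp (((-2 * Real.pi * inner ℝ v ξ : ℝ) : ℂ) * I) • gf N ω l v =
      ∑ n ∈ Finset.Icc 1 N, (lm n : ℂ) *
        (cexp (((-2 * Real.pi * inner ℝ v ξ : ℝ) : ℂ) * I) •
          (((ω v : ℝ) : ℂ) * gb (1 / 2) l (Real.log n) v)) := by
    intro v
    unfold gf hf
    rw [Finset.mul_sum, Finset.smul_sum]
    apply Finset.sum_congr rfl
    intro n _
    simp only [smul_eq_mul]
    ring
  simp_rw [e1]
  rw [integral_finsetSum]
  · apply Finset.sum_congr rfl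
    intro n hn
    rw [integral_const_mul, gf_fourier_one ω l (Real.log n) ξ hl, ← mul_assoc]
    congr 1
    congr 1
    have hn0 : (n : ℂ) ≠ 0 := by
      have : 1 ≤ n := (Finset.mem_Icc.1 hn).1
      exact_mod_cast (by omega : n ≠ 0)
    rw [Complex.cpow_def_of_ne_zero hn0, ← Complex.natCast_log]
    congr 1
    ring
  · intro n _
    apply Integrable.const_mul
    have h2 : Integrable (fun v : ℝ => ((ω v : ℝ) : ℂ) * gb (1 / 2) l (Real.log n) v) := by
      refine Integrable.mono (gb_integrable (1 / 2) l (Real.log n)) ?_ ?_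
      · exact (Complex.continuous_ofReal.comp hω).aestronglyMeasurable.mul
          (gb_integrable (1 / 2) l (Real.log n)).1
      · refine Eventually.of_forall fun u => ?_
        rw [norm_mul, Complex.norm_real, Real.norm_eq_abs]
        exact mul_le_of_le_one_left (norm_nonneg _) (h1 u)
    have h3 := (Real.fourierIntegral_convergent_iff (V := ℝ)
      (f := fun v : ℝ => ((ω v : ℝ) : ℂ) * gb (1 / 2) l (Real.log n) v) ξ).2 h2
    refine h3.congr (Eventually.of_forall fun v => ?_)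
    simp only [Circle.smul_def, Real.fourierChar_apply, smul_eq_mul]
    congr 2
    push_cast
    ring

theorem sum_AA (N : ℕ) (u l : ℝ) (hl : 0 ≤ l) (hN : Real.exp (u + l) < N + 1) :
    (∑ n ∈ (Finset.Icc 1 N).filter (fun n : ℕ => Real.exp u < n ∧ (n : ℝ) ≤ Real.exp u * Real.exp l),
        lm n) = AA (Real.exp (u + l)) - AA (Real.exp u) := by
  have hle : Real.exp u ≤ Real.exp (u + l) := Real.exp_le_exp.2 (by linarith)
  have h1 : AA (Real.exp (u + l)) - AA (Real.exp u) =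
      ∑ n ∈ Finset.Ioc ⌊Real.exp u⌋₊ ⌊Real.exp (u + l)⌋₊, lm n := by
    unfold Pool.Agent.Y857.VP.AA
    have h2 : Finset.Icc 1 ⌊Real.exp (u + l)⌋₊ =
        Finset.Icc 1 ⌊Real.exp u⌋₊ ∪ Finset.Ioc ⌊Real.exp u⌋₊ ⌊Real.exp (u + l)⌋₊ := by
      have := Nat.floor_le_floor hle
      ext n
      simp only [Finset.mem_Icc, Finset.mem_union, Finset.mem_Ioc]
      omega
    rw [h2, Finset.sum_union, add_sub_cancel_left]
    rw [Finset.disjoint_left]
    intro n hn hn'
    simp only [Finset.mem_Icc, Finset.mem_Ioc] at hn hn'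
    omega
  rw [h1]
  apply Finset.sum_congr _ (fun _ _ => rfl)
  ext n
  simp only [Finset.mem_filter, Finset.mem_Icc, Finset.mem_Ioc]
  rw [Nat.floor_lt (Real.exp_pos _).le, Nat.le_floor_iff (Real.exp_pos _).le, ← Real.exp_add]
  constructor
  · rintro ⟨_, h3, h4⟩
    exact ⟨h3, h4⟩
  · rintro ⟨h3, h4⟩
    refine ⟨⟨?_, ?_⟩, h3, h4⟩
    · by_contra h
      have : n = 0 := by omega
      subst this
      have := Real.exp_pos u
      simp at h3
      linarith
    · have h5 : (n : ℝ) < N + 1 := lt_of_le_of_lt h4 hN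
      have : n < N + 1 := by exact_mod_cast h5
      omega

/-- the local mean square -/
noncomputable def LM (P Q l : ℝ) : ℝ :=
  ∫ u in P..Q, (AA (Real.exp (u + l)) - AA (Real.exp u)) ^ 2 * Real.exp (-u)

theorem LM_ii (l : ℝ) (P Q : ℝ) : IntervalIntegrable (fun u =>
    (AA (Real.exp (u + l)) - AA (Real.exp u)) ^ 2 * Real.exp (-u)) volume P Q := by
  have hm : Measurable (fun u : ℝ => (AA (Real.exp (u + l)) - AA (Real.exp u)) ^ 2 * Real.exp (-u)) := by
    have hA := Pool.Agent.Y857.VP.meas_AA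
    apply Measurable.mul
    · exact ((hA.comp (by fun_prop)).sub (hA.comp (by fun_prop))).pow_const 2
    · fun_prop
  rw [intervalIntegrable_iff]
  refine Measure.integrableOn_of_bounded (M := (Real.exp (max P Q + l) + Real.exp (max P Q)) ^ 2 *
    Real.exp (-(min P Q))) (by simp) hm.aestronglyMeasurable ?_
  filter_upwards [ae_restrict_mem measurableSet_uIoc] with u hu
  rw [Set.uIoc, Set.mem_Ioc] at hu
  rw [Real.norm_eq_abs, abs_mul, abs_of_pos (Real.exp_pos (-u)), abs_of_nonneg (sq_nonneg _)]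
  have h1 := Pool.Agent.Y857.VP.abs_AA_le (Real.exp (u + l))
  have h2 := Pool.Agent.Y857.VP.abs_AA_le (Real.exp u)
  rw [abs_of_pos (Real.exp_pos _)] at h1 h2
  have h3 : Real.exp (u + l) ≤ Real.exp (max P Q + l) := Real.exp_le_exp.2 (by linarith [hu.2])
  have h4 : Real.exp u ≤ Real.exp (max P Q) := Real.exp_le_exp.2 hu.2
  have h5 : Real.exp (-u) ≤ Real.exp (-(min P Q)) := Real.exp_le_exp.2 (by linarith [hu.1])
  have h6 : |AA (Real.exp (u + l)) - AA (Real.exp u)| ≤ Real.exp (max P Q + l) + Real.exp (max P Q) :=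
    (abs_sub _ _).trans (by linarith)
  apply mul_le_mul _ h5 (Real.exp_pos _).le (by positivity)
  rw [← sq_abs]
  exact pow_le_pow_left₀ (abs_nonneg _) h6 2

theorem gf_int (N : ℕ) (ω : ℝ → ℝ) (l P Q : ℝ) (hω : Continuous ω) (h1 : ∀ u, |ω u| ≤ 1)
    (hPQ : P ≤ Q) (hz : ∀ u, u < P ∨ Q < u → ω u = 0) (hl : 0 ≤ l) (hN : Real.exp (Q + l) < N + 1) :
    ∫ u, ‖gf N ω l u‖ ^ 2 ≤ LM P Q l := by
  unfold LM
  have hi : Integrable (fun u => ‖gf N ω l u‖ ^ 2) :=
    (memLp_two_iff_integrable_sq_norm (gf_memLp N ω l hω h1 2).1).1 (gf_memLp N ω l hω h1 2)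
  rw [intervalIntegral.integral_of_le hPQ, ← integral_Icc_eq_integral_Ioc,
    ← integral_indicator measurableSet_Icc]
  apply integral_mono hi
  · rw [integrable_indicator_iff measurableSet_Icc, integrableOn_Icc_iff_integrableOn_Ioc,
      ← intervalIntegrable_iff_integrableOn_Ioc_of_le hPQ]
    exact LM_ii l P Q
  · intro u
    simp only
    by_cases hu : u ∈ Set.Icc P Q
    · rw [Set.indicator_of_mem hu]
      unfold gf
      rw [norm_mul, mul_pow, hf_norm, sum_AA N u l hl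
        (lt_of_le_of_lt (Real.exp_le_exp.2 (by linarith [hu.2])) hN), Complex.norm_real,
        Real.norm_eq_abs]
      have e : -(2 * (1 / 2 : ℝ) * u) = -u := by ring
      rw [e]
      apply mul_le_of_le_one_left
      · positivity
      · exact pow_le_one₀ (abs_nonneg _) (h1 u)
    · rw [Set.indicator_of_notMem hu]
      have h2 : ω u = 0 := by
        apply hz
        by_contra h
        push Not at h
        exact hu ⟨h.1, h.2⟩
      unfold gf
      rw [h2]
      simp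

theorem GN_int (N : ℕ) (ω : ℝ → ℝ) (l T P Q : ℝ) (hω : Continuous ω) (h1 : ∀ u, |ω u| ≤ 1)
    (hPQ : P ≤ Q) (hz : ∀ u, u < P ∨ Q < u → ω u = 0) (hl : 0 ≤ l) (hN : Real.exp (Q + l) < N + 1)
    (hT : 0 ≤ T) :
    ∫ t in (-(5 * T))..(5 * T), ‖GN N ω l ((1 / 2 : ℝ) + (t : ℂ) * I)‖ ^ 2 ≤
      2 * Real.pi * LM P Q l := by
  have hpi := Real.pi_pos
  obtain ⟨hPi, hPe⟩ := planch_h (gf N ω l) (memLp_one_iff_integrable.1 (gf_memLp N ω l hω h1 1))
    (gf_memLp N ω l hω h1 2)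
  have h2 := gf_int N ω l P Q hω h1 hPQ hz hl hN
  rw [← hPe] at h2
  have e1 : ∫ t in (-(5 * T))..(5 * T), ‖GN N ω l ((1 / 2 : ℝ) + (t : ℂ) * I)‖ ^ 2 =
      (2 * Real.pi) * ∫ ξ in (-(5 * T) / (2 * Real.pi))..((5 * T) / (2 * Real.pi)),
        ‖𝓕 (gf N ω l) ξ‖ ^ 2 := by
    have := intervalIntegral.smul_integral_comp_mul_left (a := -(5 * T) / (2 * Real.pi))
      (b := (5 * T) / (2 * Real.pi))
      (fun t : ℝ => ‖GN N ω l ((1 / 2 : ℝ) + (t : ℂ) * I)‖ ^ 2) (2 * Real.pi)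
    rw [smul_eq_mul] at this
    have e2 : ∀ ξ : ℝ, ‖𝓕 (gf N ω l) ξ‖ ^ 2 =
        ‖GN N ω l ((1 / 2 : ℝ) + ((2 * Real.pi * ξ : ℝ) : ℂ) * I)‖ ^ 2 := by
      intro ξ
      rw [gf_fourier N ω l hω h1 ξ hl]
    simp only [e2]
    rw [this]
    congr 1 <;> field_simp
  rw [e1]
  apply mul_le_mul_of_nonneg_left _ (by positivity)
  refine le_trans ?_ h2
  have hab : -(5 * T) / (2 * Real.pi) ≤ (5 * T) / (2 * Real.pi) := by
    rw [div_le_div_iff_of_pos_right (by positivity)]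
    linarith
  rw [intervalIntegral.integral_of_le hab]
  exact setIntegral_le_integral hPi (Eventually.of_forall fun _ => by positivity)

end Pool.Agent.D0H44.GM
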