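import Pool.Agent.D0H44.GM.Ad

/-! Plancherel for the additive local sums. -/

set_option autoImplicit false

namespace Pool.Agent.D0H44.GM

open Complex MeasureTheory Filter Topology
open scoped FourierTransform
open Pool.Agent.H448R2.GC.PL (planch_h)
open Pool.Agent.Y857.VP (lm AA)

/-- one block -/
noncomputable def gd (ω : ℝ → ℝ) (σ y y' : ℝ) : ℝ → ℂ :=
  Set.indicator (Set.Ico (Real.log y) (Real.log y'))
    (fun u : ℝ => ((ω u * Real.exp ((1 - σ) * u) : ℝ) : ℂ))

theorem gd_memLp (ω : ℝ → ℝ) (σ y y' : ℝ) (hω : Continuous ω) (h1 : ∀ u, |ω u| ≤ 1) (p : ENNReal) :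
    MemLp (gd ω σ y y') p volume := by
  unfold gd
  rw [memLp_indicator_iff_restrict measurableSet_Ico]
  have : IsFiniteMeasure (volume.restrict (Set.Ico (Real.log y) (Real.log y'))) := ⟨by simp⟩
  apply MemLp.of_bound (C := Real.exp (|1 - σ| * (|Real.log y| + |Real.log y'|)))
  · apply Measurable.aestronglyMeasurable
    have := hω.measurable
    fun_prop
  · rw [ae_restrict_iff' measurableSet_Ico]
    refine Eventually.of_forall fun u hu => ?_
    rw [Complex.norm_real, Real.norm_eq_abs, abs_mul, abs_of_pos (Real.exp_pos _)]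
    have h2 : |u| ≤ |Real.log y| + |Real.log y'| := by
      rw [abs_le]
      constructor
      · have := hu.1
        have h2 := neg_abs_le (Real.log y)
        have h3 := abs_nonneg (Real.log y')
        linarith
      · have := hu.2
        have h2 := le_abs_self (Real.log y')
        have h3 := abs_nonneg (Real.log y)
        linarith
    have h3 : Real.exp ((1 - σ) * u) ≤ Real.exp (|1 - σ| * (|Real.log y| + |Real.log y'|)) := by
      apply Real.exp_le_exp.2
      calc (1 - σ) * u ≤ |(1 - σ) * u| := le_abs_self _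
        _ = |1 - σ| * |u| := abs_mul _ _
        _ ≤ _ := mul_le_mul_of_nonneg_left h2 (abs_nonneg _)
    calc |ω u| * Real.exp ((1 - σ) * u) ≤ 1 * Real.exp (|1 - σ| * (|Real.log y| + |Real.log y'|)) :=
          mul_le_mul (h1 u) h3 (Real.exp_pos _).le zero_le_one
      _ = _ := one_mul _

theorem gd_integrable (ω : ℝ → ℝ) (σ y y' : ℝ) (hω : Continuous ω) (h1 : ∀ u, |ω u| ≤ 1) :
    Integrable (gd ω σ y y') :=
  memLp_one_iff_integrable.1 (gd_memLp ω σ y y' hω h1 1)

theorem gd_fourier (ω : ℝ → ℝ) (σ y H ξ : ℝ) (hω : Continuous ω) (hy : 0 < y) (hH : 0 ≤ H) :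
    (∫ v : ℝ, cexp (((-2 * Real.pi * inner ℝ v ξ : ℝ) : ℂ) * I) • gd ω σ y (y + H) v) =
      ∫ v in (0 : ℝ)..H, ((ω (Real.log (y + v)) : ℝ) : ℂ) *
        cexp (-(((σ : ℂ) + ((2 * Real.pi * ξ : ℝ) : ℂ) * I) * (Real.log (y + v) : ℝ))) := by
  set s : ℂ := (σ : ℂ) + ((2 * Real.pi * ξ : ℝ) : ℂ) * I with hs
  have e1 : (∫ v : ℝ, cexp (((-2 * Real.pi * inner ℝ v ξ : ℝ) : ℂ) * I) • gd ω σ y (y + H) v) =
      ∫ v : ℝ, Set.indicator (Set.Ico (Real.log y) (Real.log (y + H)))
        (fun v : ℝ => ((ω v : ℝ) : ℂ) * cexp ((1 - s) * v)) v := by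
    apply integral_congr_ae
    refine Eventually.of_forall fun v => ?_
    simp only
    unfold gd
    by_cases h : v ∈ Set.Ico (Real.log y) (Real.log (y + H))
    · have e0 : ((ω v * Real.exp ((1 - σ) * v) : ℝ) : ℂ) =
          ((ω v : ℝ) : ℂ) * cexp (((1 - σ) * v : ℝ) : ℂ) := by
        rw [Complex.ofReal_mul, Complex.ofReal_exp]
      rw [Set.indicator_of_mem h, Set.indicator_of_mem h, smul_eq_mul, e0, mul_left_comm,
        ← Complex.exp_add]
      congr 2
      rw [hs]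
      simp only [RCLike.inner_apply, conj_trivial]
      push_cast
      ring
    · rw [Set.indicator_of_notMem h, Set.indicator_of_notMem h, smul_zero]
  have hlog : Real.log y ≤ Real.log (y + H) := Real.log_le_log hy (by linarith)
  rw [e1, integral_indicator measurableSet_Ico]
  rw [integral_Ico_eq_integral_Ioc, ← intervalIntegral.integral_of_le hlog]
  have hyH : y ≤ y + H := by linarith
  have e2 := intervalIntegral.integral_deriv_smul_comp' (a := y) (b := y + H) (f := Real.log)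
    (f' := fun z => z⁻¹) (g := fun v : ℝ => ((ω v : ℝ) : ℂ) * cexp ((1 - s) * v))
    (by
      intro z hz
      rw [Set.uIcc_of_le hyH] at hz
      exact Real.hasDerivAt_log (by linarith [hz.1]))
    (by
      apply ContinuousOn.inv₀ continuousOn_id
      intro z hz
      rw [Set.uIcc_of_le hyH] at hz
      have := hz.1
      simp only [id]
      intro h
      linarith)
    (by
      apply Continuous.continuousOn
      fun_prop)
  rw [← e2]
  have e3 := intervalIntegral.integral_comp_add_left (a := 0) (b := H)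
    (fun z : ℝ => ((ω (Real.log z) : ℝ) : ℂ) * cexp (-(s * (Real.log z : ℝ)))) y
  rw [add_zero] at e3
  rw [e3]
  apply intervalIntegral.integral_congr
  intro z hz
  rw [Set.uIcc_of_le hyH] at hz
  have hz0 : 0 < z := by linarith [hz.1]
  simp only [Function.comp]
  rw [Complex.real_smul]
  have e4 : ((z⁻¹ : ℝ) : ℂ) = cexp (-((Real.log z : ℝ) : ℂ)) := by
    rw [← Complex.ofReal_neg, ← Complex.ofReal_exp, Real.exp_neg, Real.exp_log hz0]
  rw [e4, mul_left_comm, ← Complex.exp_add]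
  congr 2
  ring

/-- the weighted local sum -/
noncomputable def gs (N : ℕ) (ω : ℝ → ℝ) (σ H v₀ : ℝ) : ℝ → ℂ :=
  fun u => ∑ n ∈ Finset.Icc 1 N, ((lm n : ℝ) : ℂ) * gd ω σ (n + v₀) (n + v₀ + H) u

theorem gs_memLp (N : ℕ) (ω : ℝ → ℝ) (σ H v₀ : ℝ) (hω : Continuous ω) (h1 : ∀ u, |ω u| ≤ 1)
    (p : ENNReal) : MemLp (gs N ω σ H v₀) p volume := by
  unfold gs
  apply memLp_finsetSum
  intro n _
  exact (gd_memLp ω σ _ _ hω h1 p).const_mul _

theorem gs_fourier (N : ℕ) (ω : ℝ → ℝ) (σ H v₀ : ℝ) (hω : Continuous ω) (h1 : ∀ u, |ω u| ≤ 1) (ξ : ℝ)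
    (hH : 0 ≤ H) (hv₀ : 0 ≤ v₀) :
    𝓕 (gs N ω σ H v₀) ξ = GA N ω H ((σ : ℂ) + ((2 * Real.pi * ξ : ℝ) : ℂ) * I) v₀ := by
  rw [Real.fourier_eq']
  unfold GA
  have e1 : ∀ v : ℝ, cexp (((-2 * Real.pi * inner ℝ v ξ : ℝ) : ℂ) * I) • gs N ω σ H v₀ v =
      ∑ n ∈ Finset.Icc 1 N, ((lm n : ℝ) : ℂ) *
        (cexp (((-2 * Real.pi * inner ℝ v ξ : ℝ) : ℂ) * I) • gd ω σ (n + v₀) (n + v₀ + H) v) := by
    intro v
    unfold gs
    rw [Finset.smul_sum]
    apply Finset.sum_congr rfl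
    intro n _
    simp only [smul_eq_mul]
    ring
  simp_rw [e1]
  rw [integral_finsetSum]
  · apply Finset.sum_congr rfl
    intro n hn
    have hn1 : (1 : ℝ) ≤ n := by exact_mod_cast (Finset.mem_Icc.1 hn).1
    rw [integral_const_mul, gd_fourier ω σ (n + v₀) H ξ hω (by linarith) hH]
    simp only [add_assoc]
  · intro n _
    apply Integrable.const_mul
    have h2 := gd_integrable ω σ (n + v₀) (n + v₀ + H) hω h1
    have h3 := (Real.fourierIntegral_convergent_iff (V := ℝ)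
      (f := gd ω σ (n + v₀) (n + v₀ + H)) ξ).2 h2
    refine h3.congr (Eventually.of_forall fun v => ?_)
    simp only [Circle.smul_def, Real.fourierChar_apply, smul_eq_mul]
    congr 2
    push_cast
    ring

theorem sum_AA2 (N : ℕ) (z v₀ H : ℝ) (hH : 0 ≤ H) (hN : z - v₀ < N + 1) :
    (∑ n ∈ (Finset.Icc 1 N).filter (fun n : ℕ => (n : ℝ) + v₀ ≤ z ∧ z < n + v₀ + H), lm n) =
      AA (z - v₀) - AA (z - v₀ - H) := by
  have hle : z - v₀ - H ≤ z - v₀ := by linarith
  have h1 : AA (z - v₀) - AA (z - v₀ - H) =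
      ∑ n ∈ Finset.Ioc ⌊z - v₀ - H⌋₊ ⌊z - v₀⌋₊, lm n := by
    unfold Pool.Agent.Y857.VP.AA
    have h2 : Finset.Icc 1 ⌊z - v₀⌋₊ =
        Finset.Icc 1 ⌊z - v₀ - H⌋₊ ∪ Finset.Ioc ⌊z - v₀ - H⌋₊ ⌊z - v₀⌋₊ := by
      have := Nat.floor_le_floor hle
      ext n
      simp only [Finset.mem_Icc, Finset.mem_union, Finset.mem_Ioc]
      omega
    rw [h2, Finset.sum_union, add_sub_cancel_left]
    rw [Finset.disjoint_left]
    intro n hn hn'
    simp only [Finset.mem_Icc, Finset.mem_Ioc] at hn hn'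
    omega
  rw [h1]
  apply Finset.sum_congr _ (fun _ _ => rfl)
  ext n
  simp only [Finset.mem_filter, Finset.mem_Icc, Finset.mem_Ioc]
  constructor
  · rintro ⟨⟨h3, h4⟩, h5, h6⟩
    rw [Nat.floor_lt' (by omega), Nat.le_floor_iff' (by omega)]
    exact ⟨by linarith, by linarith⟩
  · rintro ⟨h3, h4⟩
    have hn0 : n ≠ 0 := by omega
    rw [Nat.floor_lt' hn0] at h3
    rw [Nat.le_floor_iff' hn0] at h4
    refine ⟨⟨by omega, ?_⟩, by linarith, by linarith⟩
    have h5 : (n : ℝ) < N + 1 := lt_of_le_of_lt h4 hN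
    have : n < N + 1 := by exact_mod_cast h5
    omega

theorem gs_norm (N : ℕ) (ω : ℝ → ℝ) (σ H v₀ u : ℝ) (hH : 0 ≤ H) (hv₀ : 0 ≤ v₀)
    (hN : Real.exp u < N + 1) :
    ‖gs N ω σ H v₀ u‖ ^ 2 =
      (AA (Real.exp u - v₀) - AA (Real.exp u - v₀ - H)) ^ 2 * (ω u ^ 2 * Real.exp (2 * (1 - σ) * u)) := by
  have e1 : gs N ω σ H v₀ u = (((AA (Real.exp u - v₀) - AA (Real.exp u - v₀ - H)) *
        (ω u * Real.exp ((1 - σ) * u)) : ℝ) : ℂ) := by
    rw [← sum_AA2 N (Real.exp u) v₀ H hH (by linarith)]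
    unfold gs
    rw [Finset.sum_filter]
    push_cast
    rw [Finset.sum_mul]
    apply Finset.sum_congr rfl
    intro n hn
    have hn1 : (1 : ℝ) ≤ n := by exact_mod_cast (Finset.mem_Icc.1 hn).1
    unfold gd
    have hiff : u ∈ Set.Ico (Real.log (n + v₀)) (Real.log (n + v₀ + H)) ↔
        ((n : ℝ) + v₀ ≤ Real.exp u ∧ Real.exp u < n + v₀ + H) := by
      rw [Set.mem_Ico, Real.log_le_iff_le_exp (by linarith), Real.lt_log_iff_exp_lt (by linarith)]
    by_cases h : u ∈ Set.Ico (Real.log (n + v₀)) (Real.log (n + v₀ + H))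
    · rw [Set.indicator_of_mem h, if_pos (hiff.1 h)]
      push_cast
      rfl
    · rw [Set.indicator_of_notMem h, if_neg (fun h' => h (hiff.2 h'))]
      simp
  rw [e1, Complex.norm_real, Real.norm_eq_abs, sq_abs, mul_pow, mul_pow]
  congr 2
  rw [sq, ← Real.exp_add]
  congr 1
  ring

/-- the variance -/
noncomputable def DV (E F H : ℝ) : ℝ := ∫ y in E..F, (AA y - AA (y - H)) ^ 2

theorem DV_ii (H E F : ℝ) : IntervalIntegrable (fun y => (AA y - AA (y - H)) ^ 2) volume E F := by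
  have hm : Measurable (fun y : ℝ => (AA y - AA (y - H)) ^ 2) := by
    have hA := Pool.Agent.Y857.VP.meas_AA
    exact (hA.sub (hA.comp (by fun_prop))).pow_const 2
  rw [intervalIntegrable_iff]
  refine Measure.integrableOn_of_bounded (M := (2 * (|E| + |F| + |H|)) ^ 2) (by simp)
    hm.aestronglyMeasurable ?_
  filter_upwards [ae_restrict_mem measurableSet_uIoc] with u hu
  rw [Set.uIoc, Set.mem_Ioc] at hu
  rw [Real.norm_eq_abs, abs_of_nonneg (sq_nonneg _), ← sq_abs]
  have h1 := Pool.Agent.Y857.VP.abs_AA_le u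
  have h2 := Pool.Agent.Y857.VP.abs_AA_le (u - H)
  have h0 : |u| ≤ |E| + |F| := by
    rw [abs_le]
    constructor
    · have h3 := neg_abs_le E
      have h4 := neg_abs_le F
      have h5 := abs_nonneg E
      have h6 := abs_nonneg F
      rcases min_choice E F with h | h <;> rw [h] at hu <;> linarith [hu.1]
    · have h3 := le_abs_self E
      have h4 := le_abs_self F
      have h5 := abs_nonneg E
      have h6 := abs_nonneg F
      rcases max_choice E F with h | h <;> rw [h] at hu <;> linarith [hu.2]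
  have h3 : |u - H| ≤ |u| + |H| := abs_sub _ _
  have h4 : |AA u - AA (u - H)| ≤ |AA u| + |AA (u - H)| := abs_sub _ _
  apply pow_le_pow_left₀ (abs_nonneg _)
  have := abs_nonneg H
  linarith

theorem DV_mono (E F E' F' H : ℝ) (h1 : E' ≤ E) (h2 : E ≤ F) (h3 : F ≤ F') :
    DV E F H ≤ DV E' F' H := by
  unfold DV
  apply intervalIntegral.integral_mono_interval h1 h2 h3
    (Filter.Eventually.of_forall fun t => by positivity) (DV_ii H _ _)

theorem DV_nonneg (E F H : ℝ) (h : E ≤ F) : 0 ≤ DV E F H := by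
  unfold DV
  apply intervalIntegral.integral_nonneg h
  intro u _
  positivity

theorem exp_subst (f : ℝ → ℝ) (P Q : ℝ) (hPQ : P ≤ Q) :
    ∫ u in P..Q, f (Real.exp u) * Real.exp u = ∫ z in (Real.exp P)..(Real.exp Q), f z := by
  have h1 : Real.exp P ≤ Real.exp Q := Real.exp_le_exp.2 hPQ
  rw [intervalIntegral.integral_of_le h1, intervalIntegral.integral_of_le hPQ]
  have h2 : Set.Ioc (Real.exp P) (Real.exp Q) = Real.exp '' (Set.Ioc P Q) := by
    ext y
    simp only [Set.mem_Ioc, Set.mem_image]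
    constructor
    · rintro ⟨h3, h4⟩
      have hy : 0 < y := (Real.exp_pos P).trans h3
      refine ⟨Real.log y, ⟨?_, ?_⟩, Real.exp_log hy⟩
      · rwa [Real.lt_log_iff_exp_lt hy]
      · rwa [Real.log_le_iff_le_exp hy]
    · rintro ⟨u, ⟨h3, h4⟩, rfl⟩
      exact ⟨Real.exp_lt_exp.2 h3, Real.exp_le_exp.2 h4⟩
  rw [h2, integral_image_eq_integral_abs_deriv_smul measurableSet_Ioc
    (fun x _ => (Real.hasDerivAt_exp x).hasDerivWithinAt) Real.exp_injective.injOn]
  apply integral_congr_ae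
  refine Eventually.of_forall fun u => ?_
  simp only [abs_of_pos (Real.exp_pos u), smul_eq_mul]
  ring

theorem DE_ii (P Q v₀ H : ℝ) : IntervalIntegrable (fun u =>
      ((AA (Real.exp u - v₀) - AA (Real.exp u - v₀ - H)) ^ 2 * Real.exp u)) volume P Q := by
  have hm : Measurable (fun u : ℝ =>
      ((AA (Real.exp u - v₀) - AA (Real.exp u - v₀ - H)) ^ 2 * Real.exp u)) := by
    have hA := Pool.Agent.Y857.VP.meas_AA
    apply Measurable.mul
    · exact ((hA.comp (by fun_prop)).sub (hA.comp (by fun_prop))).pow_const 2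
    · fun_prop
  rw [intervalIntegrable_iff]
  refine Measure.integrableOn_of_bounded (M := (2 * Real.exp (max P Q) + 2 * |v₀| + |H|) ^ 2 *
    Real.exp (max P Q)) (by simp) hm.aestronglyMeasurable ?_
  filter_upwards [ae_restrict_mem measurableSet_uIoc] with u hu
  rw [Set.uIoc, Set.mem_Ioc] at hu
  have h0 : Real.exp u ≤ Real.exp (max P Q) := Real.exp_le_exp.2 hu.2
  rw [Real.norm_eq_abs, abs_mul, abs_of_pos (Real.exp_pos u), abs_of_nonneg (sq_nonneg _), ← sq_abs]
  have h1 := Pool.Agent.Y857.VP.abs_AA_le (Real.exp u - v₀)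
  have h2 := Pool.Agent.Y857.VP.abs_AA_le (Real.exp u - v₀ - H)
  have h3 : |Real.exp u - v₀| ≤ |Real.exp u| + |v₀| := abs_sub _ _
  have h4 : |Real.exp u - v₀ - H| ≤ |Real.exp u - v₀| + |H| := abs_sub _ _
  have h5 : |AA (Real.exp u - v₀) - AA (Real.exp u - v₀ - H)| ≤
    |AA (Real.exp u - v₀)| + |AA (Real.exp u - v₀ - H)| := abs_sub _ _
  rw [abs_of_pos (Real.exp_pos u)] at h3
  apply mul_le_mul _ h0 (Real.exp_pos _).le (by positivity)
  apply pow_le_pow_left₀ (abs_nonneg _)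
  linarith

theorem gs_int (N : ℕ) (ω : ℝ → ℝ) (j : ℕ) (H v₀ P Q : ℝ) (hω : Continuous ω) (h1 : ∀ u, |ω u| ≤ 1)
    (hPQ : P ≤ Q) (hz : ∀ u, u < P ∨ Q < u → ω u = 0) (hH : 0 ≤ H) (hv₀ : 0 ≤ v₀)
    (hv : 2 * v₀ ≤ Real.exp P) (hN : Real.exp Q < N + 1) :
    ∫ u, ‖gs N ω (1 / 2 + j) H v₀ u‖ ^ 2 ≤
      Real.exp (-(2 * j * P)) * DV (Real.exp P / 2) (Real.exp Q) H := by
  have hi : Integrable (fun u => ‖gs N ω (1 / 2 + j) H v₀ u‖ ^ 2) :=
    (memLp_two_iff_integrable_sq_norm (gs_memLp N ω _ H v₀ hω h1 2).1).1 (gs_memLp N ω _ H v₀ hω h1 2)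
  -- the integral over `[P, Q]`
  have hsub : ∫ u in P..Q, (AA (Real.exp u - v₀) - AA (Real.exp u - v₀ - H)) ^ 2 * Real.exp u =
      DV (Real.exp P - v₀) (Real.exp Q - v₀) H := by
    have h2 : ∫ u in P..Q, (AA (Real.exp u - v₀) - AA (Real.exp u - v₀ - H)) ^ 2 * Real.exp u =
        ∫ z in (Real.exp P)..(Real.exp Q), (AA (z - v₀) - AA (z - v₀ - H)) ^ 2 :=
      exp_subst (fun z => (AA (z - v₀) - AA (z - v₀ - H)) ^ 2) P Q hPQ
    rw [h2]
    unfold DV
    exact intervalIntegral.integral_comp_sub_right (fun y => (AA y - AA (y - H)) ^ 2) v₀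
  have hint : IntervalIntegrable (fun u => Real.exp (-(2 * j * P)) *
      ((AA (Real.exp u - v₀) - AA (Real.exp u - v₀ - H)) ^ 2 * Real.exp u)) volume P Q :=
    (DE_ii P Q v₀ H).const_mul _
  calc ∫ u, ‖gs N ω (1 / 2 + j) H v₀ u‖ ^ 2 ≤ ∫ u in P..Q, Real.exp (-(2 * j * P)) *
      ((AA (Real.exp u - v₀) - AA (Real.exp u - v₀ - H)) ^ 2 * Real.exp u) := by
        rw [intervalIntegral.integral_of_le hPQ, ← integral_Icc_eq_integral_Ioc,
          ← integral_indicator measurableSet_Icc]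
        apply integral_mono hi
        · rw [integrable_indicator_iff measurableSet_Icc, integrableOn_Icc_iff_integrableOn_Ioc,
            ← intervalIntegrable_iff_integrableOn_Ioc_of_le hPQ]
          exact hint
        · intro u
          simp only
          by_cases hu : u ∈ Set.Icc P Q
          · rw [Set.indicator_of_mem hu, gs_norm N ω (1 / 2 + j) H v₀ u hH hv₀
              (lt_of_le_of_lt (Real.exp_le_exp.2 hu.2) hN)]
            have e : 2 * (1 - (1 / 2 + (j : ℝ))) * u = -(2 * j * u) + u := by ring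
            rw [e, Real.exp_add]
            have h3 : ω u ^ 2 ≤ 1 := by
              rw [← sq_abs]
              exact pow_le_one₀ (abs_nonneg _) (h1 u)
            have h4 : Real.exp (-(2 * j * u)) ≤ Real.exp (-(2 * j * P)) := by
              apply Real.exp_le_exp.2
              have : (2 * (j : ℝ)) * P ≤ (2 * j) * u := mul_le_mul_of_nonneg_left hu.1 (by positivity)
              linarith
            have h5 := sq_nonneg (AA (Real.exp u - v₀) - AA (Real.exp u - v₀ - H))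
            generalize (AA (Real.exp u - v₀) - AA (Real.exp u - v₀ - H)) ^ 2 = D at h5 ⊢
            calc D * (ω u ^ 2 * (Real.exp (-(2 * j * u)) * Real.exp u)) ≤
                D * (1 * (Real.exp (-(2 * j * P)) * Real.exp u)) := by
                  apply mul_le_mul_of_nonneg_left _ h5
                  apply mul_le_mul h3 _ (by positivity) zero_le_one
                  exact mul_le_mul_of_nonneg_right h4 (Real.exp_pos _).le
              _ = _ := by ring
          · rw [Set.indicator_of_notMem hu]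
            have h2 : ω u = 0 := by
              apply hz
              by_contra h
              push Not at h
              exact hu ⟨h.1, h.2⟩
            unfold gs gd
            simp [Set.indicator, h2]
    _ = Real.exp (-(2 * j * P)) * DV (Real.exp P - v₀) (Real.exp Q - v₀) H := by
        rw [intervalIntegral.integral_const_mul, hsub]
    _ ≤ _ := by
        apply mul_le_mul_of_nonneg_left _ (Real.exp_pos _).le
        apply DV_mono _ _ _ _ _ (by linarith) _ (by linarith)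
        have := Real.exp_le_exp.2 hPQ
        linarith

theorem GA_int (N : ℕ) (ω : ℝ → ℝ) (j : ℕ) (H T v₀ P Q : ℝ) (hω : Continuous ω) (h1 : ∀ u, |ω u| ≤ 1)
    (hPQ : P ≤ Q) (hz : ∀ u, u < P ∨ Q < u → ω u = 0) (hH : 0 ≤ H) (hv₀ : 0 ≤ v₀)
    (hv : 2 * v₀ ≤ Real.exp P) (hN : Real.exp Q < N + 1) (hT : 0 ≤ T) :
    ∫ t in (-(5 * T))..(5 * T), ‖GA N ω H (((1 / 2 + j : ℝ) : ℂ) + (t : ℂ) * I) v₀‖ ^ 2 ≤
      2 * Real.pi * (Real.exp (-(2 * j * P)) * DV (Real.exp P / 2) (Real.exp Q) H) := by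
  have hpi := Real.pi_pos
  obtain ⟨hPi, hPe⟩ := planch_h (gs N ω (1 / 2 + j) H v₀)
    (memLp_one_iff_integrable.1 (gs_memLp N ω _ H v₀ hω h1 1)) (gs_memLp N ω _ H v₀ hω h1 2)
  have h2 := gs_int N ω j H v₀ P Q hω h1 hPQ hz hH hv₀ hv hN
  rw [← hPe] at h2
  have e1 : ∫ t in (-(5 * T))..(5 * T), ‖GA N ω H (((1 / 2 + j : ℝ) : ℂ) + (t : ℂ) * I) v₀‖ ^ 2 =
      (2 * Real.pi) * ∫ ξ in (-(5 * T) / (2 * Real.pi))..((5 * T) / (2 * Real.pi)),
        ‖𝓕 (gs N ω (1 / 2 + j) H v₀) ξ‖ ^ 2 := by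
    have := intervalIntegral.smul_integral_comp_mul_left (a := -(5 * T) / (2 * Real.pi))
      (b := (5 * T) / (2 * Real.pi))
      (fun t : ℝ => ‖GA N ω H (((1 / 2 + j : ℝ) : ℂ) + (t : ℂ) * I) v₀‖ ^ 2) (2 * Real.pi)
    rw [smul_eq_mul] at this
    have e2 : ∀ ξ : ℝ, ‖𝓕 (gs N ω (1 / 2 + j) H v₀) ξ‖ ^ 2 =
        ‖GA N ω H (((1 / 2 + j : ℝ) : ℂ) + ((2 * Real.pi * ξ : ℝ) : ℂ) * I) v₀‖ ^ 2 := by
      intro ξ
      rw [gs_fourier N ω _ H v₀ hω h1 ξ hH hv₀]
    simp only [e2]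
    rw [this]
    congr 1 <;> field_simp
  rw [e1]
  apply mul_le_mul_of_nonneg_left _ (by positivity)
  refine le_trans ?_ h2
  have hab : -(5 * T) / (2 * Real.pi) ≤ (5 * T) / (2 * Real.pi) := by
    rw [div_le_div_iff_of_pos_right (by positivity)]
    linarith
  rw [intervalIntegral.integral_of_le hab]
  exact setIntegral_le_integral hPi (Eventually.of_forall fun _ => by positivity)

end Pool.Agent.D0H44.GM
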