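import Pool.Agent.D0H44.GM.GP
import Pool.Agent.Y857.VP.MRep

/-! The induction over the smoothness of the weight. -/

set_option autoImplicit false

namespace Pool.Agent.D0H44.GM

open Complex MeasureTheory Filter Topology
open Pool.Agent.H448R2.GC (cu)
open Pool.Agent.H448R2.GC.PL (KK KK_lower)
open Pool.Agent.Y857.VP (lm AA)
open Pool.Agent.Y857.VP.VA (be be')

/-- the mean square -/
noncomputable def MS (N : ℕ) (ω : ℝ → ℝ) (T : ℝ) : ℝ :=
  ∫ t in (-(5 * T))..(5 * T), ‖AN N ω ((1 / 2 : ℝ) + (t : ℂ) * I)‖ ^ 2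

theorem ms_step (N : ℕ) (ω ω' : ℝ → ℝ) (hω : ∀ r, HasDerivAt ω (ω' r) r) (hω' : Continuous ω')
    (l T P Q : ℝ) (hT : 1 ≤ T) (hl : l = 1 / (8 * T)) (h1 : ∀ u, |ω u| ≤ 1)
    (hPQ : P ≤ Q) (hz : ∀ u, u < P ∨ Q < u → ω u = 0) (hN : Real.exp (Q + l) < N + 1) (B : ℝ)
    (hB : ∀ v, 0 ≤ v → v ≤ l → MS N (fun r => ω' (r - v)) T ≤ B) :
    MS N ω T ≤ 16 * Real.pi / l ^ 2 * LM P Q l + 32 * l ^ 2 * B := by
  have hl0 : 0 < l := by rw [hl]; positivity
  have hωc : Continuous ω := continuous_iff_continuousAt.2 fun r => (hω r).continuousAt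
  have hab : -(5 * T) ≤ 5 * T := by linarith
  have hc2 := AN_cont2 N ω' hω'
  have hcI : Continuous (fun t : ℝ => ∫ v in (0 : ℝ)..l,
      ‖AN N (fun r => ω' (r - v)) ((1 / 2 : ℝ) + (t : ℂ) * I)‖ ^ 2) := by
    apply intervalIntegral.continuous_parametric_intervalIntegral_of_continuous' 
    exact (hc2.comp (continuous_snd.prodMk continuous_fst)).norm.pow 2
  have hG : Continuous (fun t : ℝ => ‖GN N ω l ((1 / 2 : ℝ) + (t : ℂ) * I)‖ ^ 2) := by
    have e : ∀ t : ℝ, GN N ω l ((1 / 2 : ℝ) + (t : ℂ) * I) =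
        KK l ((1 / 2 : ℝ) + (t : ℂ) * I) * AN N ω ((1 / 2 : ℝ) + (t : ℂ) * I) -
        ∫ v in (0 : ℝ)..l, (KK l ((1 / 2 : ℝ) + (t : ℂ) * I) - KK v ((1 / 2 : ℝ) + (t : ℂ) * I)) *
          AN N (fun r => ω' (r - v)) ((1 / 2 : ℝ) + (t : ℂ) * I) := by
      intro t
      rw [key_id N ω ω' hω hω' l]
      ring
    have hKc : Continuous (fun z : ℝ × ℝ => KK z.1 ((1 / 2 : ℝ) + (z.2 : ℂ) * I)) := by
      unfold Pool.Agent.H448R2.GC.PL.KK
      apply intervalIntegral.continuous_parametric_intervalIntegral_of_continuous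
      · fun_prop
      · fun_prop
    simp only [e]
    apply Continuous.pow
    apply Continuous.norm
    apply Continuous.sub
    · exact (hKc.comp ((continuous_const (y := l)).prodMk continuous_id)).mul (AN_cont1 N ω)
    · apply intervalIntegral.continuous_parametric_intervalIntegral_of_continuous'
      apply Continuous.mul
      · exact (hKc.comp ((continuous_const (y := l)).prodMk continuous_fst)).sub
          (hKc.comp (continuous_snd.prodMk continuous_fst))
      · exact hc2.comp (continuous_snd.prodMk continuous_fst)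
  have h2 : MS N ω T ≤ ∫ t in (-(5 * T))..(5 * T),
      (8 / l ^ 2 * ‖GN N ω l ((1 / 2 : ℝ) + (t : ℂ) * I)‖ ^ 2 +
      32 * l * ∫ v in (0 : ℝ)..l, ‖AN N (fun r => ω' (r - v)) ((1 / 2 : ℝ) + (t : ℂ) * I)‖ ^ 2) := by
    unfold MS
    apply intervalIntegral.integral_mono_on hab
    · exact ((AN_cont1 N ω).norm.pow 2).intervalIntegrable _ _
    · exact ((hG.const_mul _).add (hcI.const_mul _)).intervalIntegrable _ _
    · intro t ht
      exact pt_bound N ω ω' hω hω' l T hT hl t (abs_le.2 ⟨ht.1, ht.2⟩)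
  rw [intervalIntegral.integral_add ((hG.const_mul _).intervalIntegrable _ _)
    ((hcI.const_mul _).intervalIntegrable _ _), intervalIntegral.integral_const_mul,
    intervalIntegral.integral_const_mul] at h2
  have h3 := GN_int N ω l T P Q hωc h1 hPQ hz hl0.le hN (by linarith)
  have h4 : ∫ t in (-(5 * T))..(5 * T), ∫ v in (0 : ℝ)..l,
      ‖AN N (fun r => ω' (r - v)) ((1 / 2 : ℝ) + (t : ℂ) * I)‖ ^ 2 ≤ l * B := by
    have h5 : ∫ t in (-(5 * T))..(5 * T), ∫ v in (0 : ℝ)..l,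
        ‖AN N (fun r => ω' (r - v)) ((1 / 2 : ℝ) + (t : ℂ) * I)‖ ^ 2 =
        ∫ v in (0 : ℝ)..l, ∫ t in (-(5 * T))..(5 * T),
        ‖AN N (fun r => ω' (r - v)) ((1 / 2 : ℝ) + (t : ℂ) * I)‖ ^ 2 := by
      simp only [intervalIntegral.integral_of_le hab, intervalIntegral.integral_of_le hl0.le]
      apply integral_integral_swap
      have hcc : Continuous (Function.uncurry (fun t v : ℝ =>
          ‖AN N (fun r => ω' (r - v)) ((1 / 2 : ℝ) + (t : ℂ) * I)‖ ^ 2)) :=
        (hc2.comp (continuous_snd.prodMk continuous_fst)).norm.pow 2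
      rw [Measure.prod_restrict, ← IntegrableOn]
      exact (hcc.continuousOn.integrableOn_compact
        (isCompact_Icc.prod isCompact_Icc)).mono_set
          (Set.prod_mono Set.Ioc_subset_Icc_self Set.Ioc_subset_Icc_self)
    rw [h5]
    have h6 : ∫ v in (0 : ℝ)..l, ∫ t in (-(5 * T))..(5 * T),
        ‖AN N (fun r => ω' (r - v)) ((1 / 2 : ℝ) + (t : ℂ) * I)‖ ^ 2 ≤ ∫ v in (0 : ℝ)..l, B := by
      apply intervalIntegral.integral_mono_on hl0.le
      · apply Continuous.intervalIntegrable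
        apply intervalIntegral.continuous_parametric_intervalIntegral_of_continuous'
        exact hc2.norm.pow 2
      · simp
      · intro v hv
        exact hB v hv.1 hv.2
    rw [intervalIntegral.integral_const, smul_eq_mul, sub_zero] at h6
    exact h6
  calc MS N ω T ≤ _ := h2
    _ ≤ 8 / l ^ 2 * (2 * Real.pi * LM P Q l) + 32 * l * (l * B) := by
        apply add_le_add
        · exact mul_le_mul_of_nonneg_left h3 (by positivity)
        · exact mul_le_mul_of_nonneg_left h4 (by positivity)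
    _ = _ := by ring

/-- trivial bound -/
theorem ms_triv (N : ℕ) (ω : ℝ → ℝ) (T : ℝ) (hT : 0 ≤ T) (h1 : ∀ u, |ω u| ≤ 1) :
    MS N ω T ≤ 10 * T * (N : ℝ) ^ 4 := by
  unfold MS
  have hab : -(5 * T) ≤ 5 * T := by linarith
  have h2 : ∀ t : ℝ, ‖AN N ω ((1 / 2 : ℝ) + (t : ℂ) * I)‖ ≤ (N : ℝ) ^ 2 := by
    intro t
    unfold AN
    refine (norm_sum_le _ _).trans ?_
    have h3 : ∀ n ∈ Finset.Icc 1 N, ‖((lm n * ω (Real.log n) : ℝ) : ℂ) *
        (n : ℂ) ^ (-((1 / 2 : ℝ) + (t : ℂ) * I))‖ ≤ N := by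
      intro n hn
      rw [Finset.mem_Icc] at hn
      rw [norm_mul, Complex.norm_real, norm_mul, Real.norm_eq_abs, Real.norm_eq_abs]
      have h4 : ‖(n : ℂ) ^ (-((1 / 2 : ℝ) + (t : ℂ) * I))‖ ≤ 1 := by
        apply Pool.Agent.Y857.VP.norm_ncpow_le n hn.1
        simp
      have h5 : |lm n| ≤ N := by
        unfold Pool.Agent.Y857.VP.lm
        rw [if_neg (by omega), abs_div, abs_of_pos (by norm_num : (0 : ℝ) < 8)]
        have hn1 : (1 : ℝ) ≤ n := by exact_mod_cast hn.1
        have h6 : ArithmeticFunction.vonMangoldt n ≤ n := by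
          refine ArithmeticFunction.vonMangoldt_le_log.trans ?_
          have := Real.log_le_sub_one_of_pos (by linarith : (0 : ℝ) < n)
          linarith
        have h7 : 0 ≤ ArithmeticFunction.vonMangoldt n := ArithmeticFunction.vonMangoldt_nonneg
        have h8 : (n : ℝ) ≤ N := by exact_mod_cast hn.2
        have h9 : |ArithmeticFunction.vonMangoldt n - 1| ≤ n := by
          rw [abs_le]
          constructor <;> linarith
        linarith
      calc |lm n| * |ω (Real.log n)| * _ ≤ N * 1 * 1 := by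
            apply mul_le_mul (mul_le_mul h5 (h1 _) (abs_nonneg _) (by positivity)) h4
              (norm_nonneg _) (by positivity)
        _ = N := by ring
    refine (Finset.sum_le_sum h3).trans (le_of_eq ?_)
    rw [Finset.sum_const, Nat.card_Icc]
    simp only [add_tsub_cancel_right, nsmul_eq_mul]
    ring
  have h3 : ∫ t in (-(5 * T))..(5 * T), ‖AN N ω ((1 / 2 : ℝ) + (t : ℂ) * I)‖ ^ 2 ≤
      ∫ t in (-(5 * T))..(5 * T), ((N : ℝ) ^ 2) ^ 2 := by
    apply intervalIntegral.integral_mono_on hab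
    · exact ((AN_cont1 N ω).norm.pow 2).intervalIntegrable _ _
    · simp
    · intro t _
      exact pow_le_pow_left₀ (norm_nonneg _) (h2 t) 2
  rw [intervalIntegral.integral_const, smul_eq_mul] at h3
  refine h3.trans (le_of_eq ?_)
  ring

theorem AN_comb (N : ℕ) (ω₁ ω₂ : ℝ → ℝ) (c : ℝ) (s : ℂ) :
    AN N (fun r => (ω₁ r - ω₂ r) / c) s = (AN N ω₁ s - AN N ω₂ s) / (c : ℂ) := by
  unfold AN
  rw [← Finset.sum_sub_distrib, Finset.sum_div]
  apply Finset.sum_congr rfl
  intro n _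
  push_cast
  ring

theorem ms_comb (N : ℕ) (ω₁ ω₂ : ℝ → ℝ) (c T B : ℝ) (hc : 1 ≤ c) (hT : 0 ≤ T)
    (h1 : MS N ω₁ T ≤ B) (h2 : MS N ω₂ T ≤ B) :
    MS N (fun r => (ω₁ r - ω₂ r) / c) T ≤ 4 * B := by
  have hab : -(5 * T) ≤ 5 * T := by linarith
  have h3 : MS N (fun r => (ω₁ r - ω₂ r) / c) T ≤ ∫ t in (-(5 * T))..(5 * T),
      (2 * ‖AN N ω₁ ((1 / 2 : ℝ) + (t : ℂ) * I)‖ ^ 2 +
        2 * ‖AN N ω₂ ((1 / 2 : ℝ) + (t : ℂ) * I)‖ ^ 2) := by
    unfold MS
    apply intervalIntegral.integral_mono_on hab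
    · exact ((AN_cont1 N _).norm.pow 2).intervalIntegrable _ _
    · exact ((((AN_cont1 N ω₁).norm.pow 2).const_mul _).add
        (((AN_cont1 N ω₂).norm.pow 2).const_mul _)).intervalIntegrable _ _
    · intro t _
      rw [AN_comb, norm_div, Complex.norm_real, Real.norm_eq_abs, abs_of_pos (by linarith)]
      have h4 : ‖AN N ω₁ ((1 / 2 : ℝ) + (t : ℂ) * I) - AN N ω₂ ((1 / 2 : ℝ) + (t : ℂ) * I)‖ / c ≤
          ‖AN N ω₁ ((1 / 2 : ℝ) + (t : ℂ) * I)‖ + ‖AN N ω₂ ((1 / 2 : ℝ) + (t : ℂ) * I)‖ := by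
        rw [div_le_iff₀ (by linarith)]
        refine (norm_sub_le _ _).trans ?_
        exact le_mul_of_one_le_right (by positivity) hc
      have h5 := pow_le_pow_left₀ (div_nonneg (norm_nonneg _) (by linarith)) h4 2
      refine h5.trans ?_
      nlinarith [sq_nonneg (‖AN N ω₁ ((1 / 2 : ℝ) + (t : ℂ) * I)‖ -
        ‖AN N ω₂ ((1 / 2 : ℝ) + (t : ℂ) * I)‖)]
  refine h3.trans ?_
  have i1 : IntervalIntegrable (fun t : ℝ => 2 * ‖AN N ω₁ ((1 / 2 : ℝ) + (t : ℂ) * I)‖ ^ 2) volume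
      (-(5 * T)) (5 * T) := (((AN_cont1 N ω₁).norm.pow 2).const_mul _).intervalIntegrable _ _
  have i2 : IntervalIntegrable (fun t : ℝ => 2 * ‖AN N ω₂ ((1 / 2 : ℝ) + (t : ℂ) * I)‖ ^ 2) volume
      (-(5 * T)) (5 * T) := (((AN_cont1 N ω₂).norm.pow 2).const_mul _).intervalIntegrable _ _
  rw [intervalIntegral.integral_add i1 i2,
    intervalIntegral.integral_const_mul, intervalIntegral.integral_const_mul]
  unfold MS at h1 h2
  linarith

theorem be_cont (K : ℕ) {c : ℝ} (p q : ℝ) (hc : 0 < c) : Continuous (be (K + 1) c p q) := by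
  have h := Pool.Agent.H448R2.GC.cu_cont K c hc
  unfold Pool.Agent.Y857.VP.VA.be
  fun_prop

/-- the induction -/
theorem ms_ind (N : ℕ) (c l T P Q : ℝ) (hc : 1 ≤ c) (hT : 2 ≤ T) (hl : l = 1 / (8 * T))
    (hPQ : P ≤ Q) (hN : Real.exp (Q + l) < N + 1) (m : ℕ) :
    ∀ (K : ℕ) (p q : ℝ), m + 1 ≤ K → P ≤ p → p ≤ q → q + K * c + m ≤ Q →
      MS N (be K c p q) T ≤ 2 * (16 * Real.pi / l ^ 2 * LM P Q l) +
        (128 * l ^ 2) ^ m * (10 * T * (N : ℝ) ^ 4) := by
  have hc0 : 0 < c := by linarith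
  have hl0 : 0 < l := by rw [hl]; positivity
  have hl16 : l ≤ 1 / 16 := by
    rw [hl]
    apply one_div_le_one_div_of_le (by norm_num)
    linarith
  have hLM : 0 ≤ LM P Q l := by
    unfold LM
    apply intervalIntegral.integral_nonneg hPQ
    intro u _
    positivity
  obtain ⟨a, ha⟩ : ∃ a, a = 16 * Real.pi / l ^ 2 * LM P Q l := ⟨_, rfl⟩
  have ha0 : 0 ≤ a := by rw [ha]; positivity
  rw [← ha]
  induction m with
  | zero =>
    intro K p q _ _ _ _
    rw [pow_zero, one_mul]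
    have := ms_triv N (be K c p q) T (by linarith) (fun u => Pool.Agent.Y857.VP.VA.be_abs hc0)
    linarith
  | succ m ih =>
    intro K p q hK hP hpq hQ
    obtain ⟨K', rfl⟩ : ∃ K', K = K' + 2 := ⟨K - 2, by omega⟩
    push_cast at hQ
    have hstep := ms_step N (be (K' + 2) c p q) (be' K' c p q)
      (fun r => Pool.Agent.Y857.VP.VA.be_deriv K' p q r hc0)
      (Pool.Agent.Y857.VP.VA.be'_cont K' p q hc0) l T P Q (by linarith) hl
      (fun u => Pool.Agent.Y857.VP.VA.be_abs hc0) hPQ (by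
        intro u hu
        rcases hu with hu | hu
        · exact Pool.Agent.Y857.VP.VA.be_zero_left hc0 hpq (by linarith)
        · apply Pool.Agent.Y857.VP.VA.be_zero_right hc0 hpq
          push_cast
          have : (0 : ℝ) ≤ m := Nat.cast_nonneg m
          linarith) hN (4 * (2 * a + (128 * l ^ 2) ^ m * (10 * T * (N : ℝ) ^ 4))) (by
        intro v hv0 hvl
        have e : (fun r => be' K' c p q (r - v)) = fun r =>
            (be (K' + 1) c (p + v) (q + v) r - be (K' + 1) c (p + v + c) (q + v + c) r) / c := by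
          funext r
          unfold Pool.Agent.Y857.VP.VA.be' Pool.Agent.Y857.VP.VA.be
          have e1 : r - v - q = r - (q + v) := by ring
          have e2 : r - v - p = r - (p + v) := by ring
          have e3 : r - (q + v) - c = r - (q + v + c) := by ring
          have e4 : r - (p + v) - c = r - (p + v + c) := by ring
          rw [e1, e2, e3, e4]
          ring
        rw [e]
        apply ms_comb N _ _ c T _ hc (by linarith)
        · apply ih (K' + 1) (p + v) (q + v) (by omega) (by linarith) (by linarith)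
          push_cast
          nlinarith
        · apply ih (K' + 1) (p + v + c) (q + v + c) (by omega) (by linarith) (by linarith)
          push_cast
          nlinarith)
    rw [← ha] at hstep
    refine hstep.trans ?_
    have h1 : 32 * l ^ 2 * (4 * (2 * a + (128 * l ^ 2) ^ m * (10 * T * (N : ℝ) ^ 4))) =
        256 * l ^ 2 * a + (128 * l ^ 2) ^ (m + 1) * (10 * T * (N : ℝ) ^ 4) := by
      rw [pow_succ]
      ring
    rw [h1]
    have h2 : 256 * l ^ 2 ≤ 1 := by nlinarith
    nlinarith [mul_le_mul_of_nonneg_right h2 ha0]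

end Pool.Agent.D0H44.GM
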