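import Pool.Agent.Y857.VP.Win

/-! Transfer from the mean square of a smoothed Dirichlet polynomial with coefficients `Λ(n) - 1` to the mean
square of `ψ((1+δ)x) - ψ(x) - δx` for one single `δ`. -/

set_option autoImplicit false

namespace Pool.Agent.D0H44.GM

open Complex MeasureTheory Filter Topology
open scoped FourierTransform
open Pool.Agent.H448R2.GC (cu)
open Pool.Agent.H448R2.GC.PL (KK KK_lower planch_h gb gb_bound gb_meas gb_memLp gb_integrable hf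
  hf_norm hf_memLp hf_integrable)
open Pool.Agent.Y857.VP (lm AA)
open Pool.Agent.Y857.VP.VA (be be')

/-- Dirichlet polynomial with a weight -/
noncomputable def AN (N : ℕ) (ω : ℝ → ℝ) (s : ℂ) : ℂ :=
  ∑ n ∈ Finset.Icc 1 N, ((lm n * ω (Real.log n) : ℝ) : ℂ) * (n : ℂ) ^ (-s)

/-- the transform of the local sums -/
noncomputable def GN (N : ℕ) (ω : ℝ → ℝ) (l : ℝ) (s : ℂ) : ℂ :=
  ∑ n ∈ Finset.Icc 1 N, ((lm n : ℝ) : ℂ) * (n : ℂ) ^ (-s) *
    ∫ v in (0 : ℝ)..l, ((ω (Real.log n - v) : ℝ) : ℂ) * cexp (s * v)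

theorem KK_hasDeriv (s : ℂ) (v : ℝ) : HasDerivAt (fun v : ℝ => KK v s) (cexp (s * v)) v := by
  unfold KK
  have hc : Continuous fun v : ℝ => cexp (s * v) := by fun_prop
  exact (hc.integral_hasStrictDerivAt 0 v).hasDerivAt

theorem KK_cont (s : ℂ) : Continuous (fun v : ℝ => KK v s) :=
  continuous_iff_continuousAt.2 fun v => (KK_hasDeriv s v).continuousAt

theorem KK_zero (s : ℂ) : KK 0 s = 0 := by
  unfold KK
  simp

theorem parts (ω ω' : ℝ → ℝ) (hω : ∀ r, HasDerivAt ω (ω' r) r) (hω' : Continuous ω') (l r : ℝ)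
    (s : ℂ) :
    ∫ v in (0 : ℝ)..l, ((ω (r - v) : ℝ) : ℂ) * cexp (s * v) =
      ((ω r : ℝ) : ℂ) * KK l s -
        ∫ v in (0 : ℝ)..l, (KK l s - KK v s) * ((ω' (r - v) : ℝ) : ℂ) := by
  have h1 : ∀ v ∈ Set.uIcc 0 l, HasDerivAt (fun v : ℝ => ((ω (r - v) : ℝ) : ℂ))
      (-((ω' (r - v) : ℝ) : ℂ)) v := by
    intro v _
    have h := ((hω (r - v)).comp_const_sub r v).ofReal_comp
    simpa using h
  have h2 : ∀ v ∈ Set.uIcc 0 l, HasDerivAt (fun v : ℝ => KK v s - KK l s) (cexp (s * v)) v := by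
    intro v _
    exact (KK_hasDeriv s v).sub_const _
  have h3 := intervalIntegral.integral_mul_deriv_eq_deriv_mul h1 h2
    (Continuous.intervalIntegrable (by fun_prop) _ _)
    (Continuous.intervalIntegrable (by fun_prop) _ _)
  rw [h3, KK_zero, sub_self, mul_zero, zero_sub, sub_zero, zero_sub, mul_neg, neg_neg,
    sub_eq_add_neg, sub_eq_add_neg, ← intervalIntegral.integral_neg,
    ← intervalIntegral.integral_neg]
  congr 1
  apply intervalIntegral.integral_congr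
  intro v _
  simp only
  ring

theorem key_id (N : ℕ) (ω ω' : ℝ → ℝ) (hω : ∀ r, HasDerivAt ω (ω' r) r) (hω' : Continuous ω')
    (l : ℝ) (s : ℂ) :
    KK l s * AN N ω s = GN N ω l s +
      ∫ v in (0 : ℝ)..l, (KK l s - KK v s) * AN N (fun r => ω' (r - v)) s := by
  have h1 : ∀ n ∈ Finset.Icc 1 N, KK l s * (((lm n * ω (Real.log n) : ℝ) : ℂ) * (n : ℂ) ^ (-s)) =
      ((lm n : ℝ) : ℂ) * (n : ℂ) ^ (-s) *
        (∫ v in (0 : ℝ)..l, ((ω (Real.log n - v) : ℝ) : ℂ) * cexp (s * v)) +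
      ∫ v in (0 : ℝ)..l, (KK l s - KK v s) *
        (((lm n * ω' (Real.log n - v) : ℝ) : ℂ) * (n : ℂ) ^ (-s)) := by
    intro n _
    rw [parts ω ω' hω hω' l (Real.log n) s]
    have h2 : ∫ v in (0 : ℝ)..l, (KK l s - KK v s) *
        (((lm n * ω' (Real.log n - v) : ℝ) : ℂ) * (n : ℂ) ^ (-s)) =
        ((lm n : ℝ) : ℂ) * (n : ℂ) ^ (-s) *
          ∫ v in (0 : ℝ)..l, (KK l s - KK v s) * ((ω' (Real.log n - v) : ℝ) : ℂ) := by
      rw [← intervalIntegral.integral_const_mul]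
      apply intervalIntegral.integral_congr
      intro v _
      simp only
      push_cast
      ring
    rw [h2]
    push_cast
    ring
  unfold AN GN
  rw [Finset.mul_sum, Finset.sum_congr rfl h1, Finset.sum_add_distrib]
  congr 1
  rw [← intervalIntegral.integral_finsetSum]
  · apply intervalIntegral.integral_congr
    intro v _
    simp only
    rw [Finset.mul_sum]
  · intro n _
    apply Continuous.intervalIntegrable
    have := KK_cont s
    fun_prop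

theorem KK_diff_le (l v t : ℝ) (hv : 0 ≤ v) (hvl : v ≤ l) (hl : l ≤ 1) :
    ‖KK l ((1 / 2 : ℝ) + (t : ℂ) * I) - KK v ((1 / 2 : ℝ) + (t : ℂ) * I)‖ ≤ 2 * l := by
  unfold KK
  rw [intervalIntegral.integral_interval_sub_left
    (Continuous.intervalIntegrable (by fun_prop) _ _)
    (Continuous.intervalIntegrable (by fun_prop) _ _)]
  have h1 : ∀ u ∈ Set.uIoc v l, ‖cexp ((((1 / 2 : ℝ) : ℂ) + (t : ℂ) * I) * (u : ℂ))‖ ≤ 2 := by
    intro u hu
    rw [Set.uIoc_of_le hvl] at hu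
    rw [Complex.norm_exp]
    have e : ((((1 / 2 : ℝ) : ℂ) + (t : ℂ) * I) * (u : ℂ)).re = u / 2 := by
      simp
      ring
    rw [e]
    have h2 : Real.exp (u / 2) ≤ Real.exp (1 / 2) := Real.exp_le_exp.2 (by linarith [hu.2])
    have h3 : Real.exp (1 / 2) ≤ 2 := by
      have := Real.exp_one_lt_d9
      have h4 : Real.exp (1 / 2) ^ 2 = Real.exp 1 := by
        rw [← Real.exp_nat_mul]
        norm_num
      nlinarith [Real.exp_pos (1 / 2 : ℝ)]
    exact h2.trans h3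
  have h2 := intervalIntegral.norm_integral_le_of_norm_le_const h1
  refine h2.trans ?_
  rw [abs_of_nonneg (by linarith)]
  nlinarith

theorem cs0 (f : ℝ → ℝ) (hf : Continuous f) (l : ℝ) (hl : 0 < l) :
    (∫ v in (0 : ℝ)..l, f v) ^ 2 ≤ l * ∫ v in (0 : ℝ)..l, f v ^ 2 := by
  obtain ⟨A, hA⟩ : ∃ A, A = ∫ v in (0 : ℝ)..l, f v := ⟨_, rfl⟩
  have h0 : 0 ≤ ∫ u in (0 : ℝ)..l, (f u - A / l) ^ 2 :=
    intervalIntegral.integral_nonneg hl.le (fun u _ => sq_nonneg _)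
  have h1 : ∫ u in (0 : ℝ)..l, (f u - A / l) ^ 2 =
      (∫ u in (0 : ℝ)..l, f u ^ 2) - 2 * (A / l) * A + (A / l) ^ 2 * l := by
    have e : ∀ u, (f u - A / l) ^ 2 = f u ^ 2 - (2 * (A / l)) * f u + (A / l) ^ 2 := fun u => by ring
    simp only [e]
    rw [intervalIntegral.integral_add (Continuous.intervalIntegrable (by fun_prop) _ _) (by simp),
      intervalIntegral.integral_sub (Continuous.intervalIntegrable (by fun_prop) _ _)
        (Continuous.intervalIntegrable (by fun_prop) _ _),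
      intervalIntegral.integral_const_mul, intervalIntegral.integral_const, ← hA]
    simp only [smul_eq_mul]
    ring
  rw [h1] at h0
  rw [← hA]
  have h2 : (∫ u in (0 : ℝ)..l, f u ^ 2) - 2 * (A / l) * A + (A / l) ^ 2 * l =
      (∫ u in (0 : ℝ)..l, f u ^ 2) - A ^ 2 / l := by
    field_simp
    ring
  rw [h2] at h0
  have h3 : A ^ 2 / l ≤ ∫ u in (0 : ℝ)..l, f u ^ 2 := by linarith
  rw [div_le_iff₀ hl] at h3
  linarith

theorem AN_cont {X : Type*} [TopologicalSpace X] (N : ℕ) (f : X → ℝ → ℝ)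
    (hf : ∀ r, Continuous (fun z => f z r)) (g : X → ℂ) (hg : Continuous g) :
    Continuous (fun z : X => AN N (f z) (g z)) := by
  unfold AN
  apply continuous_finsetSum
  intro n hn
  have hn0 : (n : ℂ) ≠ 0 := by
    have : 1 ≤ n := (Finset.mem_Icc.1 hn).1
    exact_mod_cast (by omega : n ≠ 0)
  apply Continuous.mul
  · exact Complex.continuous_ofReal.comp (continuous_const.mul (hf _))
  · apply Continuous.const_cpow (by fun_prop) (Or.inl hn0)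

theorem line_cont : Continuous (fun t : ℝ => (((1 / 2 : ℝ) : ℂ) + (t : ℂ) * I)) := by fun_prop

theorem AN_cont1 (N : ℕ) (ω : ℝ → ℝ) : Continuous (fun t : ℝ => AN N ω ((1 / 2 : ℝ) + (t : ℂ) * I)) :=
  AN_cont (X := ℝ) N (fun _ => ω) (fun _ => continuous_const) _ line_cont

theorem AN_cont2 (N : ℕ) (ω' : ℝ → ℝ) (hω' : Continuous ω') :
    Continuous (fun z : ℝ × ℝ => AN N (fun r => ω' (r - z.1)) ((1 / 2 : ℝ) + (z.2 : ℂ) * I)) :=
  AN_cont (X := ℝ × ℝ) N (fun z r => ω' (r - z.1)) (fun r => hω'.comp (continuous_const.sub continuous_fst))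
    _ (line_cont.comp continuous_snd)

theorem AN_cont3 (N : ℕ) (ω' : ℝ → ℝ) (hω' : Continuous ω') :
    Continuous (fun z : ℝ × ℝ => AN N (fun r => ω' (r - z.2)) ((1 / 2 : ℝ) + (z.1 : ℂ) * I)) :=
  AN_cont (X := ℝ × ℝ) N (fun z r => ω' (r - z.2)) (fun r => hω'.comp (continuous_const.sub continuous_snd))
    _ (line_cont.comp continuous_fst)

theorem AN_cont4 (N : ℕ) (ω' : ℝ → ℝ) (hω' : Continuous ω') (s : ℂ) :
    Continuous (fun v : ℝ => AN N (fun r => ω' (r - v)) s) :=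
  AN_cont (X := ℝ) N (fun v r => ω' (r - v)) (fun r => hω'.comp (continuous_const.sub continuous_id))
    _ continuous_const

/-- pointwise bound -/
theorem pt_bound (N : ℕ) (ω ω' : ℝ → ℝ) (hω : ∀ r, HasDerivAt ω (ω' r) r) (hω' : Continuous ω')
    (l T : ℝ) (hT : 1 ≤ T) (hl : l = 1 / (8 * T)) (t : ℝ) (ht : |t| ≤ 5 * T) :
    ‖AN N ω ((1 / 2 : ℝ) + (t : ℂ) * I)‖ ^ 2 ≤
      8 / l ^ 2 * ‖GN N ω l ((1 / 2 : ℝ) + (t : ℂ) * I)‖ ^ 2 +
      32 * l * ∫ v in (0 : ℝ)..l, ‖AN N (fun r => ω' (r - v)) ((1 / 2 : ℝ) + (t : ℂ) * I)‖ ^ 2 := by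
  have hl0 : 0 < l := by rw [hl]; positivity
  have hl1 : l ≤ 1 := by
    rw [hl, div_le_one (by positivity)]
    linarith
  have hid := key_id N ω ω' hω hω' l ((1 / 2 : ℝ) + (t : ℂ) * I)
  have hK := KK_lower l (1 / 2) t T hT hl (by norm_num) ht
  have hc : Continuous (fun v : ℝ => ‖AN N (fun r => ω' (r - v)) ((1 / 2 : ℝ) + (t : ℂ) * I)‖) :=
    (AN_cont4 N ω' hω' _).norm
  have h1 : ‖∫ v in (0 : ℝ)..l, (KK l ((1 / 2 : ℝ) + (t : ℂ) * I) - KK v ((1 / 2 : ℝ) + (t : ℂ) * I)) *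
      AN N (fun r => ω' (r - v)) ((1 / 2 : ℝ) + (t : ℂ) * I)‖ ≤
      2 * l * ∫ v in (0 : ℝ)..l, ‖AN N (fun r => ω' (r - v)) ((1 / 2 : ℝ) + (t : ℂ) * I)‖ := by
    rw [← intervalIntegral.integral_const_mul]
    apply intervalIntegral.norm_integral_le_of_norm_le hl0.le
    · apply Filter.Eventually.of_forall
      intro v hv
      rw [norm_mul]
      exact mul_le_mul_of_nonneg_right (KK_diff_le l v t hv.1.le hv.2 hl1) (norm_nonneg _)
    · exact (hc.const_mul _).intervalIntegrable _ _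
  obtain ⟨J, hJ⟩ : ∃ J, J = ∫ v in (0 : ℝ)..l, ‖AN N (fun r => ω' (r - v)) ((1 / 2 : ℝ) + (t : ℂ) * I)‖ :=
    ⟨_, rfl⟩
  have hJ0 : 0 ≤ J := by
    rw [hJ]
    exact intervalIntegral.integral_nonneg hl0.le (fun u _ => norm_nonneg _)
  have hJ2 : J ^ 2 ≤ l * ∫ v in (0 : ℝ)..l,
      ‖AN N (fun r => ω' (r - v)) ((1 / 2 : ℝ) + (t : ℂ) * I)‖ ^ 2 := by
    rw [hJ]
    exact cs0 _ hc l hl0
  rw [← hJ] at h1
  have h2 : l / 2 * ‖AN N ω ((1 / 2 : ℝ) + (t : ℂ) * I)‖ ≤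
      ‖GN N ω l ((1 / 2 : ℝ) + (t : ℂ) * I)‖ + 2 * l * J := by
    calc l / 2 * ‖AN N ω ((1 / 2 : ℝ) + (t : ℂ) * I)‖
        ≤ ‖KK l ((1 / 2 : ℝ) + (t : ℂ) * I)‖ * ‖AN N ω ((1 / 2 : ℝ) + (t : ℂ) * I)‖ :=
          mul_le_mul_of_nonneg_right hK (norm_nonneg _)
      _ = ‖KK l ((1 / 2 : ℝ) + (t : ℂ) * I) * AN N ω ((1 / 2 : ℝ) + (t : ℂ) * I)‖ := (norm_mul _ _).symm
      _ ≤ _ := by
          rw [hid]
          exact (norm_add_le _ _).trans (add_le_add le_rfl h1)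
  have ha : 0 ≤ ‖AN N ω ((1 / 2 : ℝ) + (t : ℂ) * I)‖ := norm_nonneg _
  generalize ‖AN N ω ((1 / 2 : ℝ) + (t : ℂ) * I)‖ = a at h2 ha ⊢
  have hg0 : 0 ≤ ‖GN N ω l ((1 / 2 : ℝ) + (t : ℂ) * I)‖ := norm_nonneg _
  generalize ‖GN N ω l ((1 / 2 : ℝ) + (t : ℂ) * I)‖ = g at h2 hg0 ⊢
  generalize (∫ v in (0 : ℝ)..l,
      ‖AN N (fun r => ω' (r - v)) ((1 / 2 : ℝ) + (t : ℂ) * I)‖ ^ 2) = I2 at hJ2 ⊢
  have h3 : a ≤ 2 / l * g + 4 * J := by
    have : l / 2 * a ≤ l / 2 * (2 / l * g + 4 * J) := by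
      refine h2.trans (le_of_eq ?_)
      field_simp
      ring
    exact le_of_mul_le_mul_left this (by positivity)
  have h4 : a ^ 2 ≤ (2 / l * g + 4 * J) ^ 2 := pow_le_pow_left₀ ha h3 2
  have h5 : (2 / l * g + 4 * J) ^ 2 ≤ 2 * (2 / l * g) ^ 2 + 2 * (4 * J) ^ 2 := by
    nlinarith [sq_nonneg (2 / l * g - 4 * J)]
  have h6 : 2 * (2 / l * g) ^ 2 = 8 / l ^ 2 * g ^ 2 := by
    field_simp
    ring
  nlinarith

end Pool.Agent.D0H44.GM
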