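import Pool.Agent.D0H44.GM.Cv

/-! The range in which the intervals `(x, (1+δ)x]` are shorter than one. -/

set_option autoImplicit false

namespace Pool.Agent.D0H44.GM

open MeasureTheory Filter Topology

theorem theta_low : ∃ y₀ : ℝ, 1 ≤ y₀ ∧ ∀ y : ℝ, y₀ ≤ y → y / 2 ≤ Chebyshev.theta y := by
  refine ⟨(100 : ℝ) ^ 4, by norm_num, fun y hy => ?_⟩
  have hy0 : 0 < y := by linarith
  have h1 := Chebyshev.theta_ge' (x := y) (by linarith)
  obtain ⟨r, hr⟩ : ∃ r, r = y ^ (1 / 4 : ℝ) := ⟨_, rfl⟩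
  have hr0 : 0 < r := by rw [hr]; positivity
  have hr4 : r ^ 4 = y := by
    rw [hr, ← Real.rpow_natCast, ← Real.rpow_mul hy0.le]
    norm_num
  have hr100 : 100 ≤ r := by
    by_contra h
    push Not at h
    have : r ^ 4 < 100 ^ 4 := pow_lt_pow_left₀ h hr0.le (by norm_num)
    linarith
  have hsq : √y = r ^ 2 := by
    rw [← hr4, show r ^ 4 = (r ^ 2) ^ 2 by ring, Real.sqrt_sq (by positivity)]
  have hlog : Real.log y ≤ 4 * r := by
    have := Real.log_le_rpow_div hy0.le (by norm_num : (0 : ℝ) < 1 / 4)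
    rw [← hr] at this
    linarith
  have hlog2 : Real.log (y + 2) ≤ 1 + 4 * r := by
    have h2 : y + 2 ≤ y * 2 := by linarith
    have h3 : Real.log (y + 2) ≤ Real.log (y * 2) := Real.log_le_log (by linarith) h2
    rw [Real.log_mul hy0.ne' (by norm_num)] at h3
    have := Real.log_two_lt_d9
    linarith
  have hl2 := Real.log_two_gt_d9
  rw [hsq] at h1
  have h4 : 2 * r ^ 2 * Real.log y ≤ 2 * r ^ 2 * (4 * r) := mul_le_mul_of_nonneg_left hlog (by positivity)
  have h5 : (y - 1) * (69 / 100) ≤ (y - 1) * Real.log 2 :=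
    mul_le_mul_of_nonneg_left (by linarith) (by linarith)
  have h6 : 100 * r ^ 3 ≤ y := by
    rw [← hr4]
    have : r ^ 4 = r * r ^ 3 := by ring
    rw [this]
    exact mul_le_mul_of_nonneg_right hr100 (by positivity)
  have h7 : r * 10000 ≤ r ^ 3 := by nlinarith
  nlinarith

theorem th_diff (x y : ℝ) (hxy : x ≤ y) : Chebyshev.theta y - Chebyshev.theta x =
    ∑ p ∈ (Finset.Ioc ⌊x⌋₊ ⌊y⌋₊).filter Nat.Prime, Real.log p := by
  unfold Chebyshev.theta
  have hle := Nat.floor_le_floor hxy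
  have h2 : Finset.Ioc 0 ⌊y⌋₊ = Finset.Ioc 0 ⌊x⌋₊ ∪ Finset.Ioc ⌊x⌋₊ ⌊y⌋₊ := by
    ext n
    simp only [Finset.mem_Ioc, Finset.mem_union]
    omega
  rw [h2, Finset.filter_union, Finset.sum_union, add_sub_cancel_left]
  rw [Finset.disjoint_left]
  intro n hn hn'
  simp only [Finset.mem_filter, Finset.mem_Ioc] at hn hn'
  omega

theorem psi_diff (x y : ℝ) (hxy : x ≤ y) : Chebyshev.psi y - Chebyshev.psi x =
    ∑ n ∈ Finset.Ioc ⌊x⌋₊ ⌊y⌋₊, ArithmeticFunction.vonMangoldt n := by
  unfold Chebyshev.psi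
  have hle := Nat.floor_le_floor hxy
  have h2 : Finset.Ioc 0 ⌊y⌋₊ = Finset.Ioc 0 ⌊x⌋₊ ∪ Finset.Ioc ⌊x⌋₊ ⌊y⌋₊ := by
    ext n
    simp only [Finset.mem_Ioc, Finset.mem_union]
    omega
  rw [h2, Finset.sum_union, add_sub_cancel_left]
  rw [Finset.disjoint_left]
  intro n hn hn'
  simp only [Finset.mem_Ioc] at hn hn'
  omega

theorem th_le_psi (x y : ℝ) (hxy : x ≤ y) :
    Chebyshev.theta y - Chebyshev.theta x ≤ Chebyshev.psi y - Chebyshev.psi x := by
  rw [th_diff x y hxy, psi_diff x y hxy]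
  calc ∑ p ∈ (Finset.Ioc ⌊x⌋₊ ⌊y⌋₊).filter Nat.Prime, Real.log p =
        ∑ p ∈ (Finset.Ioc ⌊x⌋₊ ⌊y⌋₊).filter Nat.Prime, ArithmeticFunction.vonMangoldt p := by
        apply Finset.sum_congr rfl
        intro p hp
        rw [ArithmeticFunction.vonMangoldt_apply_prime (Finset.mem_filter.1 hp).2]
    _ ≤ _ := Finset.sum_le_sum_of_subset_of_nonneg (Finset.filter_subset _ _)
        (fun _ _ _ => ArithmeticFunction.vonMangoldt_nonneg)

theorem th_sq (x y : ℝ) (hx : 1 ≤ x) (hxy : x ≤ y) :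
    Real.log x * (Chebyshev.theta y - Chebyshev.theta x) ≤
      (Chebyshev.theta y - Chebyshev.theta x) ^ 2 := by
  have h0 : 0 ≤ Chebyshev.theta y - Chebyshev.theta x := sub_nonneg.2 (Chebyshev.theta_mono hxy)
  rcases h0.eq_or_lt with h | h
  · rw [← h]
    simp
  · have h1 : Real.log x ≤ Chebyshev.theta y - Chebyshev.theta x := by
      have e := th_diff x y hxy
      rw [e] at h ⊢
      have hne : ((Finset.Ioc ⌊x⌋₊ ⌊y⌋₊).filter Nat.Prime).Nonempty := by
        by_contra hc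
        rw [Finset.not_nonempty_iff_eq_empty] at hc
        rw [hc] at h
        simp at h
      obtain ⟨p, hp⟩ := hne
      have h2 := Finset.mem_filter.1 hp
      rw [Finset.mem_Ioc] at h2
      have h3 : x < p := (Nat.floor_lt (by linarith)).1 h2.1.1
      calc Real.log x ≤ Real.log p := Real.log_le_log (by linarith) h3.le
        _ ≤ _ := Finset.single_le_sum (f := fun p : ℕ => Real.log (p : ℝ))
            (fun i _ => Real.log_natCast_nonneg i) hp
    nlinarith

theorem Dd_low (δ x : ℝ) (hδ : 0 ≤ δ) (hx : 1 ≤ x) :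
    (1 / 2) * Real.log x * (Chebyshev.theta ((1 + δ) * x) - Chebyshev.theta x) - (δ * x) ^ 2 ≤
      Dd δ x ^ 2 := by
  have hxy : x ≤ (1 + δ) * x := by nlinarith
  have h1 := th_sq x _ hx hxy
  have h2 := th_le_psi x _ hxy
  have h0 : 0 ≤ Chebyshev.theta ((1 + δ) * x) - Chebyshev.theta x :=
    sub_nonneg.2 (Chebyshev.theta_mono hxy)
  unfold Dd
  generalize Chebyshev.theta ((1 + δ) * x) - Chebyshev.theta x = t at h0 h1 h2 ⊢
  generalize Chebyshev.psi ((1 + δ) * x) - Chebyshev.psi x = p at h2 ⊢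
  have h3 : t ^ 2 ≤ p ^ 2 := pow_le_pow_left₀ h0 h2 2
  nlinarith [sq_nonneg (p - 2 * (δ * x))]

/-- the integrand -/
noncomputable def Fth (y : ℝ) : ℝ := Chebyshev.theta y / y ^ 2

theorem Fth_ii (A B : ℝ) (hA : 0 < A) (hB : 0 < B) : IntervalIntegrable Fth volume A B := by
  have h1 : IntervalIntegrable (fun y => Chebyshev.theta y) volume A B :=
    Chebyshev.theta_mono.intervalIntegrable
  have h2 : ContinuousOn (fun y : ℝ => (y ^ 2)⁻¹) (Set.uIcc A B) := by
    apply ContinuousOn.inv₀ (by fun_prop)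
    intro y hy
    have : 0 < y := lt_of_lt_of_le (lt_min hA hB) hy.1
    positivity
  exact h1.mul_continuousOn h2

theorem It_low (δ A B y₀ : ℝ) (hδ : 0 ≤ δ) (hδ1 : δ ≤ 1) (hy₀ : 1 ≤ y₀)
    (hlow : ∀ y : ℝ, y₀ ≤ y → y / 2 ≤ Chebyshev.theta y) (hA : y₀ ≤ A) (hAB : A ≤ B) :
    δ * ((1 / 2) * Real.log (B / A) - 4) ≤
      ∫ x in A..B, (Chebyshev.theta ((1 + δ) * x) - Chebyshev.theta x) / x ^ 2 := by
  have hA0 : 0 < A := by linarith
  have hB0 : 0 < B := by linarith
  have h1δ : 0 < 1 + δ := by linarith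
  have e1 : ∫ x in A..B, (Chebyshev.theta ((1 + δ) * x) - Chebyshev.theta x) / x ^ 2 =
      (1 + δ) * (∫ y in ((1 + δ) * A)..((1 + δ) * B), Fth y) - ∫ y in A..B, Fth y := by
    have h2 := intervalIntegral.integral_comp_mul_left (a := A) (b := B) Fth h1δ.ne'
    have h3 : (1 + δ) * (∫ y in ((1 + δ) * A)..((1 + δ) * B), Fth y) =
        ∫ x in A..B, (1 + δ) ^ 2 * Fth ((1 + δ) * x) := by
      rw [intervalIntegral.integral_const_mul, h2, smul_eq_mul]
      field_simp
    rw [h3, ← intervalIntegral.integral_sub]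
    · apply intervalIntegral.integral_congr
      intro x hx
      rw [Set.uIcc_of_le hAB] at hx
      have hx0 : x ≠ 0 := by
        have := hx.1
        intro h
        linarith
      simp only
      unfold Fth
      field_simp
    · have h4 : IntervalIntegrable (fun x => Fth ((1 + δ) * x)) volume A B := by
        have := (Fth_ii ((1 + δ) * A) ((1 + δ) * B) (by positivity) (by positivity)).comp_mul_left
          (c := 1 + δ)
        simpa [mul_div_cancel_left₀ _ h1δ.ne'] using this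
      exact h4.const_mul _
    · exact Fth_ii A B hA0 hB0
  have hF0 : ∀ y, 0 ≤ Fth y := fun y => div_nonneg (Chebyshev.theta_nonneg y) (sq_nonneg y)
  have e2 : (∫ y in ((1 + δ) * A)..((1 + δ) * B), Fth y) =
      (∫ y in A..B, Fth y) + (∫ y in B..((1 + δ) * B), Fth y) - ∫ y in A..((1 + δ) * A), Fth y := by
    have h5 := intervalIntegral.integral_add_adjacent_intervals
      (Fth_ii A ((1 + δ) * A) hA0 (by positivity)) (Fth_ii ((1 + δ) * A) ((1 + δ) * B)
        (by positivity) (by positivity))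
    have h6 := intervalIntegral.integral_add_adjacent_intervals
      (Fth_ii A B hA0 hB0) (Fth_ii B ((1 + δ) * B) hB0 (by positivity))
    linarith
  have h7 : 0 ≤ ∫ y in B..((1 + δ) * B), Fth y :=
    intervalIntegral.integral_nonneg (by nlinarith) (fun y _ => hF0 y)
  have h8 : ∫ y in A..((1 + δ) * A), Fth y ≤ δ * 2 := by
    have h9 : ∫ y in A..((1 + δ) * A), Fth y ≤ ∫ y in A..((1 + δ) * A), (2 / A : ℝ) := by
      apply intervalIntegral.integral_mono_on (by nlinarith)
        (Fth_ii A _ hA0 (by positivity)) (by simp)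
      intro y hy
      have hy0 : 0 < y := lt_of_lt_of_le hA0 hy.1
      unfold Fth
      rw [div_le_div_iff₀ (by positivity) hA0]
      have h10 := Chebyshev.theta_le_log4_mul_x hy0.le
      have h11 : Real.log 4 ≤ 2 := by
        have : Real.log 4 = 2 * Real.log 2 := by
          rw [show (4 : ℝ) = 2 ^ 2 by norm_num, Real.log_pow]; norm_num
        rw [this]
        have := Real.log_two_lt_d9
        linarith
      calc Chebyshev.theta y * A ≤ (2 * y) * y := by
            apply mul_le_mul _ hy.1 hA0.le (by positivity)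
            nlinarith
        _ = 2 * y ^ 2 := by ring
    rw [intervalIntegral.integral_const, smul_eq_mul] at h9
    refine h9.trans (le_of_eq ?_)
    field_simp
    ring
  have h12 : (1 / 2) * Real.log (B / A) ≤ ∫ y in A..B, Fth y := by
    have h13 : ∫ y in A..B, (1 / 2) * (1 / y) = (1 / 2) * Real.log (B / A) := by
      rw [intervalIntegral.integral_const_mul, integral_one_div_of_pos hA0 hB0]
    rw [← h13]
    apply intervalIntegral.integral_mono_on hAB _ (Fth_ii A B hA0 hB0)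
    · intro y hy
      have hy0 : 0 < y := lt_of_lt_of_le hA0 hy.1
      unfold Fth
      have h14 := hlow y (hA.trans hy.1)
      rw [div_mul_div_comm, div_le_div_iff₀ (by positivity) (by positivity)]
      nlinarith
    · apply ContinuousOn.intervalIntegrable
      apply ContinuousOn.mul continuousOn_const
      apply ContinuousOn.div continuousOn_const continuousOn_id
      intro y hy
      rw [Set.uIcc_of_le hAB] at hy
      have := hy.1
      intro h
      simp only [id] at h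
      linarith
  rw [e1, e2]
  nlinarith

theorem triv_range (θ : ℝ) (hθ0 : 0 < θ) (hθ1 : θ < 1) :
    ∃ c T₀ : ℝ, 0 < c ∧ ∀ δ : ℝ, 0 < δ → T₀ ≤ 1 / δ →
      c * δ * Real.log (1 / δ) ^ 2 ≤ J δ ((1 / δ) ^ θ) (1 / δ / 2) ∧
      (1 / δ) ^ θ ≤ 1 / δ / 2 := by
  obtain ⟨y₀, hy₀, hlow⟩ := theta_low
  have h1θ : 0 < 1 - θ := by linarith
  obtain ⟨T₁, hT₁⟩ := Pool.Agent.Y857.VP.ev_log
    (max (max 1 (20 / (1 - θ))) (max (Real.log y₀ / θ) (8 / (θ * (1 - θ)))))
  refine ⟨θ * (1 - θ) / 16, max T₁ 2, by positivity, fun δ hδ hδT => ?_⟩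
  obtain ⟨T, hT⟩ : ∃ T, T = 1 / δ := ⟨_, rfl⟩
  rw [← hT] at hδT ⊢
  simp only [max_le_iff] at hδT
  obtain ⟨hTT, hT2⟩ := hδT
  have hT0 : 0 < T := by linarith
  have hδT : δ = 1 / T := by
    rw [hT]
    field_simp
  have hδ1 : δ ≤ 1 := by
    rw [hδT, div_le_one hT0]
    linarith
  have hL := hT₁ T hTT
  simp only [max_le_iff] at hL
  obtain ⟨⟨hL1, hL2⟩, hL3, hL4⟩ := hL
  obtain ⟨L, hLe⟩ : ∃ L, L = Real.log T := ⟨_, rfl⟩
  rw [← hLe] at hL1 hL2 hL3 hL4 ⊢
  rw [div_le_iff₀ h1θ] at hL2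
  rw [div_le_iff₀ hθ0] at hL3
  rw [div_le_iff₀ (by positivity)] at hL4
  have hl2 := Real.log_two_lt_d9
  have hA0 : 0 < T ^ θ := by positivity
  have hAy : y₀ ≤ T ^ θ := by
    rw [Real.rpow_def_of_pos hT0, ← hLe, ← Real.log_le_iff_le_exp (by linarith)]
    exact hL3
  have hAB : T ^ θ ≤ T / 2 := by
    have h1 : T ^ θ * 2 ≤ T := by
      have h2 : T ^ θ * 2 = Real.exp (L * θ + Real.log 2) := by
        rw [Real.exp_add, Real.exp_log (by norm_num), Real.rpow_def_of_pos hT0, ← hLe]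
      rw [h2, ← Real.le_log_iff_exp_le hT0, ← hLe]
      nlinarith
    linarith
  refine ⟨?_, hAB⟩
  have hlogA : Real.log (T ^ θ) = θ * L := by rw [Real.log_rpow hT0, hLe]
  have hlogBA : Real.log (T / 2 / T ^ θ) = L - Real.log 2 - θ * L := by
    rw [Real.log_div (by positivity) hA0.ne', Real.log_div hT0.ne' (by norm_num), hlogA, hLe]
  have hI := It_low δ (T ^ θ) (T / 2) y₀ hδ.le hδ1 hy₀ hlow hAy hAB
  rw [hlogBA] at hI
  obtain ⟨I, hIe⟩ : ∃ I, I = ∫ x in (T ^ θ)..(T / 2),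
      (Chebyshev.theta ((1 + δ) * x) - Chebyshev.theta x) / x ^ 2 := ⟨_, rfl⟩
  rw [← hIe] at hI
  have hIlow : δ * ((1 - θ) * L / 4) ≤ I := by
    refine le_trans ?_ hI
    apply mul_le_mul_of_nonneg_left _ hδ.le
    nlinarith
  have iit : IntervalIntegrable (fun x => (Chebyshev.theta ((1 + δ) * x) - Chebyshev.theta x) / x ^ 2)
      volume (T ^ θ) (T / 2) := by
    have h1 : IntervalIntegrable (fun y => Chebyshev.theta y) volume (T ^ θ) (T / 2) :=
      Chebyshev.theta_mono.intervalIntegrable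
    have h1' : IntervalIntegrable (fun y => Chebyshev.theta ((1 + δ) * y)) volume (T ^ θ) (T / 2) := by
      apply Monotone.intervalIntegrable
      intro u v huv
      exact Chebyshev.theta_mono (mul_le_mul_of_nonneg_left huv (by linarith))
    have h2 : ContinuousOn (fun y : ℝ => (y ^ 2)⁻¹) (Set.uIcc (T ^ θ) (T / 2)) := by
      apply ContinuousOn.inv₀ (by fun_prop)
      intro y hy
      have : 0 < y := lt_of_lt_of_le (lt_min hA0 (by positivity)) hy.1
      positivity
    exact (h1'.sub h1).mul_continuousOn h2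
  have hJ : (1 / 2) * (θ * L) * I - δ ^ 2 * (T / 2 - T ^ θ) ≤ J δ (T ^ θ) (T / 2) := by
    unfold J
    have e : (1 / 2) * (θ * L) * I - δ ^ 2 * (T / 2 - T ^ θ) =
        ∫ x in (T ^ θ)..(T / 2), ((1 / 2) * (θ * L) *
          ((Chebyshev.theta ((1 + δ) * x) - Chebyshev.theta x) / x ^ 2) - δ ^ 2) := by
      rw [intervalIntegral.integral_sub (iit.const_mul _) (by simp),
        intervalIntegral.integral_const_mul, intervalIntegral.integral_const, ← hIe, smul_eq_mul]
      ring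
    rw [e]
    apply intervalIntegral.integral_mono_on hAB ((iit.const_mul _).sub (by simp))
      (J_ii δ _ _ hδ.le hA0 (by positivity))
    intro x hx
    have hx1 : 1 ≤ x := by linarith [hx.1]
    have hx0 : 0 < x := by linarith
    have h1 := Dd_low δ x hδ.le hx1
    have hxy : x ≤ (1 + δ) * x := by nlinarith
    have h0 : 0 ≤ Chebyshev.theta ((1 + δ) * x) - Chebyshev.theta x :=
      sub_nonneg.2 (Chebyshev.theta_mono hxy)
    have h2 : θ * L ≤ Real.log x := by
      rw [← hlogA]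
      exact Real.log_le_log hA0 hx.1
    have h3 : (1 / 2) * (θ * L) * (Chebyshev.theta ((1 + δ) * x) - Chebyshev.theta x) ≤
        (1 / 2) * Real.log x * (Chebyshev.theta ((1 + δ) * x) - Chebyshev.theta x) := by
      apply mul_le_mul_of_nonneg_right _ h0
      linarith
    rw [le_div_iff₀ (by positivity)]
    have h4 : (1 / 2 * (θ * L) * ((Chebyshev.theta ((1 + δ) * x) - Chebyshev.theta x) / x ^ 2) -
        δ ^ 2) * x ^ 2 = (1 / 2) * (θ * L) * (Chebyshev.theta ((1 + δ) * x) - Chebyshev.theta x) -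
        (δ * x) ^ 2 := by
      field_simp
    rw [h4]
    linarith
  refine le_trans ?_ hJ
  have h5 : (1 / 2) * (θ * L) * (δ * ((1 - θ) * L / 4)) ≤ (1 / 2) * (θ * L) * I :=
    mul_le_mul_of_nonneg_left hIlow (by positivity)
  have h6 : δ ^ 2 * (T / 2 - T ^ θ) ≤ δ / 2 := by
    have : δ ^ 2 * (T / 2) = δ / 2 := by
      rw [hδT]
      field_simp
    nlinarith [mul_pos (pow_pos hδ 2) hA0]
  have h7 : δ / 2 ≤ θ * (1 - θ) / 16 * δ * L ^ 2 := by
    have h8 : 8 ≤ θ * (1 - θ) * L ^ 2 := by nlinarith [mul_pos hθ0 h1θ]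
    nlinarith
  nlinarith

end Pool.Agent.D0H44.GM
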