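import Pool.Agent.D0H44.GM.Core
import Pool.Agent.D0H44.GM.St

/-! The window theorem for `ψ((1+δ)x) - ψ(x) - δx`, in terms of `LM`. -/

set_option autoImplicit false

namespace Pool.Agent.D0H44.GM

open Complex MeasureTheory Filter Topology
open Pool.Agent.H448R2.GC (cu cs)
open Pool.Agent.Y857.VP

theorem S_eq {k : ℕ} {c p q : ℝ} (hc : 0 < c) (hpq : p ≤ q) (N : ℕ) (hN : ⌊Real.exp (q + k * c)⌋₊ ≤ N)
    (s : ℂ) :
    (∑ n ∈ Finset.Icc 1 ⌊Real.exp (q + k * c)⌋₊, ((VA.aN k c p q n : ℝ) : ℂ) * (n : ℂ) ^ (-s)) =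
      AN N (VA.be k c p q) s := by
  unfold AN
  have h1 : ∀ n, lm n * VA.be k c p q (Real.log n) = VA.aN k c p q n := by
    intro n
    unfold VA.aN
    ring
  simp only [h1]
  apply Finset.sum_subset (Finset.Icc_subset_Icc le_rfl hN)
  intro n hn hn'
  rw [Finset.mem_Icc] at hn hn'
  rw [VA.aN_zero_right hc hpq (by omega)]
  simp

theorem pt_PP (T c : ℝ) (k : ℕ) (p q : ℝ) (hT0 : 0 < T) (hc0 : 0 < c) (hpq : p ≤ q) (N : ℕ)
    (hN : ⌊Real.exp (q + k * c)⌋₊ ≤ N) (t : ℝ)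
    (h1 : ‖cs k c q (((1 / 2 : ℝ) : ℂ) + (t : ℂ) * I) - riemannZeta (((1 / 2 : ℝ) : ℂ) + (t : ℂ) * I)‖ ≤
      T ^ (-(1 : ℝ)))
    (h2 : ‖cs k c p (((1 / 2 : ℝ) : ℂ) + (t : ℂ) * I) - riemannZeta (((1 / 2 : ℝ) : ℂ) + (t : ℂ) * I)‖ ≤
      T ^ (-(1 : ℝ))) :
      ‖PP k c q ((1 / 2 : ℝ) + (t : ℂ) * I) - PP k c p ((1 / 2 : ℝ) + (t : ℂ) * I)‖ ^ 2 ≤
      128 * ‖AN N (VA.be k c p q) ((1 / 2 : ℝ) + (t : ℂ) * I)‖ ^ 2 + 8 / T ^ 2 := by
  rw [PP_diff hc0 hpq, S_eq hc0 hpq N hN]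
  have h3 : T ^ (-(1 : ℝ)) = 1 / T := by rw [Real.rpow_neg_one, one_div]
  rw [h3] at h1 h2
  generalize AN N (VA.be k c p q) ((1 / 2 : ℝ) + (t : ℂ) * I) = S
  have h4 : ‖cs k c q (((1 / 2 : ℝ) : ℂ) + (t : ℂ) * I) -
      cs k c p (((1 / 2 : ℝ) : ℂ) + (t : ℂ) * I)‖ ≤ 2 / T := by
    have e : cs k c q (((1 / 2 : ℝ) : ℂ) + (t : ℂ) * I) -
      cs k c p (((1 / 2 : ℝ) : ℂ) + (t : ℂ) * I) =
      (cs k c q (((1 / 2 : ℝ) : ℂ) + (t : ℂ) * I) - riemannZeta (((1 / 2 : ℝ) : ℂ) + (t : ℂ) * I)) -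
      (cs k c p (((1 / 2 : ℝ) : ℂ) + (t : ℂ) * I) -
        riemannZeta (((1 / 2 : ℝ) : ℂ) + (t : ℂ) * I)) := by ring
    rw [e]
    refine (norm_sub_le _ _).trans ?_
    calc _ ≤ 1 / T + 1 / T := add_le_add h1 h2
      _ = 2 / T := by ring
  have h5 : ‖8 * S + (cs k c q (((1 / 2 : ℝ) : ℂ) + (t : ℂ) * I) -
      cs k c p (((1 / 2 : ℝ) : ℂ) + (t : ℂ) * I))‖ ≤ 8 * ‖S‖ + 2 / T := by
    refine (norm_add_le _ _).trans (add_le_add ?_ h4)
    rw [norm_mul]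
    norm_num
  calc _ ≤ (8 * ‖S‖ + 2 / T) ^ 2 := pow_le_pow_left₀ (norm_nonneg _) h5 2
    _ ≤ 128 * ‖S‖ ^ 2 + 8 / T ^ 2 := by
      have h6 : (2 / T) ^ 2 = 4 / T ^ 2 := by rw [div_pow]; norm_num
      have h7 : 8 / T ^ 2 = 2 * (2 / T) ^ 2 := by rw [h6]; ring
      rw [h7]
      nlinarith [sq_nonneg (8 * ‖S‖ - 2 / T)]

/-- the size of the error term in `ms_ind` -/
theorem small_err (B : ℝ) (hB : 0 ≤ B) (m : ℕ) (hm : 4 * B + 10 ≤ m) : ∃ T₀ : ℝ, ∀ T : ℝ, T₀ ≤ T →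
    ∀ N : ℕ, (N : ℝ) ≤ Real.exp 1 * T ^ B → (2 / T ^ 2) ^ m * (10 * T * (N : ℝ) ^ 4) ≤ 1 := by
  refine ⟨10 * Real.exp 4, fun T hT N hN => ?_⟩
  have he : 1 ≤ Real.exp 4 := Real.one_le_exp (by norm_num)
  have hT10 : 10 ≤ T := by linarith
  have hT0 : 0 < T := by linarith
  have h1 : 2 / T ^ 2 ≤ 1 / T := by
    rw [div_le_div_iff₀ (by positivity) hT0]
    nlinarith
  have h2 : (2 / T ^ 2) ^ m ≤ (1 / T) ^ m := pow_le_pow_left₀ (by positivity) h1 m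
  have h3 : (N : ℝ) ^ 4 ≤ Real.exp 4 * T ^ (4 * B) := by
    calc (N : ℝ) ^ 4 ≤ (Real.exp 1 * T ^ B) ^ 4 := pow_le_pow_left₀ (by positivity) hN 4
      _ = Real.exp 4 * T ^ (4 * B) := by
        rw [mul_pow, ← Real.exp_nat_mul, ← Real.rpow_natCast (T ^ B) 4, ← Real.rpow_mul hT0.le]
        norm_num
        ring_nf
  have h4 : (1 / T) ^ m ≤ T ^ (-(4 * B + 10)) := by
    rw [one_div, inv_pow, ← Real.rpow_natCast, ← Real.rpow_neg hT0.le]
    exact Real.rpow_le_rpow_of_exponent_le (by linarith) (by linarith)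
  calc (2 / T ^ 2) ^ m * (10 * T * (N : ℝ) ^ 4)
      ≤ T ^ (-(4 * B + 10)) * (10 * T * (Real.exp 4 * T ^ (4 * B))) := by
        apply mul_le_mul (h2.trans h4) _ (by positivity) (by positivity)
        exact mul_le_mul_of_nonneg_left h3 (by positivity)
    _ = (10 * Real.exp 4) * (T * (T ^ (-(4 * B + 10)) * T ^ (4 * B))) := by ring
    _ = (10 * Real.exp 4) * (T * T ^ (-(10 : ℝ))) := by
        rw [← Real.rpow_add hT0]
        congr 3
        ring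
    _ = (10 * Real.exp 4) * T ^ (-(9 : ℝ)) := by
        nth_rewrite 1 [← Real.rpow_one T]
        rw [← Real.rpow_add hT0]
        norm_num
    _ ≤ (10 * Real.exp 4) * T ^ (-(1 : ℝ)) := by
        apply mul_le_mul_of_nonneg_left _ (by positivity)
        exact Real.rpow_le_rpow_of_exponent_le (by linarith) (by norm_num)
    _ ≤ T * T ^ (-(1 : ℝ)) := mul_le_mul_of_nonneg_right hT (by positivity)
    _ = 1 := by
        rw [Real.rpow_neg_one]
        field_simp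

theorem win_LM (a η : ℝ) (ha : 1 + 2 * η ≤ a) (hη0 : 0 < η) (hη1 : η ≤ 1) :
    ∃ c T₀ : ℝ, 0 < c ∧ ∀ T : ℝ, T₀ ≤ T →
      c * Real.log T ^ 2 / T ≤ LM (a * Real.log T) ((a + 1 + 7 * η) * Real.log T) (1 / (8 * T)) := by
  obtain ⟨b, hb⟩ : ∃ b, b = a + 1 + 5 * η := ⟨_, rfl⟩
  obtain ⟨k0, hk0⟩ := core a η ha hη0 hη1
  obtain ⟨k1, hk1⟩ := Pool.Agent.H448R2.GC.cs_zeta η b 1 hη0 (by linarith)
  obtain ⟨k2, hk2⟩ := exists_nat_ge (4 * (b + 2 * η) + 10)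
  obtain ⟨k, hkk0, hkk1, hkk2⟩ : ∃ k : ℕ, k0 ≤ k ∧ k1 ≤ k ∧ k2 + 2 ≤ k :=
    ⟨max k0 (max k1 (k2 + 2)), le_max_left _ _, (le_max_left _ _).trans (le_max_right _ _),
      (le_max_right _ _).trans (le_max_right _ _)⟩
  obtain ⟨c, T₁, hc, hcore⟩ := hk0 k hkk0
  obtain ⟨T₂, hT₂⟩ := hk1 k hkk1
  have hm : 4 * (b + 2 * η) + 10 ≤ ((k - 1 : ℕ) : ℝ) := by
    refine hk2.trans ?_
    exact_mod_cast (by omega : k2 ≤ k - 1)
  obtain ⟨T₃, hT₃⟩ := small_err (b + 2 * η) (by linarith) (k - 1) hm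
  obtain ⟨T₄, hT₄⟩ := ev_log (max (max 1 (k / η)) (200 / c))
  have hpi := Real.pi_pos
  refine ⟨c / (1000000 * Real.pi), max (max T₁ T₂) (max T₃ (max T₄ 40)), by positivity, fun T hT => ?_⟩
  simp only [max_le_iff] at hT
  obtain ⟨⟨hTT1, hTT2⟩, hTT3, hTT4, hT40⟩ := hT
  have hLL := hT₄ T hTT4
  simp only [max_le_iff] at hLL
  obtain ⟨⟨hL1, hLk⟩, hLc⟩ := hLL
  have hT0 : 0 < T := by linarith
  have hcore := hcore T hTT1
  have hcsz := hT₂ T hTT2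
  have herr := hT₃ T hTT3
  obtain ⟨L, hL⟩ : ∃ L : ℝ, L = Real.log T := ⟨_, rfl⟩
  rw [← hL] at hL1 hLk hLc hcore hcsz ⊢
  have hL0 : 0 < L := by linarith
  have hk0 : (0 : ℝ) < k := by exact_mod_cast (by omega : 0 < k)
  rw [div_le_iff₀ hη0] at hLk
  rw [div_le_iff₀ hc] at hLc
  obtain ⟨cc, hcc⟩ : ∃ cc : ℝ, cc = η * L / k := ⟨_, rfl⟩
  have hcc1 : 1 ≤ cc := by
    rw [hcc, le_div_iff₀ hk0]
    linarith
  have hkcc : (k : ℝ) * cc = η * L := by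
    rw [hcc]
    field_simp
  have hpq : a * L ≤ b * L := by
    apply mul_le_mul_of_nonneg_right _ hL0.le
    linarith
  obtain ⟨Q, hQ⟩ : ∃ Q : ℝ, Q = (a + 1 + 7 * η) * L := ⟨_, rfl⟩
  have hQ1 : b * L + k * cc + k ≤ Q := by
    rw [hkcc, hQ, hb]
    nlinarith
  obtain ⟨N, hN⟩ : ∃ N : ℕ, N = ⌊Real.exp (Q + 1)⌋₊ := ⟨_, rfl⟩
  obtain ⟨l, hl⟩ : ∃ l : ℝ, l = 1 / (8 * T) := ⟨_, rfl⟩
  have hl0 : 0 < l := by rw [hl]; positivity
  have hl1 : l ≤ 1 := by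
    rw [hl, div_le_one (by positivity)]
    linarith
  have hNl : Real.exp (Q + l) < N + 1 := by
    refine lt_of_le_of_lt (Real.exp_le_exp.2 (by linarith : Q + l ≤ Q + 1)) ?_
    rw [hN]
    exact Nat.lt_floor_add_one _
  have hNf : ⌊Real.exp (b * L + k * cc)⌋₊ ≤ N := by
    rw [hN]
    exact Nat.floor_le_floor (Real.exp_le_exp.2 (by linarith))
  have hPQ : a * L ≤ Q := by linarith [mul_pos hk0 (by linarith : (0 : ℝ) < cc)]
  have hind := ms_ind N cc l T (a * L) Q hcc1 (by linarith) hl hPQ hNl (k - 1) k (a * L) (b * L)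
    (by omega) le_rfl hpq (by
      have : ((k - 1 : ℕ) : ℝ) ≤ k := by exact_mod_cast (by omega : k - 1 ≤ k)
      linarith)
  have hNT : (N : ℝ) ≤ Real.exp 1 * T ^ (b + 2 * η) := by
    rw [hN]
    refine (Nat.floor_le (Real.exp_pos _).le).trans (le_of_eq ?_)
    rw [Real.rpow_def_of_pos hT0, ← Real.exp_add, ← hL, hQ, hb]
    congr 1
    ring
  have h128 : 128 * l ^ 2 = 2 / T ^ 2 := by
    rw [hl]
    field_simp
    norm_num
  rw [h128] at hind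
  have h16 : 2 * (16 * Real.pi / l ^ 2 * LM (a * L) Q l) = 2048 * Real.pi * T ^ 2 * LM (a * L) Q l := by
    rw [hl]
    field_simp
    ring
  rw [h16] at hind
  have hMS : MS N (VA.be k cc (a * L) (b * L)) T ≤ 2048 * Real.pi * T ^ 2 * LM (a * L) Q l + 1 :=
    hind.trans (by linarith [herr N hNT])
  -- comparison with the window polynomial
  have hpt : ∀ t ∈ Set.Icc (T / 4) (4 * T), Bf T a (a + 1 + 5 * η) η k t ^ 2 ≤
      128 * ‖AN N (VA.be k cc (a * L) (b * L)) ((1 / 2 : ℝ) + (t : ℂ) * I)‖ ^ 2 + 8 / T ^ 2 := by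
    intro t ht
    have h1 := hcsz (b * L) (by nlinarith) le_rfl (((1 / 2 : ℝ) : ℂ) + (t : ℂ) * I) (by simp; norm_num)
      (by simp; norm_num) (by simp; linarith [ht.1]) (by simp; linarith [ht.2])
    have h2 := hcsz (a * L) (by nlinarith) (by nlinarith) (((1 / 2 : ℝ) : ℂ) + (t : ℂ) * I)
      (by simp; norm_num) (by simp; norm_num) (by simp; linarith [ht.1]) (by simp; linarith [ht.2])
    rw [← hcc] at h1 h2
    have h3 := pt_PP T cc k (a * L) (b * L) hT0 (by linarith) hpq N hNf t h1 h2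
    unfold Bf
    rw [← hL, ← hcc, ← hb]
    exact h3
  have hle : T / 4 ≤ 4 * T := by linarith
  have hAc := (AN_cont1 N (VA.be k cc (a * L) (b * L))).norm.pow 2
  have hint : ∫ t in (T / 4)..(4 * T), Bf T a (a + 1 + 5 * η) η k t ^ 2 ≤
      128 * MS N (VA.be k cc (a * L) (b * L)) T + 1 := by
    have i1 : IntervalIntegrable (fun t : ℝ =>
        128 * ‖AN N (VA.be k cc (a * L) (b * L)) ((1 / 2 : ℝ) + (t : ℂ) * I)‖ ^ 2) volume (T / 4) (4 * T) :=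
      (hAc.const_mul _).intervalIntegrable _ _
    have i0 : ∀ u v : ℝ, IntervalIntegrable (fun t : ℝ =>
        ‖AN N (VA.be k cc (a * L) (b * L)) ((1 / 2 : ℝ) + (t : ℂ) * I)‖ ^ 2) volume u v :=
      fun u v => hAc.intervalIntegrable _ _
    calc _ ≤ ∫ t in (T / 4)..(4 * T),
          (128 * ‖AN N (VA.be k cc (a * L) (b * L)) ((1 / 2 : ℝ) + (t : ℂ) * I)‖ ^ 2 + 8 / T ^ 2) := by
          apply intervalIntegral.integral_mono_on hle
            (((Bf_cont T a _ η k).pow 2).intervalIntegrable _ _) (i1.add (by simp)) hpt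
      _ = 128 * (∫ t in (T / 4)..(4 * T),
          ‖AN N (VA.be k cc (a * L) (b * L)) ((1 / 2 : ℝ) + (t : ℂ) * I)‖ ^ 2) +
          (4 * T - T / 4) * (8 / T ^ 2) := by
          rw [intervalIntegral.integral_add i1 (by simp),
            intervalIntegral.integral_const_mul, intervalIntegral.integral_const, smul_eq_mul]
      _ ≤ _ := by
          have h1 : ∫ t in (T / 4)..(4 * T),
              ‖AN N (VA.be k cc (a * L) (b * L)) ((1 / 2 : ℝ) + (t : ℂ) * I)‖ ^ 2 ≤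
              MS N (VA.be k cc (a * L) (b * L)) T := by
            unfold MS
            apply intervalIntegral.integral_mono_interval (by linarith) hle (by linarith)
              (Filter.Eventually.of_forall fun t => by positivity) (i0 _ _)
          have h2 : (4 * T - T / 4) * (8 / T ^ 2) ≤ 1 := by
            have : (4 * T - T / 4) * (8 / T ^ 2) = 30 / T := by
              field_simp
              ring
            rw [this, div_le_one hT0]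
            linarith
          linarith
  have hfin : c * T * L ^ 2 ≤ 128 * (2048 * Real.pi * T ^ 2 * LM (a * L) Q l + 1) + 1 :=
    hcore.trans (hint.trans (by linarith))
  rw [← hQ, ← hl]
  obtain ⟨Y, hY⟩ : ∃ Y, Y = LM (a * L) Q l := ⟨_, rfl⟩
  rw [← hY] at hfin ⊢
  have h129 : 129 ≤ c * T * L ^ 2 / 2 := by
    have h8 : 40 ≤ T * L := by nlinarith
    have h9 : 200 * 40 ≤ (L * c) * (T * L) := mul_le_mul hLc h8 (by norm_num) (by positivity)
    have e : (L * c) * (T * L) = c * T * L ^ 2 := by ring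
    rw [e] at h9
    linarith
  rw [div_le_iff₀ hT0, div_mul_eq_mul_div, div_le_iff₀ (by positivity)]
  have h5 : c * T * L ^ 2 ≤ 2 * (128 * 2048) * Real.pi * T ^ 2 * Y := by linarith
  have h6 : c * L ^ 2 ≤ 2 * (128 * 2048) * Real.pi * T * Y := by
    have : T * (c * L ^ 2) ≤ T * (2 * (128 * 2048) * Real.pi * T * Y) := by
      calc T * (c * L ^ 2) = c * T * L ^ 2 := by ring
        _ ≤ _ := h5
        _ = _ := by ring
    exact le_of_mul_le_mul_left this hT0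
  have h6' : c * L ^ 2 ≤ 524288 * (Real.pi * T * Y) := by
    refine h6.trans (le_of_eq ?_)
    ring
  have h8 : 0 < c * L ^ 2 := by positivity
  have h9 : c * L ^ 2 ≤ 1000000 * (Real.pi * T * Y) := by linarith
  refine h9.trans (le_of_eq ?_)
  ring

end Pool.Agent.D0H44.GM
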